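import Pool.Agent.H4.RD.Stmt

/-!
# General facts about combinatorial 2-complexes
-/

namespace Pool.Agent.H4.RD

section Paths

variable {V E : Type} {src tgt : E → V}

theorem isPath_append {v w : V} {l l' : List (E × Bool)} :
    IsPath src tgt v (l ++ l') w ↔ ∃ u, IsPath src tgt v l u ∧ IsPath src tgt u l' w := by
  induction l generalizing v with
  | nil => simp [IsPath]
  | cons p l ih =>
    obtain ⟨e, b⟩ := p
    simp only [List.cons_append, IsPath]
    rw [ih]
    constructor
    · rintro ⟨h1, u, h2, h3⟩
      exact ⟨u, ⟨h1, h2⟩, h3⟩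
    · rintro ⟨u, ⟨h1, h2⟩, h3⟩
      exact ⟨h1, u, h2, h3⟩

theorem IsPath.append {u v w : V} {l l' : List (E × Bool)} (h : IsPath src tgt v l u)
    (h' : IsPath src tgt u l' w) : IsPath src tgt v (l ++ l') w :=
  isPath_append.2 ⟨u, h, h'⟩

theorem IsPath.unique {v w w' : V} {l : List (E × Bool)} (h : IsPath src tgt v l w)
    (h' : IsPath src tgt v l w') : w = w' := by
  induction l generalizing v with
  | nil => simp only [IsPath] at h h'; rw [← h, ← h']
  | cons p l ih =>
    obtain ⟨e, b⟩ := p
    exact ih h.2 h'.2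

theorem IsPath.start {v v' w w' : V} {l : List (E × Bool)} (hl : l ≠ [])
    (h : IsPath src tgt v l w) (h' : IsPath src tgt v' l w') : v = v' ∧ w = w' := by
  rcases l with _ | ⟨⟨e, b⟩, l⟩
  · exact absurd rfl hl
  · have h1 : v = v' := by rw [← h.1, ← h'.1]
    subst h1
    exact ⟨rfl, h.unique h'⟩

/-- The inverse of an edge path. -/
def invP (l : List (E × Bool)) : List (E × Bool) := (l.map fun p => (p.1, !p.2)).reverse

theorem invP_nil : invP ([] : List (E × Bool)) = [] := rfl

theorem invP_cons (p : E × Bool) (l : List (E × Bool)) :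
    invP (p :: l) = invP l ++ [(p.1, !p.2)] := by
  simp [invP]

theorem invP_append (l l' : List (E × Bool)) : invP (l ++ l') = invP l' ++ invP l := by
  simp [invP]

theorem invP_invP (l : List (E × Bool)) : invP (invP l) = l := by
  induction l with
  | nil => rfl
  | cons p l ih => rw [invP_cons, invP_append, ih]; simp [invP]

theorem invP_length (l : List (E × Bool)) : (invP l).length = l.length := by
  simp [invP]

theorem IsPath.inv {v w : V} {l : List (E × Bool)} (h : IsPath src tgt v l w) :
    IsPath src tgt w (invP l) v := by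
  induction l generalizing v with
  | nil => exact h.symm
  | cons p l ih =>
    obtain ⟨e, b⟩ := p
    rw [invP_cons]
    refine (ih h.2).append ?_
    have := h.1
    cases b <;> simp_all [IsPath]

theorem IsPath.smul {G : Type} [Group G] [MulAction G V] [MulAction G E]
    (hs : ∀ (g : G) (e : E), src (g • e) = g • src e)
    (ht : ∀ (g : G) (e : E), tgt (g • e) = g • tgt e)
    {v w : V} {l : List (E × Bool)} (h : IsPath src tgt v l w) (g : G) :
    IsPath src tgt (g • v) (l.map fun p => (g • p.1, p.2)) (g • w) := by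
  induction l generalizing v with
  | nil => simp only [IsPath] at h; subst h; rfl
  | cons p l ih =>
    obtain ⟨e, b⟩ := p
    have h1 := h.1
    have h2 := ih h.2
    cases b
    · simp only [Bool.false_eq_true, if_false] at h1 h2
      refine ⟨?_, ?_⟩
      · simp [ht, h1]
      · simpa [hs] using h2
    · simp only [if_true] at h1 h2
      refine ⟨?_, ?_⟩
      · simp [hs, h1]
      · simpa [ht] using h2

end Paths

namespace Cx

section Ch

variable {E : Type}

theorem ch_nil : ch ([] : List (E × Bool)) = 0 := rfl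

theorem ch_cons (p : E × Bool) (l : List (E × Bool)) :
    ch (p :: l) = (if p.2 then Finsupp.single p.1 1 else -Finsupp.single p.1 1) + ch l := by
  simp [ch]

theorem ch_append (l l' : List (E × Bool)) : ch (l ++ l') = ch l + ch l' := by
  simp [ch]

theorem ch_invP (l : List (E × Bool)) : ch (invP l) = -ch l := by
  induction l with
  | nil => rfl
  | cons p l ih =>
    rw [invP_cons, ch_append, ih, ch_cons, ch_cons, ch_nil]
    rcases p with ⟨e, b⟩
    cases b <;> simp

theorem ch_spur (p q : List (E × Bool)) (e : E) (b : Bool) :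
    ch (p ++ (e, b) :: (e, !b) :: q) = ch (p ++ q) := by
  rw [ch_append, ch_append, ch_cons, ch_cons]
  cases b <;> simp

theorem sum_ch_le (l : List (E × Bool)) :
    ∑ e ∈ (ch l).support, ((ch l) e).natAbs ≤ l.length := by
  classical
  -- the `ℓ¹` norm
  have key : ∀ (a b : E →₀ ℤ), ∑ e ∈ (a + b).support, ((a + b) e).natAbs ≤
      ∑ e ∈ a.support, (a e).natAbs + ∑ e ∈ b.support, (b e).natAbs := by
    intro a b
    have h1 : ∑ e ∈ a.support, (a e).natAbs = ∑ e ∈ a.support ∪ b.support, (a e).natAbs := by
      apply Finset.sum_subset Finset.subset_union_left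
      intro x _ hx
      simpa using hx
    have h2 : ∑ e ∈ b.support, (b e).natAbs = ∑ e ∈ a.support ∪ b.support, (b e).natAbs := by
      apply Finset.sum_subset Finset.subset_union_right
      intro x _ hx
      simpa using hx
    rw [h1, h2, ← Finset.sum_add_distrib]
    calc ∑ e ∈ (a + b).support, ((a + b) e).natAbs
        ≤ ∑ e ∈ (a + b).support, ((a e).natAbs + (b e).natAbs) :=
          Finset.sum_le_sum fun e _ => by
            rw [Finsupp.add_apply]; exact Int.natAbs_add_le _ _
      _ ≤ _ := Finset.sum_le_sum_of_subset Finsupp.support_add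
  induction l with
  | nil => simp [ch_nil]
  | cons p l ih =>
    rw [ch_cons, List.length_cons]
    refine (key _ _).trans ?_
    have : ∑ e ∈ (if p.2 then Finsupp.single p.1 1 else -Finsupp.single p.1 (1 : ℤ)).support,
        ((if p.2 then Finsupp.single p.1 1 else -Finsupp.single p.1 (1 : ℤ)) e).natAbs ≤ 1 := by
      split
      · rw [Finsupp.support_single_ne_zero _ one_ne_zero]
        simp
      · rw [Finsupp.support_neg, Finsupp.support_single_ne_zero _ one_ne_zero]
        simp
    omega

end Ch

variable {G : Type} [Group G] (K : Cx G)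

/-- The boundary of 1-chains. -/
noncomputable def bdry1 : (K.E →₀ ℤ) →ₗ[ℤ] (K.V →₀ ℤ) :=
  Finsupp.linearCombination ℤ fun e => Finsupp.single (K.tgt e) 1 - Finsupp.single (K.src e) 1

theorem bdry1_ch {v w : K.V} {l : List (K.E × Bool)} (h : IsPath K.src K.tgt v l w) :
    K.bdry1 (ch l) = Finsupp.single w 1 - Finsupp.single v 1 := by
  induction l generalizing v with
  | nil => simp only [IsPath] at h; subst h; simp [ch_nil]
  | cons p l ih =>
    obtain ⟨e, b⟩ := p
    rw [ch_cons, map_add, ih h.2, ← h.1]
    cases b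
    · simp [bdry1]
    · simp [bdry1]

theorem bdry1_bdry (a : K.F →₀ ℤ) : K.bdry1 (K.bdry a) = 0 := by
  have : K.bdry1 ∘ₗ K.bdry = 0 := by
    ext f
    obtain ⟨v, hv⟩ := K.att_path f
    simp [bdry, K.bdry1_ch hv]
  exact LinearMap.congr_fun this a

/-- A homotopy gives a 2-chain. -/
theorem Htp.chain {v w : K.V} {l l' : List (K.E × Bool)} {k : ℕ} (h : K.Htp v w l l' k) :
    ∃ a : K.F →₀ ℤ, K.bdry a = ch l - ch l' ∧ a.support.card ≤ k := by
  classical
  induction h with
  | refl l h => exact ⟨0, by simp, by simp⟩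
  | spur p q e b h => exact ⟨0, by simp [ch_spur], by simp⟩
  | face p q f h =>
    refine ⟨Finsupp.single f 1, ?_, ?_⟩
    · simp only [bdry, Finsupp.linearCombination_single, one_smul, ch_append]
      abel
    · rw [Finsupp.support_single_ne_zero _ one_ne_zero]
      simp
  | symm l l' k h ih =>
    obtain ⟨a, h1, h2⟩ := ih
    refine ⟨-a, ?_, ?_⟩
    · rw [map_neg, h1]; abel
    · rwa [Finsupp.support_neg]
  | trans l l' l'' k k' h h' ih ih' =>
    obtain ⟨a, h1, h2⟩ := ih
    obtain ⟨a', h1', h2'⟩ := ih'
    refine ⟨a + a', ?_, ?_⟩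
    · rw [map_add, h1, h1']; abel
    · exact (Finset.card_le_card Finsupp.support_add).trans
        ((Finset.card_union_le _ _).trans (by omega))

/-- In a simply connected complex every 1-cycle is a boundary. -/
theorem SC.cycle {K : Cx G} (h : K.SC) (z : K.E →₀ ℤ) (hz : K.bdry1 z = 0) :
    z ∈ LinearMap.range K.bdry := by
  obtain ⟨⟨v₀⟩, hconn, hsc⟩ := h
  choose q hq using fun v => hconn v₀ v
  let Q : (K.V →₀ ℤ) →ₗ[ℤ] (K.E →₀ ℤ) := Finsupp.linearCombination ℤ fun v => ch (q v)
  let loop : K.E → List (K.E × Bool) := fun e => q (K.src e) ++ (e, true) :: invP (q (K.tgt e))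
  have hloop : ∀ e, IsPath K.src K.tgt v₀ (loop e) v₀ := by
    intro e
    refine (hq _).append ⟨rfl, ?_⟩
    exact (hq _).inv
  let L : (K.E →₀ ℤ) →ₗ[ℤ] (K.E →₀ ℤ) := Finsupp.linearCombination ℤ fun e => ch (loop e)
  have h1 : L + Q ∘ₗ K.bdry1 = LinearMap.id := by
    ext1 e
    ext1
    simp only [L, Q, bdry1, LinearMap.comp_apply, LinearMap.add_apply, Finsupp.lsingle_apply,
      Finsupp.linearCombination_single, one_smul, map_sub, LinearMap.id_apply, loop, ch_append,
      ch_cons, ch_invP, if_true]
    abel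
  have h2 : z = L z := by
    have := LinearMap.congr_fun h1 z
    simp only [LinearMap.add_apply, LinearMap.comp_apply, hz, map_zero, add_zero,
      LinearMap.id_apply] at this
    exact this.symm
  have h3 : ∀ e, ch (loop e) ∈ LinearMap.range K.bdry := by
    intro e
    obtain ⟨k, hk⟩ := hsc v₀ (loop e) (hloop e)
    obtain ⟨a, ha, -⟩ := hk.chain
    exact ⟨a, by rw [ha, ch_nil, sub_zero]⟩
  rw [h2]
  simp only [L, Finsupp.linearCombination_apply]
  exact Submodule.sum_mem _ fun e _ => Submodule.smul_mem _ _ (h3 e)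

end Cx

end Pool.Agent.H4.RD
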