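import Mathlib

/-!
# Definitions used in the statement

* Property (RD).
* Combinatorial 2-complexes with a free cofinite group action, and their filling functions in
  dimension one.

A structure `Cx G` is a combinatorial 2-complex with vertices `V`, oriented edges `E` and faces
`F`; a face is attached along a nonempty closed edge path.  `G` acts freely, with finitely many
orbits of cells.  The 2-skeleton of any `EG` (simplicial, or CW with combinatorial attaching
maps) of a group `G` of type `F_∞` is such a complex: choose orientations of the edges, and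
orientations and base points of the faces, in `BG`, and lift them.
-/

namespace Pool.Agent.H4.RD

/-! ### Property (RD) -/

/-- Word length of `g` with respect to `S`: the least length of a product of elements of `S` and
of inverses of elements of `S` which equals `g`. -/
noncomputable def wordLen {G : Type} [Group G] (S : Set G) (g : G) : ℕ :=
  sInf {n | ∃ l : List G, l.length = n ∧ (∀ x ∈ l, x ∈ S ∨ x⁻¹ ∈ S) ∧ l.prod = g}

/-- The weighted `ℓ²` norm of an element of the complex group algebra. -/
noncomputable def l2 {G : Type} (w : G → ℝ) (f : MonoidAlgebra ℂ G) : ℝ :=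
  √(∑ g ∈ f.coeff.support, (w g * ‖f.coeff g‖) ^ 2)

/-- Property (RD): `G` is finitely generated and for every finite generating set `S` there are
`C` and `s` such that convolution by `f` has norm at most `C ‖(1 + |·|_S)^s f‖₂` on `ℓ²(G)`,
for every `f` in the group algebra. -/
def HasRD (G : Type) [Group G] : Prop :=
  Group.FG G ∧ ∀ S : Set G, S.Finite → Subgroup.closure S = ⊤ →
    ∃ (C : ℝ) (s : ℕ), ∀ f h : MonoidAlgebra ℂ G,
      l2 (fun _ => 1) (f * h) ≤
        C * l2 (fun g => (1 + (wordLen S g : ℝ)) ^ s) f * l2 (fun _ => 1) h

/-! ### Complexes -/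

/-- `IsPath src tgt v l w`: the list `l` of signed edges is an edge path from `v` to `w`
(`(e, true)` is the edge `e` from `src e` to `tgt e`, and `(e, false)` is its inverse). -/
def IsPath {V E : Type} (src tgt : E → V) : V → List (E × Bool) → V → Prop
  | v, [], w => v = w
  | v, (e, b) :: l, w =>
    (if b then src e else tgt e) = v ∧ IsPath src tgt (if b then tgt e else src e) l w

/-- A combinatorial 2-complex with a free action of `G` that has finitely many orbits of
vertices, edges and faces. -/
structure Cx (G : Type) [Group G] where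
  V : Type
  E : Type
  F : Type
  [actV : MulAction G V]
  [actE : MulAction G E]
  [actF : MulAction G F]
  src : E → V
  tgt : E → V
  att : F → List (E × Bool)
  src_smul : ∀ (g : G) (e : E), src (g • e) = g • src e
  tgt_smul : ∀ (g : G) (e : E), tgt (g • e) = g • tgt e
  att_smul : ∀ (g : G) (f : F), att (g • f) = (att f).map fun p => (g • p.1, p.2)
  att_ne : ∀ f, att f ≠ []
  att_path : ∀ f, ∃ v, IsPath src tgt v (att f) v
  free : ∀ (g : G) (v : V), g • v = v → g = 1
  finV : ∃ s : Finset V, ∀ v, ∃ u ∈ s, ∃ g : G, g • u = v
  finE : ∃ s : Finset E, ∀ v, ∃ u ∈ s, ∃ g : G, g • u = v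
  finF : ∃ s : Finset F, ∀ v, ∃ u ∈ s, ∃ g : G, g • u = v

namespace Cx

variable {G : Type} [Group G] (K : Cx G)

/-- `K.Htp v w l l' k`: the edge paths `l` and `l'` from `v` to `w` differ by a sequence of
insertions and deletions of backtracks and of boundary paths of faces, exactly `k` of which are
insertions or deletions of boundary paths of faces. -/
inductive Htp (v w : K.V) : List (K.E × Bool) → List (K.E × Bool) → ℕ → Prop
  | refl (l : List (K.E × Bool)) (h : IsPath K.src K.tgt v l w) : Htp v w l l 0
  | spur (p q : List (K.E × Bool)) (e : K.E) (b : Bool)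
      (h : IsPath K.src K.tgt v (p ++ (e, b) :: (e, !b) :: q) w) :
      Htp v w (p ++ (e, b) :: (e, !b) :: q) (p ++ q) 0
  | face (p q : List (K.E × Bool)) (f : K.F)
      (h : IsPath K.src K.tgt v (p ++ K.att f ++ q) w) :
      Htp v w (p ++ K.att f ++ q) (p ++ q) 1
  | symm (l l' : List (K.E × Bool)) (k : ℕ) (h : Htp v w l l' k) : Htp v w l' l k
  | trans (l l' l'' : List (K.E × Bool)) (k k' : ℕ) (h : Htp v w l l' k) (h' : Htp v w l' l'' k') :
      Htp v w l l'' (k + k')

/-- `K` is nonempty, connected and simply connected. -/
def SC : Prop :=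
  Nonempty K.V ∧ (∀ v w, ∃ l, IsPath K.src K.tgt v l w) ∧
    ∀ v l, IsPath K.src K.tgt v l v → ∃ k, K.Htp v v l [] k

/-- The cellular 1-chain of an edge path. -/
noncomputable def ch {E : Type} (l : List (E × Bool)) : E →₀ ℤ :=
  (l.map fun p => if p.2 then Finsupp.single p.1 1 else -Finsupp.single p.1 1).sum

/-- The boundary of cellular 2-chains with integer coefficients. -/
noncomputable def bdry : (K.F →₀ ℤ) →ₗ[ℤ] (K.E →₀ ℤ) :=
  Finsupp.linearCombination ℤ fun f => ch (K.att f)

/-- The Dehn function of `K` is bounded by a polynomial: every closed edge path of length `n`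
can be contracted using at most `C (1 + n) ^ d` faces. -/
def PolyDehn : Prop :=
  ∃ C d : ℕ, ∀ v l, IsPath K.src K.tgt v l v → ∃ k ≤ C * (1 + l.length) ^ d, K.Htp v v l [] k

/-- The homological filling function of `K` in dimension 1 is bounded by a polynomial: every
1-boundary `b` bounds a 2-chain supported on at most `C (1 + ‖b‖₁) ^ d` faces. -/
def PolyHom : Prop :=
  ∃ C d : ℕ, ∀ b ∈ LinearMap.range K.bdry, ∃ a, K.bdry a = b ∧
    a.support.card ≤ C * (1 + ∑ e ∈ b.support, (b e).natAbs) ^ d

end Cx

end Pool.Agent.H4.RD
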