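import Pool.Agent.H4.RD.Haagerup
import Pool.Agent.H4.RD.Stmt

/-!
# Property (RD)
-/

namespace Pool.Agent.H4.RD

open scoped ENNReal

/-! ### From `RDw` to `HasRD` -/

section

variable {G : Type} [Group G]

theorem ofReal_l2 (w : G → ℝ) (hw : ∀ g, 0 ≤ w g) (f : MonoidAlgebra ℂ G) :
    nrm (fun g => ENNReal.ofReal (w g * ‖f.coeff g‖)) = ENNReal.ofReal (l2 w f) := by
  unfold nrm l2
  rw [tsum_eq_sum (s := f.coeff.support)]
  · rw [Real.sqrt_eq_rpow, ← ENNReal.ofReal_rpow_of_nonneg (Finset.sum_nonneg fun g _ => sq_nonneg _)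
      (by norm_num)]
    congr 1
    rw [ENNReal.ofReal_sum_of_nonneg fun g _ => sq_nonneg _]
    apply Finset.sum_congr rfl
    intro g _
    rw [ENNReal.ofReal_pow (mul_nonneg (hw g) (norm_nonneg _))]
  · intro g hg
    have : f.coeff g = 0 := by simpa using hg
    show ENNReal.ofReal (w g * ‖f.coeff g‖) ^ 2 = 0
    rw [this]
    simp

theorem norm_conv_le (f h : MonoidAlgebra ℂ G) (g : G) :
    ENNReal.ofReal ‖(f * h).coeff g‖ ≤
      ∑' k, ENNReal.ofReal ‖f.coeff k‖ * ENNReal.ofReal ‖h.coeff (k⁻¹ * g)‖ := by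
  classical
  have e : (f * h).coeff g = ∑ k ∈ f.coeff.support, f.coeff k * h.coeff (k⁻¹ * g) := by
    rw [MonoidAlgebra.coeff_mul_apply_left]
    rfl
  rw [e]
  calc ENNReal.ofReal ‖∑ k ∈ f.coeff.support, f.coeff k * h.coeff (k⁻¹ * g)‖
      ≤ ENNReal.ofReal (∑ k ∈ f.coeff.support, ‖f.coeff k * h.coeff (k⁻¹ * g)‖) :=
        ENNReal.ofReal_le_ofReal (norm_sum_le _ _)
    _ = ∑ k ∈ f.coeff.support, ENNReal.ofReal ‖f.coeff k‖ * ENNReal.ofReal ‖h.coeff (k⁻¹ * g)‖ := by
        rw [ENNReal.ofReal_sum_of_nonneg fun k _ => norm_nonneg _]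
        apply Finset.sum_congr rfl
        intro k _
        rw [norm_mul, ENNReal.ofReal_mul (norm_nonneg _)]
    _ ≤ _ := ENNReal.sum_le_tsum _

theorem nrm_ofReal_ne_top (f : MonoidAlgebra ℂ G) :
    nrm (fun g => ENNReal.ofReal ‖f.coeff g‖) ≠ ∞ := by
  have h := ofReal_l2 (fun _ : G => (1 : ℝ)) (fun _ => zero_le_one) f
  simp only [one_mul] at h
  rw [h]
  exact ENNReal.ofReal_ne_top

theorem RDw.ineq {L : G → ℕ} (hL : RDw L) : ∃ (C : ℝ) (s : ℕ), ∀ f h : MonoidAlgebra ℂ G,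
      l2 (fun _ => 1) (f * h) ≤
        C * l2 (fun g => (1 + (L g : ℝ)) ^ s) f * l2 (fun _ => 1) h := by
  obtain ⟨C, hC, s, hL⟩ := hL
  refine ⟨C.toReal, s, fun f h => ?_⟩
  set a : G → ℝ≥0∞ := fun g => ENNReal.ofReal ‖f.coeff g‖ with ha
  set b : G → ℝ≥0∞ := fun g => ENNReal.ofReal ‖h.coeff g‖ with hb
  set c : G → ℝ≥0∞ := fun g => ENNReal.ofReal ‖(f * h).coeff g‖ with hc
  have h1 : nrm c * nrm c ≤ tri a b c := by
    rw [← sq, nrm_sq]
    calc ∑' g, c g ^ 2 ≤ ∑' g, (∑' k, a k * b (k⁻¹ * g)) * c g := by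
          apply ENNReal.tsum_le_tsum
          intro g
          rw [sq]
          gcongr
          exact norm_conv_le f h g
      _ = ∑' g, ∑' k, a k * b (k⁻¹ * g) * c g := by
          congr 1
          funext g
          rw [ENNReal.tsum_mul_right]
      _ = ∑' k, ∑' g, a k * b (k⁻¹ * g) * c g := ENNReal.tsum_comm
      _ = tri a b c := by
          unfold tri
          congr 1
          funext k
          rw [← (Equiv.mulLeft k).tsum_eq]
          congr 1
          funext g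
          simp
  have h2 := h1.trans (hL a b c)
  have hfin : nrm c ≠ ∞ := nrm_ofReal_ne_top (f * h)
  have h3 : nrm c ≤ C * wnrm L s a * nrm b := by
    by_cases h0 : nrm c = 0
    · rw [h0]; exact zero_le
    · exact (ENNReal.mul_le_mul_iff_left h0 hfin).1 h2
  have e1 : nrm c = ENNReal.ofReal (l2 (fun _ => 1) (f * h)) := by
    rw [← ofReal_l2 _ (fun _ => zero_le_one)]
    simp only [one_mul, hc]
  have e2 : nrm b = ENNReal.ofReal (l2 (fun _ => 1) h) := by
    rw [← ofReal_l2 _ (fun _ => zero_le_one)]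
    simp only [one_mul, hb]
  have e3 : wnrm L s a = ENNReal.ofReal (l2 (fun g => (1 + (L g : ℝ)) ^ s) f) := by
    rw [← ofReal_l2 _ (fun g => by positivity)]
    unfold wnrm
    congr 1
    funext g
    rw [ENNReal.ofReal_mul (by positivity), mul_comm, ha]
    congr 1
    rw [ENNReal.ofReal_pow (by positivity)]
    congr 1
    rw [← ENNReal.ofReal_natCast]
    push_cast
    rfl
  rw [e1, e2, e3] at h3
  have h4 : C * ENNReal.ofReal (l2 (fun g => (1 + (L g : ℝ)) ^ s) f) *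
      ENNReal.ofReal (l2 (fun _ => 1) h) =
      ENNReal.ofReal (C.toReal * l2 (fun g => (1 + (L g : ℝ)) ^ s) f * l2 (fun _ => 1) h) := by
    have h6 : 0 ≤ C.toReal * l2 (fun g => (1 + (L g : ℝ)) ^ s) f :=
      mul_nonneg ENNReal.toReal_nonneg (Real.sqrt_nonneg _)
    rw [ENNReal.ofReal_mul h6, ENNReal.ofReal_mul ENNReal.toReal_nonneg, ENNReal.ofReal_toReal hC]
  rw [h4] at h3
  have h5 : 0 ≤ C.toReal * l2 (fun g => (1 + (L g : ℝ)) ^ s) f * l2 (fun _ => 1) h :=
    mul_nonneg (mul_nonneg ENNReal.toReal_nonneg (Real.sqrt_nonneg _)) (Real.sqrt_nonneg _)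
  exact (ENNReal.ofReal_le_ofReal_iff h5).1 h3

/-- A subadditive function is dominated by word length. -/
theorem le_wordLen (L : G → ℕ) (h1 : L 1 = 0) (hmul : ∀ g h, L (g * h) ≤ L g + L h)
    (S : Set G) (hS : S.Finite) (hgen : Subgroup.closure S = ⊤) :
    ∃ K : ℕ, ∀ g, L g ≤ K * wordLen S g := by
  classical
  let K : ℕ := ∑ x ∈ hS.toFinset, (L x + L x⁻¹)
  have hK : ∀ x, x ∈ S → L x ≤ K ∧ L x⁻¹ ≤ K := by
    intro x hx
    have : L x + L x⁻¹ ≤ K :=
      Finset.single_le_sum (f := fun x => L x + L x⁻¹) (fun i _ => Nat.zero_le _)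
        (hS.mem_toFinset.2 hx)
    omega
  refine ⟨K, fun g => ?_⟩
  have hl : ∀ l : List G, (∀ x ∈ l, x ∈ S ∨ x⁻¹ ∈ S) → L l.prod ≤ K * l.length := by
    intro l
    induction l with
    | nil => intro _; simp [h1]
    | cons x l ih =>
      intro hx
      have hx1 := hx x (by simp)
      have h3 := ih (fun y hy => hx y (by simp [hy]))
      have h4 : L x ≤ K := by
        rcases hx1 with h | h
        · exact (hK x h).1
        · have := (hK _ h).2
          rwa [inv_inv] at this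
      rw [List.prod_cons, List.length_cons]
      have := hmul x l.prod
      nlinarith
  have hne : {n | ∃ l : List G, l.length = n ∧ (∀ x ∈ l, x ∈ S ∨ x⁻¹ ∈ S) ∧ l.prod = g}.Nonempty := by
    have hg : g ∈ Subgroup.closure S := by rw [hgen]; trivial
    rw [← Subgroup.mem_toSubmonoid, Subgroup.closure_toSubmonoid] at hg
    obtain ⟨l, hl1, hl2⟩ := Submonoid.exists_list_of_mem_closure hg
    refine ⟨l.length, l, rfl, fun x hx => ?_, hl2⟩
    rcases hl1 x hx with h | h
    · exact Or.inl h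
    · exact Or.inr (by simpa using h)
  obtain ⟨l, e1, e2, e3⟩ := Nat.sInf_mem hne
  have := hl l e2
  rw [e3, e1] at this
  exact this

/-- Rapid decay for a subadditive function implies property (RD). -/
theorem hasRD_of {L : G → ℕ} (hfg : Group.FG G) (hL : RDw L) (h1 : L 1 = 0)
    (hmul : ∀ g h, L (g * h) ≤ L g + L h) : HasRD G := by
  refine ⟨hfg, fun S hS hgen => ?_⟩
  obtain ⟨K, hK⟩ := le_wordLen L h1 hmul S hS hgen
  exact (hL.mono K hK).ineq

end

end Pool.Agent.H4.RD
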