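import Pool.Agent.H4.RD.Grp

/-!
# Exponential distortion, and the lower bound for fillings in the Cayley complex
-/

namespace Pool.Agent.H4.RD

open SemidirectProduct Cx

/-! ### Distortion -/

/-- The element `h_n` of the free group of rank three. -/
def hh : ℕ → F3
  | 0 => 1
  | n + 1 => FreeGroup.of 1 ^ 2 ^ n * FreeGroup.of 2 ^ 2 ^ n *
      (FreeGroup.of 0 * hh n * (FreeGroup.of 0)⁻¹)

/-- The element `v_n = h_n⁻¹ W₀ h_n`. -/
def vv (n : ℕ) : F3 := (hh n)⁻¹ * FreeGroup.of 1 * hh n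

/-- `τⁿ x τ⁻ⁿ`. -/
def conjx (n : ℕ) : Q2 := inr tt ^ n * inr xx * (inr tt ^ n)⁻¹

theorem lift_hGen (i : Fin 3) : FreeGroup.lift hGen (FreeGroup.of i) = hGen i :=
  FreeGroup.lift_apply_of

theorem comm_xy : Commute (inr xx : Q2) yy := yy_x

theorem comm_x'y : Commute (inr tt * inr xx * (inr tt)⁻¹ : Q2) yy := by
  have h := yy_x'
  rw [map_mul, map_mul, map_inv] at h
  exact h

theorem comm_w0_x : Commute w0 (inr xx : Q2) := by
  unfold w0
  exact ((Commute.refl _).mul_left (Commute.refl _)).mul_left comm_xy.symm.inv_left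

theorem pow_split (k : ℕ) : (inr xx ^ (2 * k) : Q2) =
    w0 ^ k * w1 ^ k * (inr tt * inr xx ^ k * (inr tt)⁻¹) := by
  have h0 : w0 ^ k = inr xx ^ (2 * k) * (yy ^ k)⁻¹ := by
    unfold w0
    have hc : Commute (inr xx * inr xx : Q2) yy⁻¹ := (comm_xy.mul_left comm_xy).inv_right
    rw [hc.mul_pow, ← sq, ← pow_mul, inv_pow]
  have h1 : w1 = yy * (inr tt * inr xx * (inr tt)⁻¹)⁻¹ := by
    unfold w1
    group
  have h2 : w1 ^ k = yy ^ k * (inr tt * inr xx ^ k * (inr tt)⁻¹)⁻¹ := by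
    rw [h1, (comm_x'y.symm.inv_right).mul_pow, inv_pow, conj_pow]
  rw [h0, h2]
  group

theorem lift_hh (n : ℕ) : FreeGroup.lift hGen (hh n) = inr xx ^ 2 ^ n * (conjx n)⁻¹ := by
  induction n with
  | zero => simp [hh, conjx]
  | succ n ih =>
    rw [hh, map_mul, map_mul, map_mul, map_mul, map_pow, map_pow, map_inv, lift_hGen, lift_hGen,
      lift_hGen, ih]
    show w0 ^ 2 ^ n * w1 ^ 2 ^ n * (inr tt * (inr xx ^ 2 ^ n * (conjx n)⁻¹) * (inr tt)⁻¹) = _
    have h1 : (inr xx ^ 2 ^ (n + 1) : Q2) =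
        w0 ^ 2 ^ n * w1 ^ 2 ^ n * (inr tt * inr xx ^ 2 ^ n * (inr tt)⁻¹) := by
      rw [← pow_split]
      congr 1
      rw [pow_succ]
      ring
    rw [h1]
    have h2 : conjx (n + 1) = inr tt * conjx n * (inr tt)⁻¹ := by
      unfold conjx
      rw [pow_succ']
      group
    rw [h2]
    group

theorem lift_vv (n : ℕ) : FreeGroup.lift hGen (vv n) = conjx n * w0 * (conjx n)⁻¹ := by
  unfold vv
  rw [map_mul, map_mul, map_inv, lift_hh, lift_hGen]
  show (inr xx ^ 2 ^ n * (conjx n)⁻¹)⁻¹ * w0 * (inr xx ^ 2 ^ n * (conjx n)⁻¹) = _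
  have h := (comm_w0_x.pow_right (2 ^ n)).eq
  have h2 : (inr xx ^ 2 ^ n : Q2)⁻¹ * w0 * inr xx ^ 2 ^ n = w0 := by
    rw [mul_assoc, h]
    group
  calc (inr xx ^ 2 ^ n * (conjx n)⁻¹)⁻¹ * w0 * (inr xx ^ 2 ^ n * (conjx n)⁻¹)
      = conjx n * ((inr xx ^ 2 ^ n : Q2)⁻¹ * w0 * inr xx ^ 2 ^ n) * (conjx n)⁻¹ := by group
    _ = _ := by rw [h2]

/-! ### The affine representation -/

/-- `z ↦ z + 1`. -/
def shiftP : Equiv.Perm ℚ := ⟨fun z => z + 1, fun z => z - 1, fun z => by ring, fun z => by ring⟩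

/-- `z ↦ z / 2`. -/
def halfP : Equiv.Perm ℚ := ⟨fun z => z / 2, fun z => z * 2, fun z => by ring, fun z => by ring⟩

/-- The affine representation `T ↦ id`, `W₀ ↦ (z ↦ z + 1)`, `W₁ ↦ (z ↦ z / 2)`. -/
def aff : F3 →* Equiv.Perm ℚ := FreeGroup.lift ![1, shiftP, halfP]

theorem aff_0 : aff (FreeGroup.of 0) = 1 := by
  simp only [aff, FreeGroup.lift_apply_of]; rfl

theorem aff_1 : aff (FreeGroup.of 1) = shiftP := by
  simp only [aff, FreeGroup.lift_apply_of]; rfl

theorem aff_2 : aff (FreeGroup.of 2) = halfP := by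
  simp only [aff, FreeGroup.lift_apply_of]; rfl

theorem aff_bound (l : List (Fin 3 × Bool)) (z : ℚ) :
    |aff (FreeGroup.mk l) z| + 1 ≤ 2 ^ l.length * (|z| + 1) := by
  induction l with
  | nil =>
    have : aff (FreeGroup.mk []) = 1 := map_one aff
    rw [this]
    simp
  | cons p l ih =>
    obtain ⟨i, b⟩ := p
    have e : (FreeGroup.mk ((i, b) :: l) : F3) = FreeGroup.mk [(i, b)] * FreeGroup.mk l := by
      rw [FreeGroup.mul_mk]; rfl
    rw [e, map_mul, Equiv.Perm.mul_apply]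
    set w := aff (FreeGroup.mk l) z with hw
    have key : |aff (FreeGroup.mk [(i, b)]) w| + 1 ≤ 2 * (|w| + 1) := by
      have h0 := abs_nonneg w
      have e1 : ∀ i : Fin 3, (FreeGroup.mk [(i, true)] : F3) = FreeGroup.of i := fun i => rfl
      have e2 : ∀ i : Fin 3, (FreeGroup.mk [(i, false)] : F3) = (FreeGroup.of i)⁻¹ := fun i => rfl
      fin_cases i <;> cases b
      · show |aff (FreeGroup.mk [(0, false)]) w| + 1 ≤ 2 * (|w| + 1)
        rw [e2, map_inv, aff_0, inv_one]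
        simp only [Equiv.Perm.coe_one, id_eq]
        linarith
      · show |aff (FreeGroup.mk [(0, true)]) w| + 1 ≤ 2 * (|w| + 1)
        rw [e1, aff_0]
        simp only [Equiv.Perm.coe_one, id_eq]
        linarith
      · show |aff (FreeGroup.mk [(1, false)]) w| + 1 ≤ 2 * (|w| + 1)
        rw [e2, map_inv, aff_1]
        show |w - 1| + 1 ≤ 2 * (|w| + 1)
        have := abs_sub w 1
        simp only [abs_one] at this
        linarith
      · show |aff (FreeGroup.mk [(1, true)]) w| + 1 ≤ 2 * (|w| + 1)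
        rw [e1, aff_1]
        show |w + 1| + 1 ≤ 2 * (|w| + 1)
        have := abs_add_le w 1
        simp only [abs_one] at this
        linarith
      · show |aff (FreeGroup.mk [(2, false)]) w| + 1 ≤ 2 * (|w| + 1)
        rw [e2, map_inv, aff_2]
        show |w * 2| + 1 ≤ 2 * (|w| + 1)
        rw [abs_mul]
        norm_num
        linarith
      · show |aff (FreeGroup.mk [(2, true)]) w| + 1 ≤ 2 * (|w| + 1)
        rw [e1, aff_2]
        show |w / 2| + 1 ≤ 2 * (|w| + 1)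
        rw [abs_div]
        norm_num
        linarith
    calc |aff (FreeGroup.mk [(i, b)]) w| + 1 ≤ 2 * (|w| + 1) := key
      _ ≤ 2 * (2 ^ l.length * (|z| + 1)) := by linarith
      _ = 2 ^ (l.length + 1) * (|z| + 1) := by ring
      _ = _ := by rw [List.length_cons]

theorem shift_pow (k : ℕ) (z : ℚ) : (shiftP ^ k) z = z + k := by
  induction k generalizing z with
  | zero => simp
  | succ k ih =>
    rw [pow_succ, Equiv.Perm.mul_apply, ih]
    show z + 1 + k = _
    push_cast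
    ring

theorem half_pow (k : ℕ) (z : ℚ) : (halfP ^ k) z = z / 2 ^ k := by
  induction k generalizing z with
  | zero => simp
  | succ k ih =>
    rw [pow_succ, Equiv.Perm.mul_apply, ih]
    show z / 2 / 2 ^ k = _
    rw [pow_succ]
    field_simp

theorem aff_hh (n : ℕ) : ∃ c : ℚ, ∀ z, aff (hh n) z = z / 2 ^ (2 ^ n - 1) + c := by
  induction n with
  | zero => exact ⟨0, fun z => by simp [hh]⟩
  | succ n ih =>
    obtain ⟨c, hc⟩ := ih
    refine ⟨c / 2 ^ 2 ^ n + 2 ^ n, fun z => ?_⟩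
    rw [hh, map_mul, map_mul, map_mul, map_mul, map_pow, map_pow, map_inv, aff_0, aff_1, aff_2]
    simp only [Equiv.Perm.mul_apply, inv_one, Equiv.Perm.coe_one, id_eq]
    rw [hc, shift_pow, half_pow]
    have h1 : 2 ^ (n + 1) - 1 = (2 ^ n - 1) + 2 ^ n := by
      have := Nat.one_le_two_pow (n := n)
      rw [pow_succ]
      omega
    rw [h1, pow_add, add_div, div_div]
    push_cast
    ring

theorem aff_vv (n : ℕ) (z : ℚ) : aff (vv n) z = z + 2 ^ (2 ^ n - 1) := by
  obtain ⟨c, hc⟩ := aff_hh n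
  unfold vv
  rw [map_mul, map_mul, map_inv, aff_1]
  simp only [Equiv.Perm.mul_apply]
  rw [Equiv.Perm.inv_eq_iff_eq, hc, hc]
  show z / 2 ^ (2 ^ n - 1) + c + 1 = _
  field_simp
  ring

theorem norm_vv (n : ℕ) : 2 ^ n ≤ (vv n).norm := by
  have h := aff_bound (vv n).toWord 0
  rw [FreeGroup.mk_toWord, aff_vv] at h
  simp only [zero_add, abs_zero, mul_one] at h
  rw [abs_of_pos (by positivity)] at h
  have h2 : (2 : ℚ) ^ (2 ^ n - 1) < 2 ^ (vv n).toWord.length := by linarith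
  have h3 : 2 ^ n - 1 < (vv n).toWord.length :=
    (pow_lt_pow_iff_right₀ (by norm_num : (1 : ℚ) < 2)).1 h2
  have : (vv n).norm = (vv n).toWord.length := rfl
  rw [this]
  have := Nat.one_le_two_pow (n := n)
  omega

end Pool.Agent.H4.RD
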