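import Pool.Agent.H4.RD.Def

/-!
# The group `⟨Q, s | [s, H] = 1⟩` as a semidirect product of a free group and `Q`
-/

namespace Pool.Agent.H4.RD

open SemidirectProduct

/-- A permutation of the basis acts on the free group. -/
def permAut (α : Type) : Equiv.Perm α →* MulAut (FreeGroup α) where
  toFun σ := FreeGroup.freeGroupCongr σ
  map_one' := by
    ext x
    show FreeGroup.map _ x = x
    exact FreeGroup.map.id x
  map_mul' σ τ := by
    ext x
    show FreeGroup.map (fun y => σ (τ y)) x = FreeGroup.map σ (FreeGroup.map τ x)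
    rw [FreeGroup.map.comp]
    rfl

variable {Q : Type} [Group Q]

/-- The action of `Q` on the free group with basis `Q ⧸ H`. -/
def cosetAct (H : Subgroup Q) : Q →* MulAut (FreeGroup (Q ⧸ H)) :=
  (permAut (Q ⧸ H)).comp (MulAction.toPermHom Q (Q ⧸ H))

/-- The extension of `Q` by a stable letter that commutes with `H`. -/
abbrev Ext (H : Subgroup Q) : Type := FreeGroup (Q ⧸ H) ⋊[cosetAct H] Q

variable (H : Subgroup Q)

theorem cosetAct_of (q : Q) (c : Q ⧸ H) :
    cosetAct H q (FreeGroup.of c) = FreeGroup.of (q • c) := by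
  show FreeGroup.map _ (FreeGroup.of c) = _
  rw [FreeGroup.map.of]
  rfl

/-- The stable letter. -/
def Ext.s : Ext H := inl (FreeGroup.of (QuotientGroup.mk 1))

theorem Ext.conj_s (q : Q) :
    (inr q * Ext.s H * (inr q)⁻¹ : Ext H) = inl (FreeGroup.of (QuotientGroup.mk q)) := by
  have h := SemidirectProduct.inl_aut (φ := cosetAct H) q (FreeGroup.of (QuotientGroup.mk 1))
  rw [cosetAct_of, map_inv] at h
  unfold Ext.s
  rw [← h]
  congr 2
  show (q • (QuotientGroup.mk 1 : Q ⧸ H)) = _
  rw [MulAction.Quotient.smul_mk]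
  simp

theorem Ext.comm_s {h : Q} (hh : h ∈ H) : (inr h * Ext.s H : Ext H) = Ext.s H * inr h := by
  have h1 := Ext.conj_s H h
  have h2 : (QuotientGroup.mk h : Q ⧸ H) = QuotientGroup.mk 1 := by
    rw [QuotientGroup.eq]
    simpa using H.inv_mem hh
  rw [h2] at h1
  rw [mul_inv_eq_iff_eq_mul] at h1
  exact h1

variable {H} {Γ : Type} [Group Γ]

/-- The universal property. -/
def Ext.lift (f : Q →* Γ) (s : Γ) (hs : ∀ h ∈ H, f h * s = s * f h) : Ext H →* Γ :=
  SemidirectProduct.lift
    (FreeGroup.lift fun c : Q ⧸ H => Quotient.liftOn' c (fun q => f q * s * (f q)⁻¹) (by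
      intro a b hab
      have h1 : a⁻¹ * b ∈ H := QuotientGroup.leftRel_apply.1 hab
      have h2 := hs _ h1
      show f a * s * (f a)⁻¹ = f b * s * (f b)⁻¹
      rw [map_mul, map_inv] at h2
      have h3 : f b = f a * ((f a)⁻¹ * f b) := by group
      rw [eq_mul_inv_iff_mul_eq]
      calc f a * s * (f a)⁻¹ * f b = f a * (s * ((f a)⁻¹ * f b)) := by group
        _ = f a * (((f a)⁻¹ * f b) * s) := by rw [h2]
        _ = f b * s := by group)) f (by
    intro q
    apply FreeGroup.ext_hom
    intro c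
    induction c using QuotientGroup.induction_on with
    | H a =>
      show FreeGroup.lift _ (cosetAct H q (FreeGroup.of _)) = _
      rw [cosetAct_of, FreeGroup.lift_apply_of]
      show f (q * a) * s * (f (q * a))⁻¹ = f q * FreeGroup.lift _ (FreeGroup.of _) * (f q)⁻¹
      rw [FreeGroup.lift_apply_of]
      show f (q * a) * s * (f (q * a))⁻¹ = f q * (f a * s * (f a)⁻¹) * (f q)⁻¹
      rw [map_mul]
      group)

theorem Ext.lift_inr (f : Q →* Γ) (s : Γ) (hs : ∀ h ∈ H, f h * s = s * f h) (q : Q) :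
    Ext.lift f s hs (inr q) = f q := by
  unfold Ext.lift
  rw [SemidirectProduct.lift_inr]

theorem Ext.lift_s (f : Q →* Γ) (s : Γ) (hs : ∀ h ∈ H, f h * s = s * f h) :
    Ext.lift f s hs (Ext.s H) = s := by
  unfold Ext.lift Ext.s
  rw [SemidirectProduct.lift_inl, FreeGroup.lift_apply_of]
  show f 1 * s * (f 1)⁻¹ = s
  simp

/-- The extension is generated by `Q` and the stable letter. -/
theorem Ext.closure_eq_top (S : Subgroup (Ext H)) (h1 : ∀ q, (inr q : Ext H) ∈ S)
    (h2 : Ext.s H ∈ S) : S = ⊤ := by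
  rw [eq_top_iff]
  intro g _
  rw [← SemidirectProduct.inl_left_mul_inr_right g]
  refine S.mul_mem ?_ (h1 _)
  have : ∀ u : FreeGroup (Q ⧸ H), (inl u : Ext H) ∈ S := by
    intro u
    have hle : (⊤ : Subgroup (FreeGroup (Q ⧸ H))) ≤ S.comap inl := by
      rw [← FreeGroup.closure_range_of, Subgroup.closure_le]
      rintro _ ⟨c, rfl⟩
      induction c using QuotientGroup.induction_on with
      | H a =>
        show inl (FreeGroup.of (QuotientGroup.mk a : Q ⧸ H)) ∈ S
        rw [← Ext.conj_s]
        exact S.mul_mem (S.mul_mem (h1 a) h2) (S.inv_mem (h1 a))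
    exact hle trivial
  exact this _

/-! ### Lengths -/

theorem norm_cosetAct [DecidableEq (Q ⧸ H)] (q : Q) (u : FreeGroup (Q ⧸ H)) :
    (cosetAct H q u).norm ≤ u.norm := by
  show (FreeGroup.map _ u).norm ≤ _
  conv_lhs => rw [← FreeGroup.mk_toWord (x := u)]
  rw [FreeGroup.map.mk]
  refine FreeGroup.norm_mk_le.trans ?_
  rw [List.length_map]
  rfl

open Classical in
/-- The length function of the extension. -/
noncomputable def Ext.len (L : Q → ℕ) (g : Ext H) : ℕ := g.left.norm + L g.right

theorem Ext.len_one {L : Q → ℕ} (h : L 1 = 0) : Ext.len L (1 : Ext H) = 0 := by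
  unfold Ext.len
  simp [h]

theorem Ext.len_mul {L : Q → ℕ} (h : ∀ a b, L (a * b) ≤ L a + L b) (g g' : Ext H) :
    Ext.len L (g * g') ≤ Ext.len L g + Ext.len L g' := by
  classical
  unfold Ext.len
  rw [SemidirectProduct.mul_left, SemidirectProduct.mul_right]
  have h1 := FreeGroup.norm_mul_le g.left (cosetAct H g.right g'.left)
  have h2 := norm_cosetAct g.right g'.left
  have h3 := h g.right g'.right
  have e1 : ∀ u : FreeGroup (Q ⧸ H), @FreeGroup.norm _ (fun a b => Classical.propDecidable (a = b)) u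
    = FreeGroup.norm u := fun u => by congr
  omega

theorem Ext.RDw_len {L : Q → ℕ} (h : RDw L) : RDw (Ext.len L : Ext H → ℕ) := by
  classical
  have := RDw.semidirect (φ := cosetAct H) (RDw_freeGroup (α := Q ⧸ H)) h
  unfold Ext.len
  convert this using 3

end Pool.Agent.H4.RD
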