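import Pool.Agent.H4.RD.Dist

/-!
# The main theorem
-/

namespace Pool.Agent.H4.RD

open SemidirectProduct Cx

/-! ### Words -/

/-- The generators of `H` in `Δ`. -/
def hD : Fin 3 → Delta := fun i => inr (hGen i)

/-- The generators of `P` in `Δ`. -/
def pD : Fin 2 → Delta := fun i => inr (inr (pGen i))

theorem hD_injective : Function.Injective (FreeGroup.lift hD) := by
  have h : FreeGroup.lift hD = (inr : Q2 →* Delta).comp (FreeGroup.lift hGen) := by
    apply FreeGroup.ext_hom
    intro i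
    rw [MonoidHom.comp_apply, FreeGroup.lift_apply_of, FreeGroup.lift_apply_of]
    rfl
  rw [h]
  exact SemidirectProduct.inr_injective.comp hGen_injective

theorem lift_hD (u : F3) : FreeGroup.lift hD u = inr (FreeGroup.lift hGen u) := by
  have h : FreeGroup.lift hD = (inr : Q2 →* Delta).comp (FreeGroup.lift hGen) := by
    apply FreeGroup.ext_hom
    intro i
    rw [MonoidHom.comp_apply, FreeGroup.lift_apply_of, FreeGroup.lift_apply_of]
    rfl
  rw [h]
  rfl

theorem pD_injective : Function.Injective (FreeGroup.lift pD) := by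
  have h : FreeGroup.lift pD =
      ((inr : Q2 →* Delta).comp (inr : F2 →* Q2)).comp (FreeGroup.lift pGen) := by
    apply FreeGroup.ext_hom
    intro i
    rw [MonoidHom.comp_apply, FreeGroup.lift_apply_of, FreeGroup.lift_apply_of]
    rfl
  rw [h]
  exact (SemidirectProduct.inr_injective.comp SemidirectProduct.inr_injective).comp pGen_injective

theorem ev_h0 : ev gen4 [(1, true)] = hD 0 := by
  rw [ev_cons_true, ev_nil, mul_one]; rfl

theorem ev_h1 : ev gen4 [(0, true), (0, true), (2, false)] = hD 1 := by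
  rw [ev_cons_true, ev_cons_true, ev_cons_false, ev_nil, mul_one]
  show (inr (inr xx) * (inr (inr xx) * (inr yy)⁻¹) : Delta) = inr w0
  unfold w0
  rw [map_mul, map_mul, map_inv, mul_assoc]

theorem ev_h2 : ev gen4 [(2, true), (1, true), (0, false), (1, false)] = hD 2 := by
  rw [ev_cons_true, ev_cons_true, ev_cons_false, ev_cons_false, ev_nil, mul_one]
  show (inr yy * (inr (inr tt) * ((inr (inr xx))⁻¹ * (inr (inr tt))⁻¹)) : Delta) = inr w1
  unfold w1
  rw [map_mul, map_mul, map_mul, map_inv, map_inv, mul_assoc, mul_assoc]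

theorem ev_p0 : ev gen4 [(0, true)] = pD 0 := by
  rw [ev_cons_true, ev_nil, mul_one]; rfl

theorem ev_p1 : ev gen4 [(1, true), (0, true), (1, false)] = pD 1 := by
  rw [ev_cons_true, ev_cons_true, ev_cons_false, ev_nil, mul_one]
  show (inr (inr tt) * (inr (inr xx) * (inr (inr tt))⁻¹) : Delta) = inr (inr (tt * xx * tt⁻¹))
  rw [map_mul, map_mul, map_mul, map_mul, map_inv, map_inv, mul_assoc]

/-- The vector `(1, 1, τ, w₀, w₁)`. -/
def hv : Fin 5 → Delta := ![1, 1, hD 0, hD 1, hD 2]

/-- The vector `(x, τxτ⁻¹, 1, 1, 1)`. -/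
def pv : Fin 5 → Delta := ![pD 0, pD 1, 1, 1, 1]

theorem comp3 (g : Delta) (r : Fin 5) : comp 3 (ch (wpath gen4 g (rel5 r))) =
    Finsupp.single g 1 - Finsupp.single (g * hv r) 1 := by
  fin_cases r
  · show comp 3 (ch (wpath gen4 g [(2, true), (0, true), (2, false), (0, false)])) =
      Finsupp.single g 1 - Finsupp.single (g * 1) 1
    rw [comp_ch_notMem gen4 3 g _ (by decide), mul_one, sub_self]
  · show comp 3 (ch (wpath gen4 g [(2, true), (1, true), (0, true), (1, false), (2, false),
      (1, true), (0, false), (1, false)])) = Finsupp.single g 1 - Finsupp.single (g * 1) 1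
    rw [comp_ch_notMem gen4 3 g _ (by decide), mul_one, sub_self]
  · have h := comp_commutator gen4 3 g [(1, true)] [(1, false)] (by decide) (by decide) (by
      rw [ev_h0]
      exact (comm_s (hGen_mem 0)).symm)
    rw [ev_h0] at h
    exact h
  · have h := comp_commutator gen4 3 g [(0, true), (0, true), (2, false)]
      [(2, true), (0, false), (0, false)] (by decide) (by decide) (by
      rw [ev_h1]
      exact (comm_s (hGen_mem 1)).symm)
    rw [ev_h1] at h
    exact h
  · have h := comp_commutator gen4 3 g [(2, true), (1, true), (0, false), (1, false)]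
      [(1, true), (0, true), (1, false), (2, false)] (by decide) (by decide) (by
      rw [ev_h2]
      exact (comm_s (hGen_mem 2)).symm)
    rw [ev_h2] at h
    exact h

theorem comp2_0 (g : Delta) : comp 2 (ch (wpath gen4 g (rel5 0))) =
    Finsupp.single g 1 - Finsupp.single (g * pD 0) 1 := by
  have h := comp_commutator gen4 2 g [(0, true)] [(0, false)] (by decide) (by decide) (by
    rw [ev_p0]
    show (inr yy * inr (inr xx) : Delta) = inr (inr xx) * inr yy
    rw [← map_mul, ← map_mul, yy_x])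
  rw [ev_p0] at h
  exact h

theorem comp2_1 (g : Delta) : comp 2 (ch (wpath gen4 g (rel5 1))) =
    Finsupp.single g 1 - Finsupp.single (g * pD 1) 1 := by
  have h := comp_commutator gen4 2 g [(1, true), (0, true), (1, false)]
    [(1, true), (0, false), (1, false)] (by decide) (by decide) (by
    rw [ev_p1]
    show (inr yy * inr (inr (tt * xx * tt⁻¹)) : Delta) = inr (inr (tt * xx * tt⁻¹)) * inr yy
    rw [← map_mul, ← map_mul, yy_x'])
  rw [ev_p1] at h
  exact h

/-- The boundary map of the Cayley complex is injective. -/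
theorem bdry_injective (a : Delta × Fin 5 →₀ ℤ) (ha : Finsupp.linearCombination ℤ
    (fun f : Delta × Fin 5 => ch (wpath gen4 f.1 (rel5 f.2))) a = 0) : a = 0 := by
  -- the components in the direction of `s`
  have h3 : Finsupp.linearCombination ℤ (fun p : Delta × Fin 5 =>
      (Finsupp.single p.1 1 - Finsupp.single (p.1 * hv p.2) 1 : Delta →₀ ℤ)) a = 0 := by
    have e : Finsupp.linearCombination ℤ (fun p : Delta × Fin 5 =>
      (Finsupp.single p.1 1 - Finsupp.single (p.1 * hv p.2) 1 : Delta →₀ ℤ)) =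
      comp 3 ∘ₗ Finsupp.linearCombination ℤ
        (fun f : Delta × Fin 5 => ch (wpath gen4 f.1 (rel5 f.2))) := by
      apply Finsupp.lhom_ext'
      intro p
      apply LinearMap.ext_ring
      simp only [LinearMap.comp_apply, Finsupp.lsingle_apply, Finsupp.linearCombination_single,
        one_smul, comp3]
    rw [e, LinearMap.comp_apply, ha, map_zero]
  have h4 := free_inj hD (κ := Fin 5) hD_injective ![2, 3, 4] (by decide) hv
    (by intro i; fin_cases i <;> rfl)
    (by
      intro k hk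
      fin_cases k
      · rfl
      · rfl
      · exact absurd ⟨0, rfl⟩ hk
      · exact absurd ⟨1, rfl⟩ hk
      · exact absurd ⟨2, rfl⟩ hk) a h3
  have z2 : ∀ g, a (g, 2) = 0 := fun g => h4 g 0
  have z3 : ∀ g, a (g, 3) = 0 := fun g => h4 g 1
  have z4 : ∀ g, a (g, 4) = 0 := fun g => h4 g 2
  -- the components in the direction of `y`
  have h5 : Finsupp.linearCombination ℤ (fun p : Delta × Fin 5 =>
      (Finsupp.single p.1 1 - Finsupp.single (p.1 * pv p.2) 1 : Delta →₀ ℤ)) a = 0 := by
    have e := congrArg (comp (2 : Fin 4)) ha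
    rw [map_zero, Finsupp.linearCombination_apply, Finsupp.sum, map_sum] at e
    rw [Finsupp.linearCombination_apply, Finsupp.sum, ← e]
    apply Finset.sum_congr rfl
    rintro ⟨g, r⟩ hp
    rw [Finsupp.mem_support_iff] at hp
    rw [map_smul]
    congr 1
    fin_cases r
    · exact (comp2_0 g).symm
    · exact (comp2_1 g).symm
    · exact absurd (z2 g) hp
    · exact absurd (z3 g) hp
    · exact absurd (z4 g) hp
  have h6 := free_inj pD (κ := Fin 5) pD_injective ![0, 1] (by decide) pv
    (by intro i; fin_cases i <;> rfl)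
    (by
      intro k hk
      fin_cases k
      · exact absurd ⟨0, rfl⟩ hk
      · exact absurd ⟨1, rfl⟩ hk
      · rfl
      · rfl
      · rfl) a h5
  have z0 : ∀ g, a (g, 0) = 0 := fun g => h6 g 0
  have z1 : ∀ g, a (g, 1) = 0 := fun g => h6 g 1
  ext ⟨g, r⟩
  fin_cases r
  · exact z0 g
  · exact z1 g
  · exact z2 g
  · exact z3 g
  · exact z4 g

/-! ### The words `[s, v_n]` -/

/-- The word `τⁿxτ⁻ⁿ x²y⁻¹ τⁿx⁻¹τ⁻ⁿ`. -/
def uw (n : ℕ) : List (Fin 4 × Bool) :=
  List.replicate n (1, true) ++ ((0, true) :: (List.replicate n (1, false) ++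
    ((0, true) :: (0, true) :: (2, false) :: (List.replicate n (1, true) ++
      ((0, false) :: List.replicate n (1, false))))))

/-- The word `[s, uw n]`. -/
def ww (n : ℕ) : List (Fin 4 × Bool) :=
  (3, true) :: uw n ++ (3, false) :: FreeGroup.invRev (uw n)

theorem ev_rep_true (n : ℕ) : ev gen4 (List.replicate n (1, true)) = inr (inr tt) ^ n := by
  induction n with
  | zero => rw [List.replicate_zero, ev_nil, pow_zero]
  | succ n ih =>
    rw [List.replicate_succ, ev_cons_true, ih, pow_succ']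
    rfl

theorem ev_rep_false (n : ℕ) : ev gen4 (List.replicate n (1, false)) = (inr (inr tt) ^ n)⁻¹ := by
  induction n with
  | zero => rw [List.replicate_zero, ev_nil, pow_zero, inv_one]
  | succ n ih =>
    rw [List.replicate_succ, ev_cons_false, ih, pow_succ, mul_inv_rev]
    rfl

theorem ev_uw (n : ℕ) : ev gen4 (uw n) = FreeGroup.lift hD (vv n) := by
  rw [lift_hD, lift_vv]
  unfold uw conjx w0
  simp only [ev_append, ev_cons_true, ev_cons_false, ev_rep_true, ev_rep_false]
  show inr (inr tt) ^ n * (inr (inr xx) * ((inr (inr tt) ^ n)⁻¹ * (inr (inr xx) * (inr (inr xx) *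
    ((inr yy)⁻¹ * (inr (inr tt) ^ n * ((inr (inr xx))⁻¹ * (inr (inr tt) ^ n)⁻¹))))))) = _
  simp only [map_mul, map_inv, map_pow]
  group

theorem vv_mem (n : ℕ) : FreeGroup.lift hGen (vv n) ∈ subH := by
  have : (FreeGroup.lift hGen).range ≤ subH := by
    rw [MonoidHom.range_eq_map, ← FreeGroup.closure_range_of, MonoidHom.map_closure,
      Subgroup.closure_le]
    rintro _ ⟨_, ⟨i, rfl⟩, rfl⟩
    show FreeGroup.lift hGen (FreeGroup.of i) ∈ subH
    rw [lift_hGen]
    exact hGen_mem i
  exact this ⟨vv n, rfl⟩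

theorem comm_uw (n : ℕ) : gen4 3 * ev gen4 (uw n) = ev gen4 (uw n) * gen4 3 := by
  rw [ev_uw, lift_hD]
  exact (comm_s (vv_mem n)).symm

theorem ev_ww (n : ℕ) : ev gen4 (ww n) = 1 := by
  unfold ww
  rw [List.cons_append, ev_cons_true, ev_append, ev_cons_false]
  have h1 : ev gen4 (FreeGroup.invRev (uw n)) = (ev gen4 (uw n))⁻¹ := by
    unfold ev
    rw [← FreeGroup.inv_mk, map_inv]
  rw [h1, ← mul_assoc, comm_uw]
  group

theorem uw_letters (n : ℕ) : ∀ p ∈ uw n, p.1 ≠ 3 := by
  intro p hp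
  unfold uw at hp
  simp only [List.mem_append, List.mem_cons, List.mem_replicate] at hp
  rcases hp with ⟨_, h⟩ | h | ⟨_, h⟩ | h | h | h | ⟨_, h⟩ | h | ⟨_, h⟩ <;> rw [h] <;> decide

theorem uw_letters' (n : ℕ) : ∀ p ∈ FreeGroup.invRev (uw n), p.1 ≠ 3 := by
  intro p hp
  unfold FreeGroup.invRev at hp
  rw [List.mem_reverse, List.mem_map] at hp
  obtain ⟨q, hq, rfl⟩ := hp
  exact uw_letters n q hq

theorem ww_length (n : ℕ) : (ww n).length = 8 * n + 12 := by
  unfold ww uw
  simp [FreeGroup.invRev_length]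
  ring

/-- The length of an element of `H` with respect to the free basis, and `0` off `H`. -/
noncomputable def ell (g : Delta) : ℕ :=
  open Classical in if h : ∃ u : F3, FreeGroup.lift hD u = g then h.choose.norm else 0

theorem ell_lift (u : F3) : ell (FreeGroup.lift hD u) = u.norm := by
  have h : ∃ v : F3, FreeGroup.lift hD v = FreeGroup.lift hD u := ⟨u, rfl⟩
  unfold ell
  rw [dif_pos h]
  rw [hD_injective h.choose_spec]

theorem ell_mul (g : Delta) (c : F3) (hc : c.norm ≤ 1) :
    ell (g * FreeGroup.lift hD c) ≤ ell g + 1 := by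
  by_cases hg : ∃ u : F3, FreeGroup.lift hD u = g
  · obtain ⟨u, rfl⟩ := hg
    rw [← map_mul, ell_lift, ell_lift]
    exact (FreeGroup.norm_mul_le u c).trans (by omega)
  · have : ¬ ∃ u : F3, FreeGroup.lift hD u = g * FreeGroup.lift hD c := by
      rintro ⟨u, hu⟩
      apply hg
      exact ⟨u * c⁻¹, by rw [map_mul, map_inv, hu, mul_inv_cancel_right]⟩
    unfold ell
    rw [dif_neg this]
    omega

theorem hv_eq (k : Fin 5) : ∃ c : F3, hv k = FreeGroup.lift hD c ∧ c.norm ≤ 1 := by
  fin_cases k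
  · exact ⟨1, by rw [map_one]; rfl, by simp⟩
  · exact ⟨1, by rw [map_one]; rfl, by simp⟩
  · exact ⟨FreeGroup.of 0, by rw [FreeGroup.lift_apply_of]; rfl, by simp⟩
  · exact ⟨FreeGroup.of 1, by rw [FreeGroup.lift_apply_of]; rfl, by simp⟩
  · exact ⟨FreeGroup.of 2, by rw [FreeGroup.lift_apply_of]; rfl, by simp⟩

/-- **Lower bound.** -/
theorem fil_ww (n N : ℕ) (h : Fil gen4 rel5 (ch (wpath gen4 1 (ww n))) N) : 2 ^ n ≤ N := by
  obtain ⟨a, h1, h2⟩ := h
  have e : Finsupp.linearCombination ℤ (fun p : Delta × Fin 5 =>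
      (Finsupp.single p.1 1 - Finsupp.single (p.1 * hv p.2) 1 : Delta →₀ ℤ)) =
      comp 3 ∘ₗ Finsupp.linearCombination ℤ
        (fun f : Delta × Fin 5 => ch (wpath gen4 f.1 (rel5 f.2))) := by
    apply Finsupp.lhom_ext'
    intro p
    apply LinearMap.ext_ring
    simp only [LinearMap.comp_apply, Finsupp.lsingle_apply, Finsupp.linearCombination_single,
      one_smul, comp3]
  have h3 : Finsupp.linearCombination ℤ (fun p : Delta × Fin 5 =>
      (Finsupp.single p.1 1 - Finsupp.single (p.1 * hv p.2) 1 : Delta →₀ ℤ)) a =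
      Finsupp.single 1 1 - Finsupp.single (FreeGroup.lift hD (vv n)) 1 := by
    rw [e, LinearMap.comp_apply, h1]
    unfold ww
    rw [comp_commutator gen4 3 1 (uw n) _ (uw_letters n) (uw_letters' n) (comm_uw n), one_mul,
      ev_uw]
  have h4 := cut_card hv ell
    (by
      intro g k
      obtain ⟨c, hc, hc1⟩ := hv_eq k
      rw [hc]
      exact ell_mul g c hc1)
    (by
      intro g k
      obtain ⟨c, hc, hc1⟩ := hv_eq k
      rw [hc]
      have := ell_mul (g * FreeGroup.lift hD c) c⁻¹ (by rwa [FreeGroup.norm_inv_eq])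
      rwa [map_inv, mul_inv_cancel_right] at this) a 1 (FreeGroup.lift hD (vv n)) h3
  have e1 : ell (1 : Delta) = 0 := by
    have := ell_lift 1
    rwa [map_one, FreeGroup.norm_one] at this
  rw [ell_lift, e1] at h4
  have := norm_vv n
  omega

/-- The Cayley complex of `Δ`. -/
noncomputable def K0 : Cx Delta := presCx gen4 rel5 rel5_ev rel5_ne

theorem K0_SC : K0.SC := presCx_SC rel5_ev rel5_ne gen4_surjective ker_le

theorem K0_inj : Function.Injective K0.bdry := by
  rw [← LinearMap.ker_eq_bot, LinearMap.ker_eq_bot']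
  intro a ha
  exact bdry_injective a ha

theorem growth (B C d : ℕ) :
    ∃ n : ℕ, B * (C * (1 + B * (8 * n + 12)) ^ d + (8 * n + 12)) < 2 ^ n := by
  -- bound by `M (n+1)^(d+1)`
  have h1 : ∀ n : ℕ, B * (C * (1 + B * (8 * n + 12)) ^ d + (8 * n + 12)) ≤
      (B * (C * (1 + 12 * B) ^ d + 12)) * (n + 1) ^ (d + 1) := by
    intro n
    have e1 : 1 + B * (8 * n + 12) ≤ (1 + 12 * B) * (n + 1) := by nlinarith
    have e2 : (1 + B * (8 * n + 12)) ^ d ≤ (1 + 12 * B) ^ d * (n + 1) ^ d := by
      rw [← mul_pow]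
      exact Nat.pow_le_pow_left e1 d
    have e3 : (n + 1) ^ d ≤ (n + 1) ^ (d + 1) := Nat.pow_le_pow_right (by omega) (by omega)
    have e4 : n + 1 ≤ (n + 1) ^ (d + 1) := by
      calc n + 1 = (n + 1) ^ 1 := (pow_one _).symm
        _ ≤ _ := Nat.pow_le_pow_right (by omega) (by omega)
    calc B * (C * (1 + B * (8 * n + 12)) ^ d + (8 * n + 12))
        ≤ B * (C * ((1 + 12 * B) ^ d * (n + 1) ^ (d + 1)) + 12 * (n + 1) ^ (d + 1)) := by
          gcongr
          · exact e2.trans (Nat.mul_le_mul_left _ e3)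
          · omega
      _ = _ := by ring
  set M := B * (C * (1 + 12 * B) ^ d + 12) with hM
  have h2 := tendsto_pow_const_div_const_pow_of_one_lt (d + 1) (r := (2 : ℝ)) (by norm_num)
  have h3 : ∀ᶠ m : ℕ in Filter.atTop, (m : ℝ) ^ (d + 1) / 2 ^ m < 1 / (2 * (M + 1)) :=
    h2.eventually (gt_mem_nhds (by positivity))
  obtain ⟨m, hm1, hm2⟩ := (h3.and (Filter.eventually_ge_atTop 1)).exists
  obtain ⟨n, rfl⟩ : ∃ n, m = n + 1 := ⟨m - 1, by omega⟩
  refine ⟨n, lt_of_le_of_lt (h1 n) ?_⟩
  rw [div_lt_div_iff₀ (by positivity) (by positivity)] at hm1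
  have h4 : (M : ℝ) * (n + 1 : ℕ) ^ (d + 1) < 2 ^ n := by
    rw [pow_succ 2 n] at hm1
    have h5 : (0 : ℝ) < ((n + 1 : ℕ) : ℝ) ^ (d + 1) := by positivity
    nlinarith
  exact_mod_cast h4

/-- No polynomial bounds for the filling functions of any complex. -/
theorem no_poly (K : Cx Delta) (hK : K.SC) : ¬ K.PolyDehn ∧ ¬ K.PolyHom := by
  obtain ⟨B, hB⟩ := transfer (gen := gen4) (rel := rel5) K gen4_surjective
    (by
      intro z hz
      obtain ⟨a, ha⟩ := K0_SC.cycle z hz
      exact ⟨a.support.card, a, ha, le_rfl⟩) hK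
  constructor
  · rintro ⟨C, d, hCd⟩
    obtain ⟨n, hn⟩ := growth B C d
    obtain ⟨v, p, hp, hlen, hfil⟩ := hB (ww n) (ev_ww n)
    obtain ⟨k, hk, hH⟩ := hCd v p hp
    obtain ⟨a, ha, hcard⟩ := hH.chain
    rw [ch_nil, sub_zero] at ha
    have h1 := fil_ww n _ (hfil a ha)
    rw [ww_length] at h1 hlen
    have h2 : a.support.card ≤ C * (1 + B * (8 * n + 12)) ^ d :=
      hcard.trans (hk.trans (Nat.mul_le_mul_left _ (Nat.pow_le_pow_left (by omega) d)))
    have h3 : B * (a.support.card + (8 * n + 12)) ≤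
        B * (C * (1 + B * (8 * n + 12)) ^ d + (8 * n + 12)) :=
      Nat.mul_le_mul_left _ (by omega)
    omega
  · rintro ⟨C, d, hCd⟩
    obtain ⟨n, hn⟩ := growth B C d
    obtain ⟨v, p, hp, hlen, hfil⟩ := hB (ww n) (ev_ww n)
    have hmem : ch p ∈ LinearMap.range K.bdry := by
      apply hK.cycle
      rw [K.bdry1_ch hp, sub_self]
    obtain ⟨a, ha, hcard⟩ := hCd (ch p) hmem
    have h1 := fil_ww n _ (hfil a ha)
    rw [ww_length] at h1 hlen
    have h4 := sum_ch_le p
    have h2 : a.support.card ≤ C * (1 + B * (8 * n + 12)) ^ d :=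
      hcard.trans (Nat.mul_le_mul_left _ (Nat.pow_le_pow_left (by omega) d))
    have h3 : B * (a.support.card + (8 * n + 12)) ≤
        B * (C * (1 + B * (8 * n + 12)) ^ d + (8 * n + 12)) :=
      Nat.mul_le_mul_left _ (by omega)
    omega

theorem Delta_FG : Group.FG Delta := by
  have h : Group.FG (FreeGroup (Fin 4)) := inferInstance
  exact Group.fg_of_surjective gen4_surjective

theorem Delta_RD : HasRD Delta := by
  classical
  have h1 : RDw (FreeGroup.norm (α := Fin 2)) := RDw_freeGroup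
  have h2 : RDw (Ext.len (H := subP) FreeGroup.norm) := Ext.RDw_len h1
  have h3 : RDw (Ext.len (H := subH) (Ext.len (H := subP) FreeGroup.norm)) := Ext.RDw_len h2
  refine hasRD_of Delta_FG h3 ?_ ?_
  · exact Ext.len_one (Ext.len_one FreeGroup.norm_one)
  · exact Ext.len_mul (Ext.len_mul FreeGroup.norm_mul_le)

end Pool.Agent.H4.RD
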