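import Pool.Agent.H4.RD.Ext

/-!
# Freeness of the subgroups used in the construction
-/

namespace Pool.Agent.H4.RD

open SemidirectProduct HNNExtension

/-! ### A ping-pong statement for HNN extensions -/

section HNN

variable {F G : Type} [Group F] [Group G] {A B : Subgroup G} {φ : A ≃* B}

/-- The map of HNN extensions given by a homomorphism of base groups. -/
def hnnMap (φ : A ≃* B) (μ : F →* G) :
    HNNExtension F ⊥ ⊥ (MulEquiv.refl (⊥ : Subgroup F)) →* HNNExtension G A B φ :=
  HNNExtension.lift ((HNNExtension.of).comp μ) HNNExtension.t (by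
    rintro ⟨a, ha⟩
    rw [Subgroup.mem_bot] at ha
    subst ha
    simp)

theorem hnnMap_of (φ : A ≃* B) (μ : F →* G) (g : F) :
    hnnMap φ μ (HNNExtension.of g) = HNNExtension.of (μ g) := by
  unfold hnnMap
  rw [HNNExtension.lift_of]
  rfl

theorem hnnMap_t (φ : A ≃* B) (μ : F →* G) : hnnMap φ μ HNNExtension.t = HNNExtension.t := by
  unfold hnnMap
  rw [HNNExtension.lift_t]

theorem hnnMap_injective (φ : A ≃* B) (μ : F →* G) (hμ : Function.Injective μ)
    (hA : ∀ f, μ f ∈ A → f = 1) (hB : ∀ f, μ f ∈ B → f = 1) :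
    Function.Injective (hnnMap φ μ) := by
  rw [injective_iff_map_eq_one]
  intro g hg
  obtain ⟨d⟩ := NormalWord.TransversalPair.nonempty F (⊥ : Subgroup F) ⊥
  obtain ⟨w, rfl⟩ : ∃ w : NormalWord d, w.prod (MulEquiv.refl (⊥ : Subgroup F)) = g :=
    ⟨g • NormalWord.empty, by simp⟩
  let r : NormalWord.ReducedWord G A B :=
    { head := μ w.head
      toList := w.toList.map fun x => (x.1, μ x.2)
      chain := by
        rw [List.isChain_map]
        refine w.chain.imp ?_
        intro a b hab hm
        apply hab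
        have : a.2 = 1 := by
          rcases Int.units_eq_one_or a.1 with h | h
          · simp only [h, toSubgroup_one] at hm
            exact hA _ hm
          · simp only [h, toSubgroup_neg_one] at hm
            exact hB _ hm
        rw [this]
        exact Subgroup.one_mem _ }
  have hr : r.prod φ = hnnMap φ μ (w.prod (MulEquiv.refl (⊥ : Subgroup F))) := by
    unfold NormalWord.ReducedWord.prod
    rw [map_mul, hnnMap_of, map_list_prod]
    simp only [r]
    rw [List.map_map, List.map_map]
    have : ∀ x : ℤˣ × F, (⇑(hnnMap φ μ) ∘ fun x : ℤˣ × F => HNNExtension.t ^ (x.1 : ℤ) *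
        HNNExtension.of x.2) x = ((fun x : ℤˣ × G => HNNExtension.t ^ (x.1 : ℤ) *
        HNNExtension.of x.2) ∘ fun x : ℤˣ × F => (x.1, μ x.2)) x := by
      intro x
      simp only [Function.comp_apply]
      rw [map_mul, map_zpow, hnnMap_of, hnnMap_t]
    rw [funext this]
  rw [hg] at hr
  have h1 : r.toList = [] := by
    apply ReducedWord.toList_eq_nil_of_mem_of_range φ r
    rw [hr]
    exact Subgroup.one_mem _
  have h2 : w.toList = [] := by
    simpa [r] using h1
  have h3 : w.prod (MulEquiv.refl (⊥ : Subgroup F)) = HNNExtension.of w.head := by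
    unfold NormalWord.ReducedWord.prod
    rw [h2]
    simp
  rw [h3]
  have h4 : (HNNExtension.of (μ w.head) : HNNExtension G A B φ) = 1 := by
    rw [← hr]
    unfold NormalWord.ReducedWord.prod
    rw [h1]
    simp [r]
  have h5 : μ w.head = 1 := HNNExtension.of_injective φ (by rw [h4, map_one])
  have h6 : w.head = 1 := hμ (by rw [h5, map_one])
  rw [h6, map_one]

end HNN

/-! ### The map `ν` -/

/-- The free group of rank two. -/
abbrev F2 : Type := FreeGroup (Fin 2)

/-- An involutive automorphism. -/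
def theta : F2 →* F2 :=
  FreeGroup.lift ![(FreeGroup.of 1)⁻¹ * FreeGroup.of 0 * FreeGroup.of 1,
    (FreeGroup.of 1)⁻¹ * FreeGroup.of 0]

theorem theta_of0 : theta (FreeGroup.of 0) =
    (FreeGroup.of 1)⁻¹ * FreeGroup.of 0 * FreeGroup.of 1 := by
  unfold theta
  rw [FreeGroup.lift_apply_of]
  rfl

theorem theta_of1 : theta (FreeGroup.of 1) = (FreeGroup.of 1)⁻¹ * FreeGroup.of 0 := by
  unfold theta
  rw [FreeGroup.lift_apply_of]
  rfl

theorem theta_theta (u : F2) : theta (theta u) = u := by
  have : theta.comp theta = MonoidHom.id F2 := by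
    apply FreeGroup.ext_hom
    intro i
    fin_cases i
    · show theta (theta (FreeGroup.of 0)) = FreeGroup.of 0
      simp only [theta_of0, theta_of1, map_mul, map_inv]
      group
    · show theta (theta (FreeGroup.of 1)) = FreeGroup.of 1
      simp only [theta_of0, theta_of1, map_mul, map_inv]
      group
  exact DFunLike.congr_fun this u

/-- `theta` as a permutation. -/
def thetaPerm : Equiv.Perm F2 := ⟨theta, theta, theta_theta, theta_theta⟩

/-- The swap of the two generators, as a permutation. -/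
def swapHom : F2 →* F2 := FreeGroup.lift ![FreeGroup.of 1, FreeGroup.of 0]

theorem swap_of0 : swapHom (FreeGroup.of 0) = FreeGroup.of 1 := by
  unfold swapHom; rw [FreeGroup.lift_apply_of]; rfl

theorem swap_of1 : swapHom (FreeGroup.of 1) = FreeGroup.of 0 := by
  unfold swapHom; rw [FreeGroup.lift_apply_of]; rfl

theorem swap_swap (u : F2) : swapHom (swapHom u) = u := by
  have : swapHom.comp swapHom = MonoidHom.id F2 := by
    apply FreeGroup.ext_hom
    intro i
    fin_cases i
    · show swapHom (swapHom (FreeGroup.of 0)) = FreeGroup.of 0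
      rw [swap_of0, swap_of1]
    · show swapHom (swapHom (FreeGroup.of 1)) = FreeGroup.of 1
      rw [swap_of1, swap_of0]
  exact DFunLike.congr_fun this u

/-- The swap automorphism. -/
def swapAut : F2 ≃* F2 := ⟨⟨swapHom, swapHom, swap_swap, swap_swap⟩, map_mul _⟩

/-- The free subgroup `⟨x₀², x₁⁻¹⟩`. -/
def nu : F2 →* F2 := FreeGroup.lift ![FreeGroup.of 0 ^ 2, (FreeGroup.of 1)⁻¹]

theorem nu_of0 : nu (FreeGroup.of 0) = FreeGroup.of 0 ^ 2 := by
  unfold nu; rw [FreeGroup.lift_apply_of]; rfl

theorem nu_of1 : nu (FreeGroup.of 1) = (FreeGroup.of 1)⁻¹ := by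
  unfold nu; rw [FreeGroup.lift_apply_of]; rfl

theorem nu_injective : Function.Injective nu := by
  let ρ : F2 →* Equiv.Perm F2 := FreeGroup.lift
    ![Equiv.mulLeft (FreeGroup.of 1) * thetaPerm, Equiv.mulLeft (FreeGroup.of 1)⁻¹]
  have h : ∀ u v : F2, ρ (nu u) v = u * v := by
    have h1 : ρ.comp nu = MulAction.toPermHom F2 F2 := by
      apply FreeGroup.ext_hom
      intro i
      fin_cases i
      · show ρ (nu (FreeGroup.of 0)) = _
        rw [nu_of0, map_pow]
        ext v
        have : ρ (FreeGroup.of 0) = Equiv.mulLeft (FreeGroup.of 1) * thetaPerm := by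
          simp only [ρ, FreeGroup.lift_apply_of]; rfl
        rw [this, sq]
        show FreeGroup.of 1 * theta (FreeGroup.of 1 * theta v) = FreeGroup.of 0 * v
        rw [map_mul, theta_theta, theta_of1]
        group
      · show ρ (nu (FreeGroup.of 1)) = _
        rw [nu_of1, map_inv]
        have : ρ (FreeGroup.of 1) = Equiv.mulLeft (FreeGroup.of 1)⁻¹ := by
          simp only [ρ, FreeGroup.lift_apply_of]; rfl
        rw [this]
        ext v
        rw [Equiv.Perm.inv_def, Equiv.mulLeft_symm]
        show (FreeGroup.of 1)⁻¹⁻¹ * v = FreeGroup.of 1 * v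
        rw [inv_inv]
    intro u v
    have := DFunLike.congr_fun h1 u
    have := DFunLike.congr_fun this v
    exact this
  intro u v huv
  have h1 := h u 1
  have h2 := h v 1
  rw [huv] at h1
  rw [h1] at h2
  simpa using h2

/-- Exponent sums. -/
def expo (i : Fin 2) : F2 →* Multiplicative ℤ :=
  FreeGroup.lift fun j => Multiplicative.ofAdd (if j = i then 1 else 0)

/-- The base group of the HNN extension. -/
abbrev G0 : Type := F2 × Multiplicative ℤ

/-- The homomorphism `W₀ ↦ x₀² y⁻¹`, `W₁ ↦ x₁⁻¹ y`. -/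
def mu : F2 →* G0 := nu.prod (FreeGroup.lift ![Multiplicative.ofAdd (-1), Multiplicative.ofAdd 1])

theorem mu_injective : Function.Injective mu := by
  intro u v h
  exact nu_injective (congrArg Prod.fst h)

theorem expo_nu0 (u : F2) : expo 0 (nu u) = expo 0 u ^ 2 := by
  have : (expo 0).comp nu = (powMonoidHom 2).comp (expo 0) := by
    apply FreeGroup.ext_hom
    intro i
    fin_cases i
    · show expo 0 (nu (FreeGroup.of 0)) = (expo 0 (FreeGroup.of 0)) ^ 2
      rw [nu_of0, map_pow]
    · show expo 0 (nu (FreeGroup.of 1)) = (expo 0 (FreeGroup.of 1)) ^ 2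
      rw [nu_of1, map_inv]
      simp [expo]
  exact DFunLike.congr_fun this u

theorem expo_nu1 (u : F2) : expo 1 (nu u) = (expo 1 u)⁻¹ := by
  have : (expo 1).comp nu = (zpowGroupHom (-1)).comp (expo 1) := by
    apply FreeGroup.ext_hom
    intro i
    fin_cases i
    · show expo 1 (nu (FreeGroup.of 0)) = (expo 1 (FreeGroup.of 0)) ^ (-1 : ℤ)
      rw [nu_of0, map_pow]
      simp [expo]
    · show expo 1 (nu (FreeGroup.of 1)) = (expo 1 (FreeGroup.of 1)) ^ (-1 : ℤ)
      rw [nu_of1, map_inv]
      simp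
  have h := DFunLike.congr_fun this u
  have h2 : expo 1 (nu u) = (expo 1 u) ^ (-1 : ℤ) := h
  rw [h2]
  simp

theorem mu_snd (u : F2) : (mu u).2 = (expo 0 u)⁻¹ * expo 1 u := by
  have h0 : (FreeGroup.lift ![Multiplicative.ofAdd (-1 : ℤ), Multiplicative.ofAdd 1] :
      F2 →* Multiplicative ℤ) = (expo 0)⁻¹ * expo 1 := by
    apply FreeGroup.ext_hom
    intro i
    fin_cases i
    · simp [expo]
    · simp [expo]
  show (FreeGroup.lift ![Multiplicative.ofAdd (-1 : ℤ), Multiplicative.ofAdd 1] :
      F2 →* Multiplicative ℤ) u = _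
  rw [h0]
  rfl

/-- The subgroup `A = ⟨x₀⟩`. -/
def subA : Subgroup G0 := Subgroup.zpowers (FreeGroup.of 0, 1)

/-- The automorphism of the base group that swaps `x₀` and `x₁`. -/
def swapG0 : G0 ≃* G0 := swapAut.prodCongr (MulEquiv.refl _)

/-- The subgroup `B = ⟨x₁⟩`. -/
def subB : Subgroup G0 := subA.map swapG0.toMonoidHom

theorem mem_subB {g : G0} (hg : g ∈ subB) : ∃ k : ℤ, g = (FreeGroup.of 1 ^ k, 1) := by
  obtain ⟨a, ⟨k, rfl⟩, rfl⟩ := hg
  refine ⟨k, ?_⟩
  show swapG0.toMonoidHom ((FreeGroup.of 0, 1) ^ k) = _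
  rw [map_zpow]
  have : swapG0.toMonoidHom (FreeGroup.of 0, 1) = (FreeGroup.of 1, 1) :=
    Prod.ext swap_of0 rfl
  rw [this, Prod.pow_mk, one_zpow]

theorem mu_mem_A (f : F2) (h : mu f ∈ subA) : f = 1 := by
  obtain ⟨k, hk⟩ := h
  simp only [Prod.pow_mk, one_zpow] at hk
  have h1 : nu f = FreeGroup.of 0 ^ k := (congrArg Prod.fst hk).symm
  have h2 : (mu f).2 = 1 := (congrArg Prod.snd hk).symm
  rw [mu_snd] at h2
  have h3 := expo_nu0 f
  have h4 := expo_nu1 f
  rw [h1, map_zpow] at h3 h4
  have e0 : expo 0 (FreeGroup.of 0) = Multiplicative.ofAdd 1 := by simp [expo]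
  have e1 : expo 1 (FreeGroup.of 0) = 1 := by simp [expo]
  rw [e0] at h3
  rw [e1, one_zpow] at h4
  have h5 : expo 1 f = 1 := by simpa using h4.symm
  have h6 : expo 0 f = 1 := by simpa [h5] using h2
  rw [h6, one_pow] at h3
  have h7 : k = 0 := by
    have := congrArg Multiplicative.toAdd h3
    simpa using this
  apply nu_injective
  rw [h1, h7, map_one, zpow_zero]

theorem mu_mem_B (f : F2) (h : mu f ∈ subB) : f = 1 := by
  obtain ⟨k, hk⟩ := mem_subB h
  have h1 : nu f = FreeGroup.of 1 ^ k := (congrArg Prod.fst hk)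
  have h2 : (mu f).2 = 1 := (congrArg Prod.snd hk)
  rw [mu_snd] at h2
  have h3 := expo_nu0 f
  have h4 := expo_nu1 f
  rw [h1, map_zpow] at h3 h4
  have e0 : expo 0 (FreeGroup.of 1) = 1 := by simp [expo]
  have e1 : expo 1 (FreeGroup.of 1) = Multiplicative.ofAdd 1 := by simp [expo]
  rw [e0, one_zpow] at h3
  rw [e1] at h4
  have h5 : expo 0 f = 1 := by
    have := congrArg Multiplicative.toAdd h3
    simp only [toAdd_one, toAdd_pow] at this
    have h8 : Multiplicative.toAdd (expo 0 f) = 0 := by
      simpa using this.symm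
    exact toAdd_eq_zero.1 h8
  have h6 : expo 1 f = 1 := by simpa [h5] using h2
  rw [h6, inv_one] at h4
  have h7 : k = 0 := by
    have := congrArg Multiplicative.toAdd h4
    simpa using this
  apply nu_injective
  rw [h1, h7, map_one, zpow_zero]

/-- The isomorphism `⟨x₀⟩ ≃ ⟨x₁⟩`. -/
def phiAB : subA ≃* subB := swapG0.subgroupMap subA

theorem phiAB_coe (a : subA) : (phiAB a : G0) = swapG0 a := rfl

/-- The HNN extension. -/
abbrev Lam : Type := HNNExtension G0 subA subB phiAB

/-- The free group of rank three, generated by `T`, `W₀`, `W₁`. -/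
abbrev F3 : Type := FreeGroup (Fin 3)

/-- `F3 → Lam`. -/
def toLam : F3 →* Lam := FreeGroup.lift
  ![HNNExtension.t, HNNExtension.of (mu (FreeGroup.of 0)), HNNExtension.of (mu (FreeGroup.of 1))]

theorem toLam_injective : Function.Injective toLam := by
  let a : F3 →* HNNExtension F2 ⊥ ⊥ (MulEquiv.refl (⊥ : Subgroup F2)) := FreeGroup.lift
    ![HNNExtension.t, HNNExtension.of (FreeGroup.of 0), HNNExtension.of (FreeGroup.of 1)]
  let b : HNNExtension F2 ⊥ ⊥ (MulEquiv.refl (⊥ : Subgroup F2)) →* F3 :=
    HNNExtension.lift (FreeGroup.lift ![FreeGroup.of 1, FreeGroup.of 2]) (FreeGroup.of 0) (by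
      rintro ⟨a, ha⟩
      rw [Subgroup.mem_bot] at ha
      subst ha
      simp)
  have hab : b.comp a = MonoidHom.id F3 := by
    apply FreeGroup.ext_hom
    intro i
    fin_cases i
    · simp [a, b]
    · simp [a, b]
    · simp [a, b]
  have ha : Function.Injective a := by
    intro u v h
    have h1 := DFunLike.congr_fun hab u
    have h2 := DFunLike.congr_fun hab v
    simp only [MonoidHom.comp_apply, MonoidHom.id_apply] at h1 h2
    rw [← h1, ← h2, h]
  have hc : toLam = (hnnMap phiAB mu).comp a := by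
    apply FreeGroup.ext_hom
    intro i
    have hai : ∀ i, a (FreeGroup.of i) = ![HNNExtension.t, HNNExtension.of (FreeGroup.of 0),
        HNNExtension.of (FreeGroup.of 1)] i := by
      intro i
      simp only [a, FreeGroup.lift_apply_of]
    have hli : ∀ i, toLam (FreeGroup.of i) = ![HNNExtension.t,
        HNNExtension.of (mu (FreeGroup.of 0)), HNNExtension.of (mu (FreeGroup.of 1))] i := by
      intro i
      simp only [toLam, FreeGroup.lift_apply_of]
    rw [hli, MonoidHom.comp_apply, hai]
    fin_cases i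
    · exact (hnnMap_t _ _).symm
    · exact (hnnMap_of _ _ _).symm
    · exact (hnnMap_of _ _ _).symm
  rw [hc]
  exact (hnnMap_injective _ mu mu_injective mu_mem_A mu_mem_B).comp ha

end Pool.Agent.H4.RD
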