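import Pool.Agent.H4.RD.Inj

/-!
# Independence of the filling functions of the complex
-/

namespace Pool.Agent.H4.RD

open Cx

variable {G : Type} [Group G] {X R : Type} [Finite X] [Finite R] (gen : X → G)
  (rel : R → List (X × Bool))

/-- The chain `z` can be filled in the Cayley complex by a chain supported on `N` faces. -/
def Fil (z : G × X →₀ ℤ) (N : ℕ) : Prop :=
  ∃ a : G × R →₀ ℤ, Finsupp.linearCombination ℤ (fun f : G × R => ch (wpath gen f.1 (rel f.2))) a = z
    ∧ a.support.card ≤ N

variable {gen rel}

omit [Finite X] [Finite R] in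
theorem Fil.zero : Fil gen rel 0 0 := ⟨0, by simp, by simp⟩

omit [Finite X] [Finite R] in
theorem Fil.mono {z : G × X →₀ ℤ} {N M : ℕ} (h : Fil gen rel z N) (hNM : N ≤ M) :
    Fil gen rel z M := by
  obtain ⟨a, h1, h2⟩ := h
  exact ⟨a, h1, h2.trans hNM⟩

omit [Finite X] [Finite R] in
theorem Fil.add {z z' : G × X →₀ ℤ} {N N' : ℕ} (h : Fil gen rel z N) (h' : Fil gen rel z' N') :
    Fil gen rel (z + z') (N + N') := by
  classical
  obtain ⟨a, h1, h2⟩ := h
  obtain ⟨a', h1', h2'⟩ := h'
  refine ⟨a + a', by rw [map_add, h1, h1'], ?_⟩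
  exact (Finset.card_le_card Finsupp.support_add).trans
    ((Finset.card_union_le _ _).trans (by omega))

omit [Finite X] [Finite R] in
theorem Fil.zsmul {z : G × X →₀ ℤ} {N : ℕ} (h : Fil gen rel z N) (k : ℤ) :
    Fil gen rel (k • z) N := by
  obtain ⟨a, h1, h2⟩ := h
  refine ⟨k • a, by rw [map_smul, h1], ?_⟩
  exact (Finset.card_le_card Finsupp.support_smul).trans h2

omit [Finite X] [Finite R] in
theorem Fil.neg {z : G × X →₀ ℤ} {N : ℕ} (h : Fil gen rel z N) : Fil gen rel (-z) N := by
  have := h.zsmul (-1)
  simpa using this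

/-- Left translation of chains. -/
noncomputable def tr (Y : Type) (g : G) : (G × Y →₀ ℤ) →ₗ[ℤ] (G × Y →₀ ℤ) :=
  Finsupp.lmapDomain ℤ ℤ fun p : G × Y => (g * p.1, p.2)

omit [Finite X] [Finite R] in
theorem tr_single (g : G) (p : G × X) (n : ℤ) :
    tr X g (Finsupp.single p n) = Finsupp.single (g * p.1, p.2) n := by
  simp [tr, Finsupp.mapDomain_single]

omit [Finite X] in
theorem tr_ch (g h : G) (l : List (X × Bool)) :
    tr X g (ch (wpath gen h l)) = ch (wpath gen (g * h) l) := by
  induction l generalizing h with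
  | nil => simp [wpath, ch_nil]
  | cons p l ih =>
    obtain ⟨x, b⟩ := p
    cases b
    · simp only [wpath, ch_cons, map_add, ih, ← mul_assoc, Bool.false_eq_true, if_false, map_neg,
        tr_single]
    · simp only [wpath, ch_cons, map_add, ih, ← mul_assoc, if_true, tr_single]

omit [Finite X] [Finite R] in
theorem Fil.tr {z : G × X →₀ ℤ} {N : ℕ} (h : Fil gen rel z N) (g : G) :
    Fil gen rel (tr X g z) N := by
  classical
  obtain ⟨a, h1, h2⟩ := h
  refine ⟨RD.tr R g a, ?_, ?_⟩
  · rw [← h1]
    have : (Finsupp.linearCombination ℤ (fun f : G × R => ch (wpath gen f.1 (rel f.2)))) ∘ₗ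
        RD.tr R g = RD.tr X g ∘ₗ
        (Finsupp.linearCombination ℤ (fun f : G × R => ch (wpath gen f.1 (rel f.2)))) := by
      apply Finsupp.lhom_ext'
      intro p
      apply LinearMap.ext_ring
      simp only [LinearMap.comp_apply, Finsupp.lsingle_apply, tr_single,
        Finsupp.linearCombination_single, one_smul]
      exact (tr_ch (gen := gen) g p.1 (rel p.2)).symm
    exact LinearMap.congr_fun this a
  · refine le_trans ?_ h2
    exact (Finset.card_le_card Finsupp.mapDomain_support).trans Finset.card_image_le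

/-- An equivariant map from a free `G`-set to `G`. -/
theorem exists_equivariant {V : Type} [MulAction G V] (hfree : ∀ (g : G) (v : V), g • v = v → g = 1) :
    ∃ φ : V → G, ∀ (g : G) (v : V), φ (g • v) = g * φ v := by
  classical
  have h1 : ∀ v : V, ∃ g : G, g • (Quotient.mk (MulAction.orbitRel G V) v).out = v := by
    intro v
    have : (MulAction.orbitRel G V).r (Quotient.mk (MulAction.orbitRel G V) v).out v :=
      Quotient.exact (Quotient.out_eq _)
    have h2 := (MulAction.orbitRel G V).symm this
    exact h2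
  choose φ hφ using h1
  refine ⟨φ, fun g v => ?_⟩
  have h2 : (Quotient.mk (MulAction.orbitRel G V) (g • v)) =
      Quotient.mk (MulAction.orbitRel G V) v := Quotient.sound ⟨g, rfl⟩
  have h3 := hφ (g • v)
  rw [h2] at h3
  have h4 : ((g * φ v)⁻¹ * φ (g • v)) • (Quotient.mk (MulAction.orbitRel G V) v).out =
      (Quotient.mk (MulAction.orbitRel G V) v).out := by
    rw [mul_smul, h3, inv_smul_eq_iff, mul_smul, hφ v]
  have h5 := hfree _ _ h4
  rw [inv_mul_eq_one] at h5
  exact h5.symm

section Main

variable (K : Cx G)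

instance instV : MulAction G K.V := K.actV
instance instE : MulAction G K.E := K.actE
instance instF : MulAction G K.F := K.actF

/-- Translate of an edge path of `K`. -/
def trP (g : G) (p : List (K.E × Bool)) : List (K.E × Bool) := p.map fun q => (g • q.1, q.2)

/-- The edge path of `K` which corresponds to a word. -/
def pathK (px : X → List (K.E × Bool)) : G → List (X × Bool) → List (K.E × Bool)
  | _, [] => []
  | g, (x, true) :: l => trP K g (px x) ++ pathK px (g * gen x) l
  | g, (x, false) :: l => trP K (g * (gen x)⁻¹) (invP (px x)) ++ pathK px (g * (gen x)⁻¹) l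

omit [Finite X] in
theorem isPath_trP {g : G} {v w : K.V} {p : List (K.E × Bool)}
    (h : IsPath K.src K.tgt v p w) : IsPath K.src K.tgt (g • v) (trP K g p) (g • w) :=
  h.smul K.src_smul K.tgt_smul g

omit [Finite X] in
theorem isPath_pathK {px : X → List (K.E × Bool)} {v₀ : K.V}
    (hpx : ∀ x, IsPath K.src K.tgt v₀ (px x) (gen x • v₀)) (g : G) (l : List (X × Bool)) :
    IsPath K.src K.tgt (g • v₀) (pathK (gen := gen) K px g l) ((g * ev gen l) • v₀) := by
  induction l generalizing g with
  | nil => simp [pathK, IsPath, ev_nil]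
  | cons p l ih =>
    obtain ⟨x, b⟩ := p
    cases b
    · rw [pathK]
      have h1 : IsPath K.src K.tgt (g • v₀) (trP K (g * (gen x)⁻¹) (invP (px x)))
          ((g * (gen x)⁻¹) • v₀) := by
        have := isPath_trP K (g := g * (gen x)⁻¹) (hpx x).inv
        rwa [← mul_smul, inv_mul_cancel_right] at this
      refine h1.append ?_
      rw [ev_cons_false, ← mul_assoc]
      exact ih _
    · rw [pathK]
      have h1 : IsPath K.src K.tgt (g • v₀) (trP K g (px x)) ((g * gen x) • v₀) := by
        have := isPath_trP K (g := g) (hpx x)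
        rwa [← mul_smul] at this
      refine h1.append ?_
      rw [ev_cons_true, ← mul_assoc]
      exact ih _

omit [Finite X] in
theorem length_pathK {px : X → List (K.E × Bool)} {M : ℕ} (hM : ∀ x, (px x).length ≤ M) (g : G)
    (l : List (X × Bool)) : (pathK (gen := gen) K px g l).length ≤ M * l.length := by
  induction l generalizing g with
  | nil => simp [pathK]
  | cons p l ih =>
    obtain ⟨x, b⟩ := p
    have h1 := hM x
    cases b
    · rw [pathK, List.length_append, List.length_cons]
      have h2 := ih (g * (gen x)⁻¹)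
      have h3 : (trP K (g * (gen x)⁻¹) (invP (px x))).length = (px x).length := by
        simp [trP, invP_length]
      rw [h3]
      nlinarith
    · rw [pathK, List.length_append, List.length_cons]
      have h2 := ih (g * gen x)
      have h3 : (trP K g (px x)).length = (px x).length := by
        simp [trP]
      rw [h3]
      nlinarith

/-- **Transfer.**  Fillings in an arbitrary simply connected complex give fillings in the Cayley
complex of the presentation. -/
theorem transfer (hsurj : Function.Surjective (FreeGroup.lift gen))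
    (hcyc : ∀ z : G × X →₀ ℤ, Finsupp.linearCombination ℤ (fun e : G × X =>
      (Finsupp.single (e.1 * gen e.2) 1 - Finsupp.single e.1 1 : G →₀ ℤ)) z = 0 →
      ∃ N, Fil gen rel z N) (hK : K.SC) :
    ∃ B : ℕ, ∀ l : List (X × Bool), ev gen l = 1 →
      ∃ (v : K.V) (p : List (K.E × Bool)), IsPath K.src K.tgt v p v ∧ p.length ≤ B * l.length ∧
        ∀ a : K.F →₀ ℤ, K.bdry a = ch p → Fil gen rel (ch (wpath gen 1 l))
          (B * (a.support.card + l.length)) := by
  classical
  obtain ⟨⟨v⟩, hconn, -⟩ := hK
  obtain ⟨φ, hφ⟩ := exists_equivariant (G := G) K.free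
  -- base vertex
  obtain ⟨v₀, hv₀⟩ : ∃ v₀ : K.V, φ v₀ = 1 := ⟨(φ v)⁻¹ • v, by rw [hφ, inv_mul_cancel]⟩
  have hφg : ∀ g : G, φ (g • v₀) = g := fun g => by rw [hφ, hv₀, mul_one]
  -- words
  have hW : ∀ g : G, ∃ l : List (X × Bool), ev gen l = g := by
    intro g
    obtain ⟨u, hu⟩ := hsurj g
    obtain ⟨l, rfl⟩ : ∃ l, FreeGroup.mk l = u := Quot.exists_rep u
    exact ⟨l, hu⟩
  choose W hW using hW
  let φ₁ : K.E → (G × X →₀ ℤ) := fun e =>
    ch (wpath gen (φ (K.src e)) (W ((φ (K.src e))⁻¹ * φ (K.tgt e))))
  let Φ : (K.E →₀ ℤ) →ₗ[ℤ] (G × X →₀ ℤ) := Finsupp.linearCombination ℤ φ₁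
  let d : (G × X →₀ ℤ) →ₗ[ℤ] (G →₀ ℤ) := Finsupp.linearCombination ℤ (fun e : G × X =>
      (Finsupp.single (e.1 * gen e.2) 1 - Finsupp.single e.1 1 : G →₀ ℤ))
  have hd : ∀ (g : G) (l : List (X × Bool)), d (ch (wpath gen g l)) =
      Finsupp.single (g * ev gen l) 1 - Finsupp.single g 1 := by
    intro g l
    induction l generalizing g with
    | nil => simp [wpath, ch_nil, ev_nil]
    | cons p l ih =>
      obtain ⟨x, b⟩ := p
      cases b
      · simp only [wpath, ch_cons, map_add, ih, Bool.false_eq_true, if_false, map_neg]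
        simp only [d, Finsupp.linearCombination_single, one_smul, ev_cons_false,
          inv_mul_cancel_right, ← mul_assoc]
        abel
      · simp only [wpath, ch_cons, map_add, ih, if_true]
        simp only [d, Finsupp.linearCombination_single, one_smul, ev_cons_true, ← mul_assoc]
        abel
  have hΦ₁ : ∀ e, d (Φ (Finsupp.single e 1)) =
      Finsupp.single (φ (K.tgt e)) 1 - Finsupp.single (φ (K.src e)) 1 := by
    intro e
    simp only [Φ, Finsupp.linearCombination_single, one_smul, φ₁, hd, hW, mul_inv_cancel_left]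
  have hΦ : ∀ c : K.E →₀ ℤ, d (Φ c) = Finsupp.lmapDomain ℤ ℤ φ (K.bdry1 c) := by
    intro c
    have : d ∘ₗ Φ = Finsupp.lmapDomain ℤ ℤ φ ∘ₗ K.bdry1 := by
      apply Finsupp.lhom_ext'
      intro e
      apply LinearMap.ext_ring
      simp only [LinearMap.comp_apply, Finsupp.lsingle_apply, hΦ₁, bdry1,
        Finsupp.linearCombination_single, one_smul, map_sub, Finsupp.lmapDomain_apply,
        Finsupp.mapDomain_single]
    exact LinearMap.congr_fun this c
  -- equivariance
  have hΦtr : ∀ (g : G) (p : List (K.E × Bool)), Φ (ch (trP K g p)) = tr X g (Φ (ch p)) := by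
    intro g p
    induction p with
    | nil => simp [trP, ch_nil]
    | cons q p ih =>
      obtain ⟨e, b⟩ := q
      have h1 : Φ (Finsupp.single (g • e) 1) = tr X g (Φ (Finsupp.single e 1)) := by
        simp only [Φ, Finsupp.linearCombination_single, one_smul, φ₁, tr_ch]
        have e1 : K.src (g • e) = g • K.src e := K.src_smul g e
        have e2 : K.tgt (g • e) = g • K.tgt e := K.tgt_smul g e
        rw [e1, e2, hφ, hφ]
        congr 3
        group
      have h2 : trP K g ((e, b) :: p) = (g • e, b) :: trP K g p := rfl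
      rw [h2, ch_cons, ch_cons, map_add, map_add, map_add, ih]
      cases b
      · simp only [Bool.false_eq_true, if_false, map_neg, h1]
      · simp only [if_true, h1]
  -- faces
  have hface : ∀ f : K.F, ∃ N, Fil gen rel (Φ (ch (K.att f))) N := by
    intro f
    apply hcyc
    show d _ = 0
    obtain ⟨u, hu⟩ := K.att_path f
    rw [hΦ, K.bdry1_ch hu, sub_self, map_zero]
  choose NF hNF using hface
  obtain ⟨sF, hsF⟩ := K.finF
  have hface2 : ∀ f : K.F, Fil gen rel (Φ (ch (K.att f))) (∑ u ∈ sF, NF u) := by
    intro f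
    obtain ⟨u, hu, g, hg⟩ := hsF f
    have e1 : K.att f = trP K g (K.att u) := by
      rw [← hg]
      exact K.att_smul g u
    rw [e1, hΦtr]
    exact ((hNF u).tr g).mono (Finset.single_le_sum (f := NF) (fun i _ => Nat.zero_le _) hu)
  -- generators
  have hpx : ∀ x : X, ∃ p, IsPath K.src K.tgt v₀ p (gen x • v₀) := fun x => hconn _ _
  choose px hpx using hpx
  have hgen : ∀ x : X, ∃ N, Fil gen rel (Finsupp.single (1, x) 1 - Φ (ch (px x))) N := by
    intro x
    apply hcyc
    show d _ = 0
    rw [map_sub, hΦ, K.bdry1_ch (hpx x)]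
    simp only [d, Finsupp.linearCombination_single, one_smul, map_sub, Finsupp.lmapDomain_apply,
      Finsupp.mapDomain_single, hφg, hv₀, one_mul, sub_self]
  choose NX hNX using hgen
  have := Fintype.ofFinite X
  let MX : ℕ := ∑ x, NX x
  let MP : ℕ := ∑ x, (px x).length
  have hMX : ∀ x, Fil gen rel (Finsupp.single (1, x) 1 - Φ (ch (px x))) MX := fun x =>
    (hNX x).mono (Finset.single_le_sum (f := NX) (fun i _ => Nat.zero_le _) (Finset.mem_univ x))
  have hMP : ∀ x, (px x).length ≤ MP := fun x =>
    Finset.single_le_sum (f := fun x => (px x).length) (fun i _ => Nat.zero_le _)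
      (Finset.mem_univ x)
  have hdiff : ∀ (l : List (X × Bool)) (g : G), Fil gen rel
      (ch (wpath gen g l) - Φ (ch (pathK (gen := gen) K px g l))) (MX * l.length) := by
    intro l
    induction l with
    | nil => intro g; simpa [wpath, pathK, ch_nil] using Fil.zero
    | cons p l ih =>
      intro g
      obtain ⟨x, b⟩ := p
      have hlen : MX * ((x, b) :: l).length = MX + MX * l.length := by
        rw [List.length_cons]; ring
      rw [hlen]
      cases b
      · have h1 := ((hMX x).tr (g * (gen x)⁻¹)).neg.add (ih (g * (gen x)⁻¹))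
        have h2 : -(tr X (g * (gen x)⁻¹)) (Finsupp.single (1, x) 1 - Φ (ch (px x))) +
            (ch (wpath gen (g * (gen x)⁻¹) l) -
              Φ (ch (pathK (gen := gen) K px (g * (gen x)⁻¹) l))) =
            ch (wpath gen g ((x, false) :: l)) -
              Φ (ch (pathK (gen := gen) K px g ((x, false) :: l))) := by
          simp only [wpath, ch_cons, pathK, ch_append, map_add, map_sub, tr_single, mul_one,
            Bool.false_eq_true, if_false, hΦtr, ch_invP, map_neg]
          abel
        rw [h2] at h1
        exact h1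
      · have h1 := ((hMX x).tr g).add (ih (g * gen x))
        have h2 : (tr X g) (Finsupp.single (1, x) 1 - Φ (ch (px x))) +
            (ch (wpath gen (g * gen x) l) -
              Φ (ch (pathK (gen := gen) K px (g * gen x) l))) =
            ch (wpath gen g ((x, true) :: l)) -
              Φ (ch (pathK (gen := gen) K px g ((x, true) :: l))) := by
          simp only [wpath, ch_cons, pathK, ch_append, map_add, map_sub, tr_single, mul_one,
            if_true, hΦtr]
          abel
        rw [h2] at h1
        exact h1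
  have hbd : ∀ a : K.F →₀ ℤ, Fil gen rel (Φ (K.bdry a)) (a.support.card * ∑ u ∈ sF, NF u) := by
    intro a
    have e1 : Φ (K.bdry a) = ∑ f ∈ a.support, a f • Φ (ch (K.att f)) := by
      have e0 : K.bdry a = ∑ f ∈ a.support, a f • ch (K.att f) := by
        unfold bdry
        rw [Finsupp.linearCombination_apply]
        rfl
      rw [e0, map_sum]
      apply Finset.sum_congr rfl
      intro f _
      rw [map_smul]
    rw [e1]
    have e2 : ∀ s : Finset K.F, Fil gen rel (∑ f ∈ s, a f • Φ (ch (K.att f)))
        (s.card * ∑ u ∈ sF, NF u) := by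
      intro s
      induction s using Finset.induction_on with
      | empty => simpa using Fil.zero
      | insert f s hf ih =>
        rw [Finset.sum_insert hf, Finset.card_insert_of_notMem hf]
        have := ((hface2 f).zsmul (a f)).add ih
        refine this.mono (le_of_eq ?_)
        ring
    exact e2 _
  -- conclusion
  refine ⟨MX + MP + ∑ u ∈ sF, NF u, fun l hl => ?_⟩
  refine ⟨v₀, pathK (gen := gen) K px 1 l, ?_, ?_, ?_⟩
  · have := isPath_pathK (gen := gen) K hpx 1 l
    rwa [hl, mul_one, one_smul] at this
  · refine (length_pathK (gen := gen) K hMP 1 l).trans ?_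
    gcongr
    omega
  · intro a ha
    have h1 := (hdiff l 1).add (hbd a)
    rw [ha] at h1
    have h2 : ch (wpath gen 1 l) - Φ (ch (pathK (gen := gen) K px 1 l)) +
        Φ (ch (pathK (gen := gen) K px 1 l)) = ch (wpath gen 1 l) := by abel
    rw [h2] at h1
    refine h1.mono ?_
    nlinarith [Nat.zero_le (MX * a.support.card), Nat.zero_le (MP * a.support.card),
      Nat.zero_le (MP * l.length), Nat.zero_le ((∑ u ∈ sF, NF u) * l.length)]

end Main

end Pool.Agent.H4.RD
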