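import Pool.Agent.H4.RD.Free
import Pool.Agent.H4.RD.Transfer

/-!
# The group `Δ = ⟨x, τ, y, s | [y, x], [y, τxτ⁻¹], [s, τ], [s, x²y⁻¹], [s, yτx⁻¹τ⁻¹]⟩`
-/

namespace Pool.Agent.H4.RD

open SemidirectProduct

theorem comm_of_closure {A B : Type} [Group A] [Group B] {S : Set A} (f : A →* B) (s : B)
    (h : ∀ a ∈ S, f a * s = s * f a) : ∀ a ∈ Subgroup.closure S, f a * s = s * f a := by
  intro a ha
  have : Subgroup.closure S ≤ (Subgroup.centralizer {s}).comap f := by
    rw [Subgroup.closure_le]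
    intro b hb
    show f b ∈ Subgroup.centralizer {s}
    rw [Subgroup.mem_centralizer_singleton_iff]
    exact h b hb
  have h2 := this ha
  rw [Subgroup.mem_comap, Subgroup.mem_centralizer_singleton_iff] at h2
  exact h2

/-- `x`. -/
def xx : F2 := FreeGroup.of 0

/-- `τ`. -/
def tt : F2 := FreeGroup.of 1

/-- `x`, `τxτ⁻¹`. -/
def pGen : Fin 2 → F2 := ![xx, tt * xx * tt⁻¹]

/-- `P = ⟨x, τxτ⁻¹⟩`. -/
def subP : Subgroup F2 := Subgroup.closure (Set.range pGen)

theorem pGen_mem (i : Fin 2) : pGen i ∈ subP := Subgroup.subset_closure ⟨i, rfl⟩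

theorem pGen_injective : Function.Injective (FreeGroup.lift pGen) := by
  let ρ : F2 →* Equiv.Perm F2 := FreeGroup.lift ![Equiv.mulLeft (FreeGroup.of 0), swapAut.toEquiv]
  have hx : ρ xx = Equiv.mulLeft (FreeGroup.of 0) := by
    simp only [ρ, xx, FreeGroup.lift_apply_of]; rfl
  have ht : ρ tt = swapAut.toEquiv := by
    simp only [ρ, tt, FreeGroup.lift_apply_of]; rfl
  have h1 : ρ.comp (FreeGroup.lift pGen) = MulAction.toPermHom F2 F2 := by
    apply FreeGroup.ext_hom
    intro i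
    fin_cases i
    · show ρ (FreeGroup.lift pGen (FreeGroup.of 0)) = _
      rw [FreeGroup.lift_apply_of]
      show ρ xx = _
      rw [hx]
      rfl
    · show ρ (FreeGroup.lift pGen (FreeGroup.of 1)) = _
      rw [FreeGroup.lift_apply_of]
      show ρ (tt * xx * tt⁻¹) = _
      rw [map_mul, map_mul, map_inv, hx, ht]
      ext v
      show swapHom (FreeGroup.of 0 * (swapAut.toEquiv)⁻¹ v) = FreeGroup.of 1 * v
      rw [map_mul, swap_of0]
      congr 1
      exact swapAut.toEquiv.apply_symm_apply v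
  intro u v huv
  have h2 := DFunLike.congr_fun (DFunLike.congr_fun h1 u) 1
  have h3 := DFunLike.congr_fun (DFunLike.congr_fun h1 v) 1
  rw [MonoidHom.comp_apply, huv] at h2
  rw [MonoidHom.comp_apply, h2] at h3
  have h4 : u * 1 = v * 1 := h3
  simpa using h4

/-- `Q₂ = ⟨x, τ, y | [y, P]⟩`. -/
abbrev Q2 : Type := Ext subP

/-- `y`. -/
def yy : Q2 := Ext.s subP

/-- `w₀ = x² y⁻¹`. -/
def w0 : Q2 := inr xx * inr xx * yy⁻¹

/-- `w₁ = y τx⁻¹τ⁻¹`. -/
def w1 : Q2 := yy * inr tt * (inr xx)⁻¹ * (inr tt)⁻¹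

/-- The generators of `H`. -/
def hGen : Fin 3 → Q2 := ![inr tt, w0, w1]

/-- `H = ⟨τ, w₀, w₁⟩`. -/
def subH : Subgroup Q2 := Subgroup.closure (Set.range hGen)

theorem hGen_mem (i : Fin 3) : hGen i ∈ subH := Subgroup.subset_closure ⟨i, rfl⟩

theorem yy_x : (inr xx * yy : Q2) = yy * inr xx := Ext.comm_s subP (pGen_mem 0)

theorem yy_x' : (inr (tt * xx * tt⁻¹) * yy : Q2) = yy * inr (tt * xx * tt⁻¹) :=
  Ext.comm_s subP (pGen_mem 1)

/-- `F2 → Lam`, `x ↦ x₀`, `τ ↦ t`. -/
def fLam : F2 →* Lam := FreeGroup.lift ![HNNExtension.of (FreeGroup.of 0, 1), HNNExtension.t]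

theorem fLam_x : fLam xx = HNNExtension.of (FreeGroup.of 0, 1) := by
  simp only [fLam, xx, FreeGroup.lift_apply_of]; rfl

theorem fLam_t : fLam tt = HNNExtension.t := by
  simp only [fLam, tt, FreeGroup.lift_apply_of]; rfl

theorem t_conj : (HNNExtension.t * HNNExtension.of (FreeGroup.of 0, 1) * HNNExtension.t⁻¹ : Lam) =
    HNNExtension.of (FreeGroup.of 1, 1) := by
  have h := HNNExtension.equiv_eq_conj (φ := phiAB) ⟨(FreeGroup.of 0, 1), ⟨1, by simp⟩⟩
  rw [← h, phiAB_coe]
  congr 1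

/-- `Q₂ → Lam`. -/
def qLam : Q2 →* Lam := Ext.lift fLam (HNNExtension.of (1, Multiplicative.ofAdd 1)) (by
  apply comm_of_closure
  rintro _ ⟨i, rfl⟩
  have hc : ∀ g : F2, (HNNExtension.of (g, 1) * HNNExtension.of (1, Multiplicative.ofAdd 1) : Lam) =
      HNNExtension.of (1, Multiplicative.ofAdd 1) * HNNExtension.of (g, 1) := by
    intro g
    rw [← map_mul, ← map_mul]
    congr 1
    ext <;> simp
  fin_cases i
  · show fLam xx * _ = _ * fLam xx
    rw [fLam_x, hc]
  · show fLam (tt * xx * tt⁻¹) * _ = _ * fLam (tt * xx * tt⁻¹)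
    rw [map_mul, map_mul, map_inv, fLam_x, fLam_t, t_conj, hc])

theorem qLam_w0 : qLam w0 = HNNExtension.of (mu (FreeGroup.of 0)) := by
  unfold w0 qLam yy
  rw [map_mul, map_mul, map_inv, Ext.lift_inr, Ext.lift_s, fLam_x, ← map_inv, ← map_mul, ← map_mul]
  congr 1

theorem qLam_w1 : qLam w1 = HNNExtension.of (mu (FreeGroup.of 1)) := by
  unfold w1 qLam yy
  rw [map_mul, map_mul, map_mul, map_inv, map_inv, Ext.lift_inr, Ext.lift_inr, Ext.lift_s, fLam_x,
    fLam_t]
  have h : (HNNExtension.t * (HNNExtension.of (FreeGroup.of 0, 1))⁻¹ * HNNExtension.t⁻¹ : Lam) =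
      HNNExtension.of ((FreeGroup.of 1)⁻¹, 1) := by
    have h1 := congrArg (fun a => a⁻¹) t_conj
    simp only [mul_inv_rev, inv_inv] at h1
    rw [mul_assoc, h1, ← map_inv]
    rfl
  rw [mul_assoc, mul_assoc, ← mul_assoc HNNExtension.t, h, ← map_mul]
  congr 1

theorem hGen_injective : Function.Injective (FreeGroup.lift hGen) := by
  have h1 : qLam.comp (FreeGroup.lift hGen) = toLam := by
    apply FreeGroup.ext_hom
    intro i
    have hli : ∀ i, toLam (FreeGroup.of i) = ![HNNExtension.t,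
        HNNExtension.of (mu (FreeGroup.of 0)), HNNExtension.of (mu (FreeGroup.of 1))] i := by
      intro i
      simp only [toLam, FreeGroup.lift_apply_of]
    rw [hli, MonoidHom.comp_apply, FreeGroup.lift_apply_of]
    fin_cases i
    · show qLam (inr tt) = HNNExtension.t
      unfold qLam
      rw [Ext.lift_inr, fLam_t]
    · exact qLam_w0
    · exact qLam_w1
  have h2 : Function.Injective (qLam.comp (FreeGroup.lift hGen)) := by
    rw [h1]; exact toLam_injective
  intro u v h
  apply h2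
  rw [MonoidHom.comp_apply, MonoidHom.comp_apply, h]

/-- The group. -/
abbrev Delta : Type := Ext subH

/-- The stable letter `s`. -/
def ss : Delta := Ext.s subH

/-- The four generators. -/
def gen4 : Fin 4 → Delta := ![inr (inr xx), inr (inr tt), inr yy, ss]

/-- The five relators. -/
def rel5 : Fin 5 → List (Fin 4 × Bool) :=
  ![[(2, true), (0, true), (2, false), (0, false)],
    [(2, true), (1, true), (0, true), (1, false), (2, false), (1, true), (0, false), (1, false)],
    [(3, true), (1, true), (3, false), (1, false)],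
    [(3, true), (0, true), (0, true), (2, false), (3, false), (2, true), (0, false), (0, false)],
    [(3, true), (2, true), (1, true), (0, false), (1, false), (3, false), (1, true), (0, true),
      (1, false), (2, false)]]

theorem rel5_ne (r : Fin 5) : rel5 r ≠ [] := by
  fin_cases r <;> simp [rel5]

/-- The relators as products. -/
def relP (r : Fin 5) : FreeGroup (Fin 4) × FreeGroup (Fin 4) :=
  ![(FreeGroup.of 2, FreeGroup.of 0),
    (FreeGroup.of 2, FreeGroup.of 1 * FreeGroup.of 0 * (FreeGroup.of 1)⁻¹),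
    (FreeGroup.of 3, FreeGroup.of 1),
    (FreeGroup.of 3, FreeGroup.of 0 * FreeGroup.of 0 * (FreeGroup.of 2)⁻¹),
    (FreeGroup.of 3, FreeGroup.of 2 * FreeGroup.of 1 * (FreeGroup.of 0)⁻¹ * (FreeGroup.of 1)⁻¹)] r

theorem mk_rel5 (r : Fin 5) : FreeGroup.mk (rel5 r) =
    (relP r).1 * (relP r).2 * (relP r).1⁻¹ * (relP r).2⁻¹ := by
  fin_cases r <;> rfl

theorem comm_rel {Γ : Type} [Group Γ] (f : FreeGroup (Fin 4) →* Γ) (r : Fin 5) :
    f (FreeGroup.mk (rel5 r)) = 1 ↔ f (relP r).2 * f (relP r).1 = f (relP r).1 * f (relP r).2 := by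
  rw [mk_rel5, map_mul, map_mul, map_mul, map_inv, map_inv]
  constructor
  · intro h
    rw [mul_inv_eq_one, mul_inv_eq_iff_eq_mul] at h
    exact h.symm
  · intro h
    rw [← h]
    group

theorem lift_gen4 (i : Fin 4) : FreeGroup.lift gen4 (FreeGroup.of i) = gen4 i :=
  FreeGroup.lift_apply_of

theorem comm_s {h : Q2} (hh : h ∈ subH) : (inr h * ss : Delta) = ss * inr h :=
  Ext.comm_s subH hh

theorem rel5_ev (r : Fin 5) : ev gen4 (rel5 r) = 1 := by
  unfold ev
  rw [comm_rel]
  fin_cases r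
  · show FreeGroup.lift gen4 (FreeGroup.of 0) * FreeGroup.lift gen4 (FreeGroup.of 2) =
      FreeGroup.lift gen4 (FreeGroup.of 2) * FreeGroup.lift gen4 (FreeGroup.of 0)
    rw [lift_gen4, lift_gen4]
    show (inr (inr xx) * inr yy : Delta) = inr yy * inr (inr xx)
    rw [← map_mul, ← map_mul, yy_x]
  · show FreeGroup.lift gen4 (FreeGroup.of 1 * FreeGroup.of 0 * (FreeGroup.of 1)⁻¹) *
      FreeGroup.lift gen4 (FreeGroup.of 2) =
      FreeGroup.lift gen4 (FreeGroup.of 2) *
      FreeGroup.lift gen4 (FreeGroup.of 1 * FreeGroup.of 0 * (FreeGroup.of 1)⁻¹)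
    rw [map_mul, map_mul, map_inv, lift_gen4, lift_gen4, lift_gen4]
    show (inr (inr tt) * inr (inr xx) * (inr (inr tt))⁻¹ * inr yy : Delta) =
      inr yy * (inr (inr tt) * inr (inr xx) * (inr (inr tt))⁻¹)
    have := congrArg (inr : Q2 →* Delta) yy_x'
    simpa only [map_mul, map_inv] using this
  · show FreeGroup.lift gen4 (FreeGroup.of 1) * FreeGroup.lift gen4 (FreeGroup.of 3) =
      FreeGroup.lift gen4 (FreeGroup.of 3) * FreeGroup.lift gen4 (FreeGroup.of 1)
    rw [lift_gen4, lift_gen4]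
    exact comm_s (hGen_mem 0)
  · show FreeGroup.lift gen4 (FreeGroup.of 0 * FreeGroup.of 0 * (FreeGroup.of 2)⁻¹) *
      FreeGroup.lift gen4 (FreeGroup.of 3) = FreeGroup.lift gen4 (FreeGroup.of 3) *
      FreeGroup.lift gen4 (FreeGroup.of 0 * FreeGroup.of 0 * (FreeGroup.of 2)⁻¹)
    rw [map_mul, map_mul, map_inv, lift_gen4, lift_gen4, lift_gen4]
    have h := comm_s (hGen_mem 1)
    have e : (inr (hGen 1) : Delta) = gen4 0 * gen4 0 * (gen4 2)⁻¹ := by
      show (inr w0 : Delta) = inr (inr xx) * inr (inr xx) * (inr yy)⁻¹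
      unfold w0
      rw [map_mul, map_mul, map_inv]
    rw [e] at h
    exact h
  · show FreeGroup.lift gen4 (FreeGroup.of 2 * FreeGroup.of 1 * (FreeGroup.of 0)⁻¹ *
      (FreeGroup.of 1)⁻¹) * FreeGroup.lift gen4 (FreeGroup.of 3) =
      FreeGroup.lift gen4 (FreeGroup.of 3) *
      FreeGroup.lift gen4 (FreeGroup.of 2 * FreeGroup.of 1 * (FreeGroup.of 0)⁻¹ *
      (FreeGroup.of 1)⁻¹)
    rw [map_mul, map_mul, map_mul, map_inv, map_inv, lift_gen4, lift_gen4, lift_gen4, lift_gen4]
    have h := comm_s (hGen_mem 2)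
    have e : (inr (hGen 2) : Delta) = gen4 2 * gen4 1 * (gen4 0)⁻¹ * (gen4 1)⁻¹ := by
      show (inr w1 : Delta) = inr yy * inr (inr tt) * (inr (inr xx))⁻¹ * (inr (inr tt))⁻¹
      unfold w1
      rw [map_mul, map_mul, map_mul, map_inv, map_inv]
    rw [e] at h
    exact h

theorem gen4_surjective : Function.Surjective (FreeGroup.lift gen4) := by
  rw [← MonoidHom.range_eq_top]
  have hm : ∀ i, gen4 i ∈ (FreeGroup.lift gen4).range := fun i => ⟨FreeGroup.of i, lift_gen4 i⟩
  apply Ext.closure_eq_top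
  · intro q
    have : Subgroup.comap (inr : Q2 →* Delta) (FreeGroup.lift gen4).range = ⊤ := by
      apply Ext.closure_eq_top
      · intro f
        have : Subgroup.comap ((inr : Q2 →* Delta).comp (inr : F2 →* Q2))
            (FreeGroup.lift gen4).range = ⊤ := by
          rw [eq_top_iff, ← FreeGroup.closure_range_of, Subgroup.closure_le]
          rintro _ ⟨i, rfl⟩
          fin_cases i
          · exact hm 0
          · exact hm 1
        have hf : f ∈ Subgroup.comap ((inr : Q2 →* Delta).comp (inr : F2 →* Q2))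
            (FreeGroup.lift gen4).range := by rw [this]; trivial
        exact hf
      · exact hm 2
    have hq : q ∈ Subgroup.comap (inr : Q2 →* Delta) (FreeGroup.lift gen4).range := by
      rw [this]; trivial
    exact hq
  · exact hm 3

theorem ker_le : (FreeGroup.lift gen4).ker ≤
    Subgroup.normalClosure (Set.range fun r => FreeGroup.mk (rel5 r)) := by
  set N : Subgroup (FreeGroup (Fin 4)) :=
    Subgroup.normalClosure (Set.range fun r => FreeGroup.mk (rel5 r)) with hN
  let q : FreeGroup (Fin 4) →* FreeGroup (Fin 4) ⧸ N := QuotientGroup.mk' N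
  have hrel : ∀ r, q (relP r).2 * q (relP r).1 = q (relP r).1 * q (relP r).2 := by
    intro r
    rw [← comm_rel]
    show (QuotientGroup.mk _ : FreeGroup (Fin 4) ⧸ N) = 1
    rw [QuotientGroup.eq_one_iff]
    exact Subgroup.subset_normalClosure ⟨r, rfl⟩
  let f1 : F2 →* FreeGroup (Fin 4) ⧸ N := FreeGroup.lift ![q (FreeGroup.of 0), q (FreeGroup.of 1)]
  have hf1x : f1 xx = q (FreeGroup.of 0) := by
    simp only [f1, xx, FreeGroup.lift_apply_of]; rfl
  have hf1t : f1 tt = q (FreeGroup.of 1) := by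
    simp only [f1, tt, FreeGroup.lift_apply_of]; rfl
  have hc1 : ∀ p ∈ subP, f1 p * q (FreeGroup.of 2) = q (FreeGroup.of 2) * f1 p := by
    apply comm_of_closure
    rintro _ ⟨i, rfl⟩
    fin_cases i
    · show f1 xx * _ = _ * f1 xx
      rw [hf1x]
      exact hrel 0
    · show f1 (tt * xx * tt⁻¹) * _ = _ * f1 (tt * xx * tt⁻¹)
      rw [map_mul, map_mul, map_inv, hf1x, hf1t]
      have := hrel 1
      simpa only [relP, map_mul, map_inv, Matrix.cons_val_one, Matrix.cons_val_zero] using this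
  let f2 : Q2 →* FreeGroup (Fin 4) ⧸ N := Ext.lift f1 (q (FreeGroup.of 2)) hc1
  have hf2 : ∀ u : F2, f2 (inr u) = f1 u := fun u => Ext.lift_inr _ _ _ _
  have hf2y : f2 yy = q (FreeGroup.of 2) := Ext.lift_s _ _ _
  have hc2 : ∀ p ∈ subH, f2 p * q (FreeGroup.of 3) = q (FreeGroup.of 3) * f2 p := by
    apply comm_of_closure
    rintro _ ⟨i, rfl⟩
    fin_cases i
    · show f2 (inr tt) * _ = _ * f2 (inr tt)
      rw [hf2, hf1t]
      exact hrel 2
    · show f2 w0 * _ = _ * f2 w0
      have e : f2 w0 = q (FreeGroup.of 0) * q (FreeGroup.of 0) * (q (FreeGroup.of 2))⁻¹ := by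
        unfold w0
        rw [map_mul, map_mul, map_inv, hf2, hf2y, hf1x]
      rw [e]
      have := hrel 3
      have e2 : (relP 3).2 = FreeGroup.of 0 * FreeGroup.of 0 * (FreeGroup.of 2)⁻¹ := rfl
      have e3 : (relP 3).1 = FreeGroup.of 3 := rfl
      rw [e2, e3, map_mul, map_mul, map_inv] at this
      exact this
    · show f2 w1 * _ = _ * f2 w1
      have e : f2 w1 = q (FreeGroup.of 2) * q (FreeGroup.of 1) * (q (FreeGroup.of 0))⁻¹ *
          (q (FreeGroup.of 1))⁻¹ := by
        unfold w1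
        rw [map_mul, map_mul, map_mul, map_inv, map_inv, hf2, hf2, hf2y, hf1x, hf1t]
      rw [e]
      have := hrel 4
      have e2 : (relP 4).2 = FreeGroup.of 2 * FreeGroup.of 1 * (FreeGroup.of 0)⁻¹ *
        (FreeGroup.of 1)⁻¹ := rfl
      have e3 : (relP 4).1 = FreeGroup.of 3 := rfl
      rw [e2, e3, map_mul, map_mul, map_mul, map_inv, map_inv] at this
      exact this
  let f3 : Delta →* FreeGroup (Fin 4) ⧸ N := Ext.lift f2 (q (FreeGroup.of 3)) hc2
  have hf3 : ∀ u : Q2, f3 (inr u) = f2 u := fun u => Ext.lift_inr _ _ _ _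
  have hf3s : f3 ss = q (FreeGroup.of 3) := Ext.lift_s _ _ _
  have hcomp : f3.comp (FreeGroup.lift gen4) = q := by
    apply FreeGroup.ext_hom
    intro i
    rw [MonoidHom.comp_apply, lift_gen4]
    fin_cases i
    · show f3 (inr (inr xx)) = q (FreeGroup.of 0)
      rw [hf3, hf2, hf1x]
    · show f3 (inr (inr tt)) = q (FreeGroup.of 1)
      rw [hf3, hf2, hf1t]
    · show f3 (inr yy) = q (FreeGroup.of 2)
      rw [hf3, hf2y]
    · exact hf3s
  intro w hw
  rw [MonoidHom.mem_ker] at hw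
  have h1 := DFunLike.congr_fun hcomp w
  rw [MonoidHom.comp_apply, hw, map_one] at h1
  exact (QuotientGroup.eq_one_iff w).1 h1.symm

end Pool.Agent.H4.RD
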