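import Pool.Agent.H4.RD.Tri

/-!
# Haagerup's inequality for free groups of arbitrary rank
-/

namespace Pool.Agent.H4.RD

open scoped ENNReal

variable {α : Type*} [DecidableEq α]

theorem toWord_mul_of_norm {p u : FreeGroup α} (h : (p * u).norm = p.norm + u.norm) :
    (p * u).toWord = p.toWord ++ u.toWord := by
  apply (FreeGroup.toWord_mul_sublist p u).eq_of_length
  rw [List.length_append]
  exact h

theorem mul_inj_of_norm {p u p' u' : FreeGroup α} (h : (p * u).norm = p.norm + u.norm)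
    (h' : (p' * u').norm = p'.norm + u'.norm) (hp : p.norm = p'.norm) (e : p * u = p' * u') :
    p = p' ∧ u = u' := by
  have h1 := toWord_mul_of_norm h
  have h2 := toWord_mul_of_norm h'
  rw [e, h2] at h1
  obtain ⟨h3, h4⟩ := List.append_inj h1 hp.symm
  exact ⟨(FreeGroup.toWord_injective h3).symm, (FreeGroup.toWord_injective h4).symm⟩

/-- Either there is no cancellation, or a letter cancels. -/
theorem cancel_cases (k h : FreeGroup α) :
    (k * h).norm = k.norm + h.norm ∨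
      ∃ (k' h' x : FreeGroup α), x.norm = 1 ∧ k = k' * x ∧ h = x⁻¹ * h' ∧ k.norm = k'.norm + 1 ∧
        h.norm = h'.norm + 1 := by
  by_cases hr : FreeGroup.IsReduced (k.toWord ++ h.toWord)
  · left
    unfold FreeGroup.norm
    rw [FreeGroup.toWord_mul, hr.reduce_eq, List.length_append]
  · right
    rcases List.eq_nil_or_concat k.toWord with hk | ⟨K, x, hk⟩
    · rw [hk, List.nil_append] at hr
      exact absurd FreeGroup.isReduced_toWord hr
    rcases hh : h.toWord with _ | ⟨y, H⟩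
    · rw [hh, List.append_nil] at hr
      exact absurd FreeGroup.isReduced_toWord hr
    have hrk : FreeGroup.IsReduced (K ++ [x]) := by
      have := FreeGroup.isReduced_toWord (x := k)
      rwa [hk, List.concat_eq_append] at this
    have hrh : FreeGroup.IsReduced (y :: H) := by
      have := FreeGroup.isReduced_toWord (x := h)
      rwa [hh] at this
    have hxy : ¬ (x.1 = y.1 → x.2 = y.2) := by
      intro hc
      apply hr
      rw [hk, hh, List.concat_eq_append]
      unfold FreeGroup.IsReduced at *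
      rw [List.isChain_append]
      refine ⟨hrk, hrh, ?_⟩
      intro a ha b hb
      simp at ha hb
      subst ha hb
      exact hc
    push Not at hxy
    have hk0 : k = FreeGroup.mk K * FreeGroup.mk [x] := by
      rw [FreeGroup.mul_mk, ← List.concat_eq_append, ← hk, FreeGroup.mk_toWord]
    have hh0 : h = (FreeGroup.mk [x])⁻¹ * FreeGroup.mk H := by
      rw [FreeGroup.inv_mk, FreeGroup.mul_mk]
      have : FreeGroup.invRev [x] = [y] := by
        rcases x with ⟨x1, x2⟩
        rcases y with ⟨y1, y2⟩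
        obtain ⟨h1, h2⟩ := hxy
        simp only at h1 h2
        subst h1
        cases x2 <;> cases y2 <;> simp_all [FreeGroup.invRev]
      rw [this, List.singleton_append, ← hh, FreeGroup.mk_toWord]
    have hrK : FreeGroup.IsReduced K := by
      unfold FreeGroup.IsReduced at *
      exact (List.isChain_append.1 hrk).1
    have hrH : FreeGroup.IsReduced H := by
      unfold FreeGroup.IsReduced at *
      exact hrh.tail
    refine ⟨FreeGroup.mk K, FreeGroup.mk H, FreeGroup.mk [x], ?_, hk0, hh0, ?_, ?_⟩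
    · unfold FreeGroup.norm
      rw [FreeGroup.toWord_mk, FreeGroup.reduce_singleton]
      rfl
    · unfold FreeGroup.norm
      rw [FreeGroup.toWord_mk, hrK.reduce_eq, hk]
      simp
    · unfold FreeGroup.norm
      rw [FreeGroup.toWord_mk, hrH.reduce_eq, hh]
      simp

/-- Decomposition of a pair along the maximal cancellation. -/
theorem exists_decomp (n : ℕ) : ∀ (k h : FreeGroup α), k.norm = n →
    ∃ p u s : FreeGroup α, k = p * u ∧ h = u⁻¹ * s ∧ k.norm = p.norm + u.norm ∧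
      h.norm = u.norm + s.norm ∧ (p * s).norm = p.norm + s.norm := by
  induction n with
  | zero =>
    intro k h hk
    have : k = 1 := FreeGroup.norm_eq_zero.1 hk
    subst this
    exact ⟨1, 1, h, by simp, by simp, by simp, by simp, by simp⟩
  | succ n ih =>
    intro k h hk
    rcases cancel_cases k h with h1 | ⟨k', h', x, hx, h2, h3, h4, h5⟩
    · exact ⟨k, 1, h, by simp, by simp, by simp, by simp, h1⟩
    · obtain ⟨p, u, s, e1, e2, e3, e4, e5⟩ := ih k' h' (by omega)
      have hu : (u * x).norm = u.norm + 1 := by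
        have a1 := FreeGroup.norm_mul_le u x
        have a2 := FreeGroup.norm_mul_le p (u * x)
        rw [← mul_assoc, ← e1, ← h2] at a2
        omega
      refine ⟨p, u * x, s, ?_, ?_, ?_, ?_, e5⟩
      · rw [h2, e1, mul_assoc]
      · rw [h3, e2]; group
      · rw [hu]; omega
      · rw [hu]; omega

section

/-- Restriction of `a (p u)` to pairs without cancellation. -/
noncomputable def resMul (a : FreeGroup α → ℝ≥0∞) (p u : FreeGroup α) : ℝ≥0∞ :=
  if (p * u).norm = p.norm + u.norm then a (p * u) else 0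

/-- Cut-off at length `i`. -/
noncomputable def cut (i : ℕ) (p : FreeGroup α) : ℝ≥0∞ := if p.norm = i then 1 else 0

theorem sum_cut (p : FreeGroup α) : ∑' i, cut i p = 1 := by
  unfold cut
  rw [tsum_eq_single p.norm]
  · simp
  · intro b hb
    rw [if_neg (Ne.symm hb)]

theorem nrm_resMul (a : FreeGroup α → ℝ≥0∞) (i : ℕ) :
    nrm (fun x : FreeGroup α × FreeGroup α => cut i x.1 * resMul a x.1 x.2) ≤ nrm a := by
  classical
  unfold nrm
  apply rt_mono
  let S : Set (FreeGroup α × FreeGroup α) :=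
    {x | x.1.norm = i ∧ (x.1 * x.2).norm = x.1.norm + x.2.norm}
  have h1 : ∀ x : FreeGroup α × FreeGroup α, (cut i x.1 * resMul a x.1 x.2) ^ 2 =
      S.indicator (fun x => a (x.1 * x.2) ^ 2) x := by
    intro x
    by_cases hx : x ∈ S
    · rw [Set.indicator_of_mem hx]
      unfold cut resMul
      rw [if_pos hx.1, if_pos hx.2, one_mul]
    · rw [Set.indicator_of_notMem hx]
      unfold cut resMul
      by_cases h1 : x.1.norm = i
      · have h2 : ¬ (x.1 * x.2).norm = x.1.norm + x.2.norm := fun h2 => hx ⟨h1, h2⟩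
        rw [if_neg h2]
        simp
      · rw [if_neg h1]
        simp
  simp only [h1]
  rw [← tsum_subtype S (fun x => a (x.1 * x.2) ^ 2)]
  have hinj : Function.Injective (fun x : S => (x : FreeGroup α × FreeGroup α).1 *
      (x : FreeGroup α × FreeGroup α).2) := by
    rintro ⟨x, hx⟩ ⟨y, hy⟩ e
    obtain ⟨e1, e2⟩ := mul_inj_of_norm hx.2 hy.2 (hx.1.trans hy.1.symm) e
    exact Subtype.ext (Prod.ext e1 e2)
  exact ENNReal.tsum_comp_le_tsum_of_injective hinj (fun g => a g ^ 2)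

theorem cut_sum_pair (p u : FreeGroup α) : ∑' i, ∑' j, cut i p * cut j u = 1 := by
  simp only [ENNReal.tsum_mul_left, sum_cut, ENNReal.tsum_mul_right, mul_one]

/-- The key estimate. -/
theorem tri_le_decomp (a b c : FreeGroup α → ℝ≥0∞) :
    tri a b c ≤ ∑' p : FreeGroup α, ∑' u : FreeGroup α, ∑' s : FreeGroup α,
      resMul a p u * resMul b u⁻¹ s * resMul c p s := by
  classical
  let S : Set (FreeGroup α × FreeGroup α × FreeGroup α) :=
    {x | (x.1 * x.2.1).norm = x.1.norm + x.2.1.norm ∧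
      (x.2.1⁻¹ * x.2.2).norm = x.2.1⁻¹.norm + x.2.2.norm ∧
      (x.1 * x.2.2).norm = x.1.norm + x.2.2.norm}
  have h1 : tri a b c = ∑' x : FreeGroup α × FreeGroup α, a x.1 * b x.2 * c (x.1 * x.2) := by
    unfold tri
    rw [← ENNReal.tsum_prod (f := fun k h => a k * b h * c (k * h))]
  have h2 : ∑' p : FreeGroup α, ∑' u : FreeGroup α, ∑' s : FreeGroup α,
      resMul a p u * resMul b u⁻¹ s * resMul c p s =
      ∑' x : FreeGroup α × FreeGroup α × FreeGroup α,
        resMul a x.1 x.2.1 * resMul b x.2.1⁻¹ x.2.2 * resMul c x.1 x.2.2 := by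
    rw [ENNReal.tsum_prod' (f := fun x : FreeGroup α × FreeGroup α × FreeGroup α =>
      resMul a x.1 x.2.1 * resMul b x.2.1⁻¹ x.2.2 * resMul c x.1 x.2.2)]
    congr 1
    funext p
    rw [ENNReal.tsum_prod' (f := fun x : FreeGroup α × FreeGroup α =>
      resMul a p x.1 * resMul b x.1⁻¹ x.2 * resMul c p x.2)]
  rw [h1, h2]
  have hsurj : Function.Surjective (fun x : S => ((x : FreeGroup α × FreeGroup α × FreeGroup α).1 *
      (x : FreeGroup α × FreeGroup α × FreeGroup α).2.1,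
      (x : FreeGroup α × FreeGroup α × FreeGroup α).2.1⁻¹ *
      (x : FreeGroup α × FreeGroup α × FreeGroup α).2.2)) := by
    rintro ⟨k, h⟩
    obtain ⟨p, u, s, e1, e2, e3, e4, e5⟩ := exists_decomp k.norm k h rfl
    refine ⟨⟨(p, u, s), ?_, ?_, ?_⟩, ?_⟩
    · show (p * u).norm = _
      rw [← e1, e3]
    · show (u⁻¹ * s).norm = u⁻¹.norm + s.norm
      rw [← e2, e4, FreeGroup.norm_inv_eq]
    · exact e5
    · show (p * u, u⁻¹ * s) = (k, h)
      rw [← e1, ← e2]
  calc ∑' x : FreeGroup α × FreeGroup α, a x.1 * b x.2 * c (x.1 * x.2)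
      ≤ ∑' x : S, a ((x : FreeGroup α × FreeGroup α × FreeGroup α).1 *
          (x : FreeGroup α × FreeGroup α × FreeGroup α).2.1) *
          b ((x : FreeGroup α × FreeGroup α × FreeGroup α).2.1⁻¹ *
          (x : FreeGroup α × FreeGroup α × FreeGroup α).2.2) *
          c (((x : FreeGroup α × FreeGroup α × FreeGroup α).1 *
          (x : FreeGroup α × FreeGroup α × FreeGroup α).2.1) *
          ((x : FreeGroup α × FreeGroup α × FreeGroup α).2.1⁻¹ *
          (x : FreeGroup α × FreeGroup α × FreeGroup α).2.2)) :=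
        ENNReal.tsum_le_tsum_comp_of_surjective hsurj
          (fun x : FreeGroup α × FreeGroup α => a x.1 * b x.2 * c (x.1 * x.2))
    _ = ∑' x : S, resMul a (x : FreeGroup α × FreeGroup α × FreeGroup α).1
          (x : FreeGroup α × FreeGroup α × FreeGroup α).2.1 *
          resMul b (x : FreeGroup α × FreeGroup α × FreeGroup α).2.1⁻¹
          (x : FreeGroup α × FreeGroup α × FreeGroup α).2.2 *
          resMul c (x : FreeGroup α × FreeGroup α × FreeGroup α).1
          (x : FreeGroup α × FreeGroup α × FreeGroup α).2.2 := by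
        congr 1
        funext x
        obtain ⟨x, hx⟩ := x
        unfold resMul
        simp only
        rw [if_pos hx.1, if_pos hx.2.1, if_pos hx.2.2]
        congr 2
        group
    _ ≤ _ := ENNReal.tsum_comp_le_tsum_of_injective Subtype.val_injective
          (fun x : FreeGroup α × FreeGroup α × FreeGroup α =>
            resMul a x.1 x.2.1 * resMul b x.2.1⁻¹ x.2.2 * resMul c x.1 x.2.2)

end

/-- The restriction of `a` to the sphere of radius `n` (with weight). -/
theorem nrm_A (a : FreeGroup α → ℝ≥0∞) (i j : ℕ) (s : ℕ) :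
    nrm (fun x : FreeGroup α × FreeGroup α => cut i x.1 * cut j x.2 * resMul a x.1 x.2) ≤
      ((1 + i + j : ℕ) : ℝ≥0∞)⁻¹ ^ s * wnrm FreeGroup.norm s a := by
  have h := nrm_resMul (fun g => ((1 + i + j : ℕ) : ℝ≥0∞)⁻¹ ^ s *
    (a g * ((1 + g.norm : ℕ) : ℝ≥0∞) ^ s)) i
  rw [nrm_const_mul] at h
  refine le_trans (nrm_mono ?_) h
  intro x
  unfold cut resMul
  by_cases h1 : x.1.norm = i
  swap
  · rw [if_neg h1]; simp
  by_cases h2 : x.2.norm = j
  swap
  · rw [if_neg h2]; simp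
  by_cases h3 : (x.1 * x.2).norm = x.1.norm + x.2.norm
  swap
  · rw [if_neg h3]; simp
  rw [if_pos h1, if_pos h2, if_pos h3, if_pos h3]
  show 1 * 1 * a (x.1 * x.2) ≤ 1 * (((1 + i + j : ℕ) : ℝ≥0∞)⁻¹ ^ s *
    (a (x.1 * x.2) * ((1 + (x.1 * x.2).norm : ℕ) : ℝ≥0∞) ^ s))
  rw [h3, h1, h2]
  rw [one_mul, one_mul, one_mul, ← add_assoc]
  have h0 : ((1 + i + j : ℕ) : ℝ≥0∞) ≠ 0 := by
    rw [Ne, Nat.cast_eq_zero]; omega
  have h0' : ((1 + i + j : ℕ) : ℝ≥0∞) ≠ ∞ := ENNReal.natCast_ne_top _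
  have : ((1 + i + j : ℕ) : ℝ≥0∞)⁻¹ ^ s * ((1 + i + j : ℕ) : ℝ≥0∞) ^ s = 1 := by
    rw [← mul_pow, ENNReal.inv_mul_cancel h0 h0', one_pow]
  calc a (x.1 * x.2) = a (x.1 * x.2) *
        (((1 + i + j : ℕ) : ℝ≥0∞)⁻¹ ^ s * ((1 + i + j : ℕ) : ℝ≥0∞) ^ s) := by rw [this, mul_one]
    _ ≤ _ := le_of_eq (by ring)

theorem const_ne_top : (∑' i : ℕ, ((1 + i : ℕ) : ℝ≥0∞)⁻¹ ^ 2) ≠ ∞ := by
  have h1 : Summable (fun n : ℕ => ((n : ℝ) ^ 2)⁻¹) :=
    Real.summable_nat_pow_inv.2 (by norm_num)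
  have h2 : Summable (fun n : ℕ => (((n + 1 : ℕ) : ℝ) ^ 2)⁻¹) :=
    (summable_nat_add_iff 1).2 h1
  have h3 : ∀ i : ℕ, ((1 + i : ℕ) : ℝ≥0∞)⁻¹ ^ 2 = ENNReal.ofReal ((((i + 1 : ℕ) : ℝ) ^ 2)⁻¹) := by
    intro i
    have hpos : (0 : ℝ) < ((i + 1 : ℕ) : ℝ) := by positivity
    rw [← inv_pow, ENNReal.ofReal_pow (by positivity), ENNReal.ofReal_inv_of_pos hpos,
      ENNReal.ofReal_natCast, add_comm 1 i]
  simp only [h3]
  exact h2.tsum_ofReal_ne_top

/-- **Haagerup's inequality** for free groups of arbitrary rank. -/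
theorem RDw_freeGroup : RDw (FreeGroup.norm (α := α)) := by
  refine ⟨(∑' i : ℕ, ((1 + i : ℕ) : ℝ≥0∞)⁻¹ ^ 2) * ∑' i : ℕ, ((1 + i : ℕ) : ℝ≥0∞)⁻¹ ^ 2,
    ENNReal.mul_ne_top const_ne_top const_ne_top, 4, fun a b c => ?_⟩
  refine (tri_le_decomp a b c).trans ?_
  -- insert the cut-offs
  have h1 : ∑' p : FreeGroup α, ∑' u : FreeGroup α, ∑' s : FreeGroup α,
      resMul a p u * resMul b u⁻¹ s * resMul c p s =
      ∑' i : ℕ, ∑' j : ℕ, ∑' p : FreeGroup α, ∑' u : FreeGroup α, ∑' s : FreeGroup α,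
        (cut i p * cut j u * resMul a p u) * (cut j u⁻¹ * resMul b u⁻¹ s) *
          (cut i p * resMul c p s) := by
    have hc : ∀ (i : ℕ) (p : FreeGroup α), cut i p * cut i p = cut i p := by
      intro i p
      unfold cut
      split <;> simp
    have hi : ∀ (i : ℕ) (p : FreeGroup α), cut i p⁻¹ = cut i p := by
      intro i p
      unfold cut
      rw [FreeGroup.norm_inv_eq]
    have e : ∀ (p u s : FreeGroup α), resMul a p u * resMul b u⁻¹ s * resMul c p s =
        ∑' i : ℕ, ∑' j : ℕ, (cut i p * cut j u * resMul a p u) * (cut j u⁻¹ * resMul b u⁻¹ s) *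
          (cut i p * resMul c p s) := by
      intro p u s
      have : ∀ i j : ℕ, (cut i p * cut j u * resMul a p u) * (cut j u⁻¹ * resMul b u⁻¹ s) *
          (cut i p * resMul c p s) = (cut i p * cut j u) *
            (resMul a p u * resMul b u⁻¹ s * resMul c p s) := by
        intro i j
        rw [hi]
        calc _ = (cut i p * cut i p) * (cut j u * cut j u) *
            (resMul a p u * resMul b u⁻¹ s * resMul c p s) := by ring
          _ = _ := by rw [hc, hc]
      simp only [this, ENNReal.tsum_mul_right]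
      rw [cut_sum_pair, one_mul]
    simp only [e]
    -- interchange
    calc ∑' p : FreeGroup α, ∑' u : FreeGroup α, ∑' s : FreeGroup α, ∑' i : ℕ, ∑' j : ℕ,
          (cut i p * cut j u * resMul a p u) * (cut j u⁻¹ * resMul b u⁻¹ s) *
          (cut i p * resMul c p s)
        = ∑' p : FreeGroup α, ∑' u : FreeGroup α, ∑' i : ℕ, ∑' s : FreeGroup α, ∑' j : ℕ,
          (cut i p * cut j u * resMul a p u) * (cut j u⁻¹ * resMul b u⁻¹ s) *
          (cut i p * resMul c p s) := by
          congr 1; funext p; congr 1; funext u; rw [ENNReal.tsum_comm]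
      _ = ∑' p : FreeGroup α, ∑' i : ℕ, ∑' u : FreeGroup α, ∑' s : FreeGroup α, ∑' j : ℕ,
          (cut i p * cut j u * resMul a p u) * (cut j u⁻¹ * resMul b u⁻¹ s) *
          (cut i p * resMul c p s) := by
          congr 1; funext p; rw [ENNReal.tsum_comm]
      _ = ∑' i : ℕ, ∑' p : FreeGroup α, ∑' u : FreeGroup α, ∑' s : FreeGroup α, ∑' j : ℕ,
          (cut i p * cut j u * resMul a p u) * (cut j u⁻¹ * resMul b u⁻¹ s) *
          (cut i p * resMul c p s) := by
          rw [ENNReal.tsum_comm]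
      _ = ∑' i : ℕ, ∑' p : FreeGroup α, ∑' u : FreeGroup α, ∑' j : ℕ, ∑' s : FreeGroup α,
          (cut i p * cut j u * resMul a p u) * (cut j u⁻¹ * resMul b u⁻¹ s) *
          (cut i p * resMul c p s) := by
          congr 1; funext i; congr 1; funext p; congr 1; funext u; rw [ENNReal.tsum_comm]
      _ = ∑' i : ℕ, ∑' p : FreeGroup α, ∑' j : ℕ, ∑' u : FreeGroup α, ∑' s : FreeGroup α,
          (cut i p * cut j u * resMul a p u) * (cut j u⁻¹ * resMul b u⁻¹ s) *
          (cut i p * resMul c p s) := by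
          congr 1; funext i; congr 1; funext p; rw [ENNReal.tsum_comm]
      _ = _ := by
          congr 1; funext i; rw [ENNReal.tsum_comm]
  rw [h1]
  have h2 : ∀ i j : ℕ, ∑' p : FreeGroup α, ∑' u : FreeGroup α, ∑' s : FreeGroup α,
        (cut i p * cut j u * resMul a p u) * (cut j u⁻¹ * resMul b u⁻¹ s) *
          (cut i p * resMul c p s) ≤
        (((1 + i : ℕ) : ℝ≥0∞)⁻¹ ^ 2 * ((1 + j : ℕ) : ℝ≥0∞)⁻¹ ^ 2) *
          (wnrm FreeGroup.norm 4 a * nrm b * nrm c) := by
    intro i j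
    refine (three_le (fun p u => cut i p * cut j u * resMul a p u)
      (fun u s => cut j u⁻¹ * resMul b u⁻¹ s) (fun p s => cut i p * resMul c p s)).trans ?_
    have hb : nrm (fun x : FreeGroup α × FreeGroup α => cut j x.1⁻¹ * resMul b x.1⁻¹ x.2) ≤
        nrm b := by
      have e := nrm_comp_equiv ((Equiv.inv (FreeGroup α)).prodCongr (Equiv.refl (FreeGroup α)))
        (fun x : FreeGroup α × FreeGroup α => cut j x.1 * resMul b x.1 x.2)
      have e2 := nrm_resMul b j
      rw [← e] at e2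
      exact e2
    have hcc := nrm_resMul c i
    have haa := nrm_A a i j 4
    have hw : ((1 + i + j : ℕ) : ℝ≥0∞)⁻¹ ^ 4 ≤
        ((1 + i : ℕ) : ℝ≥0∞)⁻¹ ^ 2 * ((1 + j : ℕ) : ℝ≥0∞)⁻¹ ^ 2 := by
      have e1 : ((1 + i + j : ℕ) : ℝ≥0∞)⁻¹ ≤ ((1 + i : ℕ) : ℝ≥0∞)⁻¹ := by
        rw [ENNReal.inv_le_inv]
        exact_mod_cast (by omega : 1 + i ≤ 1 + i + j)
      have e2 : ((1 + i + j : ℕ) : ℝ≥0∞)⁻¹ ≤ ((1 + j : ℕ) : ℝ≥0∞)⁻¹ := by
        rw [ENNReal.inv_le_inv]
        exact_mod_cast (by omega : 1 + j ≤ 1 + i + j)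
      calc ((1 + i + j : ℕ) : ℝ≥0∞)⁻¹ ^ 4 = ((1 + i + j : ℕ) : ℝ≥0∞)⁻¹ ^ 2 *
            ((1 + i + j : ℕ) : ℝ≥0∞)⁻¹ ^ 2 := by ring
        _ ≤ _ := by gcongr
    calc nrm (fun x : FreeGroup α × FreeGroup α => cut i x.1 * cut j x.2 * resMul a x.1 x.2) *
          nrm (fun x : FreeGroup α × FreeGroup α => cut j x.1⁻¹ * resMul b x.1⁻¹ x.2) *
          nrm (fun x : FreeGroup α × FreeGroup α => cut i x.1 * resMul c x.1 x.2)
        ≤ (((1 + i + j : ℕ) : ℝ≥0∞)⁻¹ ^ 4 * wnrm FreeGroup.norm 4 a) * nrm b * nrm c := by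
          gcongr
      _ ≤ ((((1 + i : ℕ) : ℝ≥0∞)⁻¹ ^ 2 * ((1 + j : ℕ) : ℝ≥0∞)⁻¹ ^ 2) *
            wnrm FreeGroup.norm 4 a) * nrm b * nrm c := by
          gcongr
      _ = _ := by ring
  calc ∑' i : ℕ, ∑' j : ℕ, ∑' p : FreeGroup α, ∑' u : FreeGroup α, ∑' s : FreeGroup α,
        (cut i p * cut j u * resMul a p u) * (cut j u⁻¹ * resMul b u⁻¹ s) *
          (cut i p * resMul c p s)
      ≤ ∑' i : ℕ, ∑' j : ℕ, (((1 + i : ℕ) : ℝ≥0∞)⁻¹ ^ 2 * ((1 + j : ℕ) : ℝ≥0∞)⁻¹ ^ 2) *
          (wnrm FreeGroup.norm 4 a * nrm b * nrm c) :=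
        ENNReal.tsum_le_tsum fun i => ENNReal.tsum_le_tsum fun j => h2 i j
    _ = _ := by
        simp only [ENNReal.tsum_mul_right, ENNReal.tsum_mul_left]
        ring

end Pool.Agent.H4.RD
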