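import Pool.Agent.H4.RD.Pres

/-!
# Chains of words: components, injectivity and the cut argument
-/

namespace Pool.Agent.H4.RD

open Cx

variable {G : Type} [Group G] {X : Type} (gen : X → G)

theorem ch_wpath_step (g : G) {l l' : List (X × Bool)} (h : FreeGroup.Red.Step l l') :
    ch (wpath gen g l) = ch (wpath gen g l') := by
  obtain ⟨⟩ := h
  rename_i L₁ L₂ x b
  rw [wpath_append, wpath_append, ch_append, ch_append]
  congr 1
  cases b
  · simp only [Bool.not_false, wpath, ch_cons, inv_mul_cancel_right]
    simp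
  · simp only [Bool.not_true, wpath, ch_cons, mul_inv_cancel_right]
    simp

theorem ch_wpath_red (g : G) {l l' : List (X × Bool)} (h : FreeGroup.Red l l') :
    ch (wpath gen g l) = ch (wpath gen g l') := by
  induction h with
  | refl => rfl
  | tail _ h2 ih => rw [ih, ch_wpath_step gen g h2]

theorem ch_wpath_mk (g : G) {l l' : List (X × Bool)} (h : FreeGroup.mk l = FreeGroup.mk l') :
    ch (wpath gen g l) = ch (wpath gen g l') := by
  obtain ⟨c, h1, h2⟩ := FreeGroup.Red.exact.1 h
  rw [ch_wpath_red gen g h1, ch_wpath_red gen g h2]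

/-- Cosets of the subgroup generated by a free family: for every element there is a path from
a coset representative, and the family of paths is compatible with the edges. -/
theorem exists_tree (hinj : Function.Injective (FreeGroup.lift gen)) :
    ∃ D : G → (G × X →₀ ℤ), ∀ g x, D (g * gen x) = D g + Finsupp.single (g, x) 1 := by
  classical
  let H : Subgroup G := (FreeGroup.lift gen).range
  let rep : G → G := fun g => (QuotientGroup.mk g : G ⧸ H).out
  have hrep : ∀ g, ∃ u : FreeGroup X, FreeGroup.lift gen u = (rep g)⁻¹ * g := by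
    intro g
    have : (rep g)⁻¹ * g ∈ H := by
      rw [← QuotientGroup.eq]
      exact Quotient.out_eq _
    exact this
  choose η hη using hrep
  refine ⟨fun g => ch (wpath gen (rep g) (η g).toWord), fun g x => ?_⟩
  have h1 : rep (g * gen x) = rep g := by
    show (QuotientGroup.mk (g * gen x) : G ⧸ H).out = (QuotientGroup.mk g : G ⧸ H).out
    congr 1
    rw [QuotientGroup.eq]
    have : (g * gen x)⁻¹ * g = (gen x)⁻¹ := by group
    rw [this]
    exact ⟨(FreeGroup.of x)⁻¹, by simp⟩
  have h2 : η (g * gen x) = η g * FreeGroup.of x := by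
    apply hinj
    rw [hη, map_mul, hη, h1, FreeGroup.lift_apply_of, mul_assoc]
  have h3 : FreeGroup.mk (η (g * gen x)).toWord = FreeGroup.mk ((η g).toWord ++ [(x, true)]) := by
    rw [FreeGroup.mk_toWord, h2, ← FreeGroup.mul_mk, FreeGroup.mk_toWord]
    rfl
  show ch (wpath gen (rep (g * gen x)) (η (g * gen x)).toWord) = _
  rw [h1, ch_wpath_mk gen _ h3, wpath_append, ch_append]
  congr 1
  have h4 : ev gen (η g).toWord = (rep g)⁻¹ * g := by
    unfold ev
    rw [FreeGroup.mk_toWord, hη]
  rw [h4, mul_inv_cancel_left]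
  simp [wpath, ch_cons, ch_nil]

/-- The boundary map of a family of elements is injective when the family is free (with possibly
some extra trivial elements). -/
theorem free_inj {κ : Type} (hinj : Function.Injective (FreeGroup.lift gen)) (e : X → κ)
    (he : Function.Injective e) (h' : κ → G) (h1 : ∀ i, h' (e i) = gen i)
    (h2 : ∀ k, k ∉ Set.range e → h' k = 1) (a : G × κ →₀ ℤ)
    (ha : Finsupp.linearCombination ℤ (fun p : G × κ =>
      (Finsupp.single p.1 1 - Finsupp.single (p.1 * h' p.2) 1 : G →₀ ℤ)) a = 0) (g₀ : G) (i₀ : X) :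
    a (g₀, e i₀) = 0 := by
  classical
  obtain ⟨D, hD⟩ := exists_tree gen hinj
  let T : (G →₀ ℤ) →ₗ[ℤ] ℤ := Finsupp.linearCombination ℤ fun g => D g (g₀, i₀)
  have key : T ∘ₗ Finsupp.linearCombination ℤ (fun p : G × κ =>
      (Finsupp.single p.1 1 - Finsupp.single (p.1 * h' p.2) 1 : G →₀ ℤ)) =
      -Finsupp.lapply (g₀, e i₀) := by
    ext ⟨g, k⟩
    simp only [T, LinearMap.comp_apply, Finsupp.lsingle_apply,
      Finsupp.linearCombination_single, one_smul, map_sub, LinearMap.neg_apply,
      Finsupp.lapply_apply]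
    by_cases hk : k ∈ Set.range e
    · obtain ⟨i, rfl⟩ := hk
      rw [h1, hD, Finsupp.add_apply]
      simp only [Finsupp.single_apply, Prod.mk.injEq, he.eq_iff]
      ring
    · rw [h2 k hk, mul_one, sub_self]
      have : (g, k) ≠ (g₀, e i₀) := by
        intro h
        exact hk ⟨i₀, (congrArg Prod.snd h).symm⟩
      rw [Finsupp.single_apply, if_neg this, neg_zero]
  have h3 := LinearMap.congr_fun key a
  rw [LinearMap.comp_apply, ha, map_zero] at h3
  simp only [LinearMap.neg_apply, Finsupp.lapply_apply] at h3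
  omega

/-- The cut argument. -/
theorem cut_card {κ : Type} (h' : κ → G) (ℓ : G → ℕ) (h1 : ∀ g k, ℓ (g * h' k) ≤ ℓ g + 1)
    (h2 : ∀ g k, ℓ g ≤ ℓ (g * h' k) + 1) (a : G × κ →₀ ℤ) (x y : G)
    (ha : Finsupp.linearCombination ℤ (fun p : G × κ =>
      (Finsupp.single p.1 1 - Finsupp.single (p.1 * h' p.2) 1 : G →₀ ℤ)) a =
      Finsupp.single x 1 - Finsupp.single y 1) :
    ℓ y - ℓ x ≤ a.support.card := by
  classical
  have hsub : Finset.Ioc (ℓ x) (ℓ y) ⊆ a.support.image fun p => max (ℓ p.1) (ℓ (p.1 * h' p.2)) := by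
    intro m hm
    rw [Finset.mem_Ioc] at hm
    by_contra hcon
    let T : (G →₀ ℤ) →ₗ[ℤ] ℤ := Finsupp.linearCombination ℤ fun g => if m ≤ ℓ g then (1 : ℤ) else 0
    rw [Finsupp.linearCombination_apply, Finsupp.sum] at ha
    have h3 := congrArg T ha
    rw [map_sum, map_sub] at h3
    have h4 : ∑ p ∈ a.support, T (a p • (Finsupp.single p.1 1 -
        Finsupp.single (p.1 * h' p.2) 1 : G →₀ ℤ)) = 0 := by
      apply Finset.sum_eq_zero
      intro p hp
      rw [map_smul, map_sub]
      simp only [T, Finsupp.linearCombination_single, one_smul]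
      have hmax : max (ℓ p.1) (ℓ (p.1 * h' p.2)) ≠ m := by
        intro h
        exact hcon (Finset.mem_image.2 ⟨p, hp, h⟩)
      have e1 := h1 p.1 p.2
      have e2 := h2 p.1 p.2
      have : (m ≤ ℓ p.1) ↔ (m ≤ ℓ (p.1 * h' p.2)) := by
        constructor <;> intro h <;> by_contra h5 <;> apply hmax
        · rw [max_eq_left] <;> omega
        · rw [max_eq_right] <;> omega
      simp only [this, sub_self, smul_zero]
    rw [h4] at h3
    simp only [T, Finsupp.linearCombination_single, one_smul] at h3
    rw [if_neg (by omega), if_pos hm.2] at h3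
    omega
  have := Finset.card_le_card hsub
  rw [Nat.card_Ioc] at this
  exact this.trans Finset.card_image_le

/-! ### Components -/

section Comp

variable {κ : Type} [DecidableEq X]

/-- The component of a 1-chain in the direction of the letter `a`. -/
noncomputable def comp (a : X) : (G × X →₀ ℤ) →ₗ[ℤ] (G →₀ ℤ) :=
  Finsupp.linearCombination ℤ fun p : G × X => if p.2 = a then Finsupp.single p.1 1 else 0

theorem comp_single (a x : X) (g : G) :
    comp a (Finsupp.single (g, x) 1) = if x = a then Finsupp.single g (1 : ℤ) else 0 := by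
  simp [comp]

theorem comp_ch_nil (a : X) (g : G) : comp a (ch (wpath gen g [])) = 0 := by
  simp [wpath, ch_nil]

theorem comp_ch_true (a x : X) (g : G) (l : List (X × Bool)) :
    comp a (ch (wpath gen g ((x, true) :: l))) =
      (if x = a then Finsupp.single g 1 else 0) + comp a (ch (wpath gen (g * gen x) l)) := by
  simp only [wpath, ch_cons, if_true, map_add, comp_single]

theorem comp_ch_false (a x : X) (g : G) (l : List (X × Bool)) :
    comp a (ch (wpath gen g ((x, false) :: l))) =
      (if x = a then -Finsupp.single (g * (gen x)⁻¹) 1 else 0) +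
        comp a (ch (wpath gen (g * (gen x)⁻¹) l)) := by
  simp only [wpath, ch_cons, map_add, Bool.false_eq_true, if_false, map_neg, comp_single]
  split <;> simp

theorem comp_ch_notMem (a : X) (g : G) (l : List (X × Bool)) (h : ∀ p ∈ l, p.1 ≠ a) :
    comp a (ch (wpath gen g l)) = 0 := by
  induction l generalizing g with
  | nil => exact comp_ch_nil gen a g
  | cons p l ih =>
    obtain ⟨x, b⟩ := p
    have h1 : x ≠ a := h (x, b) (by simp)
    have h2 := fun g => ih g (fun p hp => h p (by simp [hp]))
    cases b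
    · rw [comp_ch_false, if_neg h1, h2, add_zero]
    · rw [comp_ch_true, if_neg h1, h2, add_zero]

/-- The component of a commutator `a h a⁻¹ h⁻¹` in the direction `a`. -/
theorem comp_commutator (a : X) (g : G) (l l' : List (X × Bool)) (h : ∀ p ∈ l, p.1 ≠ a)
    (h' : ∀ p ∈ l', p.1 ≠ a) (hc : gen a * ev gen l = ev gen l * gen a) :
    comp a (ch (wpath gen g ((a, true) :: l ++ (a, false) :: l'))) =
      Finsupp.single g 1 - Finsupp.single (g * ev gen l) 1 := by
  rw [List.cons_append, comp_ch_true, if_pos rfl, wpath_append, ch_append, map_add,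
    comp_ch_notMem gen a _ l h, comp_ch_false, if_pos rfl, comp_ch_notMem gen a _ l' h']
  have : g * gen a * ev gen l * (gen a)⁻¹ = g * ev gen l := by
    rw [mul_assoc g, hc]
    group
  rw [this]
  abel

end Comp

end Pool.Agent.H4.RD
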