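import Pool.Agent.H4.RD.CxLem

/-!
# The Cayley complex of a presentation
-/

namespace Pool.Agent.H4.RD

namespace Cx

variable {G : Type} [Group G] {K : Cx G}

theorem Htp.isPath {v w : K.V} {l l' : List (K.E × Bool)} {k : ℕ} (h : K.Htp v w l l' k) :
    IsPath K.src K.tgt v l w ∧ IsPath K.src K.tgt v l' w := by
  induction h with
  | refl l h => exact ⟨h, h⟩
  | spur p q e b h =>
    refine ⟨h, ?_⟩
    obtain ⟨u, h1, h2⟩ := isPath_append.1 h
    refine h1.append ?_
    cases b
    · simp only [IsPath, Bool.false_eq_true, if_false, Bool.not_false, if_true] at h2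
      rw [← h2.1]; exact h2.2.2
    · simp only [IsPath, Bool.false_eq_true, if_false, Bool.not_true, if_true] at h2
      rw [← h2.1]; exact h2.2.2
  | face p q f h =>
    refine ⟨h, ?_⟩
    obtain ⟨u, h1, h2⟩ := isPath_append.1 h
    obtain ⟨u', h3, h4⟩ := isPath_append.1 h1
    obtain ⟨v', hv'⟩ := K.att_path f
    obtain ⟨e1, e2⟩ := h4.start (K.att_ne f) hv'
    subst e1 e2
    exact h3.append h2
  | symm l l' k h ih => exact ⟨ih.2, ih.1⟩
  | trans l l' l'' k k' h h' ih ih' => exact ⟨ih.1, ih'.2⟩

theorem Htp.context {v w v' w' : K.V} {p q l l' : List (K.E × Bool)} {k : ℕ}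
    (hp : IsPath K.src K.tgt v' p v) (hq : IsPath K.src K.tgt w q w') (h : K.Htp v w l l' k) :
    K.Htp v' w' (p ++ l ++ q) (p ++ l' ++ q) k := by
  induction h with
  | refl l h => exact Htp.refl _ ((hp.append h).append hq)
  | spur p' q' e b h =>
    have := Htp.spur (K := K) (v := v') (w := w') (p ++ p') (q' ++ q) e b (by
      have := (hp.append h).append hq
      simpa [List.append_assoc] using this)
    simpa [List.append_assoc] using this
  | face p' q' f h =>
    have := Htp.face (K := K) (v := v') (w := w') (p ++ p') (q' ++ q) f (by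
      have := (hp.append h).append hq
      simpa [List.append_assoc] using this)
    simpa [List.append_assoc] using this
  | symm l l' k h ih => exact Htp.symm _ _ _ ih
  | trans l l' l'' k k' h h' ih ih' => exact Htp.trans _ _ _ _ _ ih ih'

end Cx

section Words

variable {G : Type} [Group G] {X R : Type} (gen : X → G)

/-- The edge path in the Cayley graph which starts at `g` and reads a given word. -/
def wpath : G → List (X × Bool) → List ((G × X) × Bool)
  | _, [] => []
  | g, (x, true) :: l => ((g, x), true) :: wpath (g * gen x) l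
  | g, (x, false) :: l => ((g * (gen x)⁻¹, x), false) :: wpath (g * (gen x)⁻¹) l

/-- The value of a word. -/
def ev (l : List (X × Bool)) : G := FreeGroup.lift gen (FreeGroup.mk l)

theorem ev_nil : ev gen [] = 1 := by simp [ev]

theorem ev_append (l l' : List (X × Bool)) : ev gen (l ++ l') = ev gen l * ev gen l' := by
  unfold ev
  rw [← FreeGroup.mul_mk, map_mul]

theorem ev_cons_true (x : X) (l : List (X × Bool)) :
    ev gen ((x, true) :: l) = gen x * ev gen l := by
  simp [ev]

theorem ev_cons_false (x : X) (l : List (X × Bool)) :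
    ev gen ((x, false) :: l) = (gen x)⁻¹ * ev gen l := by
  simp [ev]

theorem wpath_append (g : G) (l l' : List (X × Bool)) :
    wpath gen g (l ++ l') = wpath gen g l ++ wpath gen (g * ev gen l) l' := by
  induction l generalizing g with
  | nil => simp [wpath, ev_nil]
  | cons p l ih =>
    obtain ⟨x, b⟩ := p
    cases b
    · simp only [List.cons_append, wpath, ih, ev_cons_false, mul_assoc]
    · simp only [List.cons_append, wpath, ih, ev_cons_true, mul_assoc]

theorem wpath_smul (h g : G) (l : List (X × Bool)) :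
    (wpath gen g l).map (fun p => ((h * p.1.1, p.1.2), p.2)) = wpath gen (h * g) l := by
  induction l generalizing g with
  | nil => rfl
  | cons p l ih =>
    obtain ⟨x, b⟩ := p
    cases b
    · simp only [List.map_cons, wpath, ih, mul_assoc]
    · simp only [List.map_cons, wpath, ih, mul_assoc]

theorem isPath_wpath (g : G) (l : List (X × Bool)) :
    IsPath (fun e : G × X => e.1) (fun e : G × X => e.1 * gen e.2) g (wpath gen g l)
      (g * ev gen l) := by
  induction l generalizing g with
  | nil => simp [wpath, IsPath, ev_nil]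
  | cons p l ih =>
    obtain ⟨x, b⟩ := p
    cases b
    · refine ⟨by simp, ?_⟩
      have := ih (g * (gen x)⁻¹)
      simpa [ev_cons_false, mul_assoc] using this
    · refine ⟨by simp, ?_⟩
      have := ih (g * gen x)
      simpa [ev_cons_true, mul_assoc] using this

theorem exists_wpath {g w : G} {p : List ((G × X) × Bool)}
    (h : IsPath (fun e : G × X => e.1) (fun e : G × X => e.1 * gen e.2) g p w) :
    ∃ l, p = wpath gen g l := by
  induction p generalizing g with
  | nil => exact ⟨[], rfl⟩
  | cons p t ih =>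
    obtain ⟨⟨a, x⟩, b⟩ := p
    obtain ⟨h1, h2⟩ := h
    cases b
    · simp only [Bool.false_eq_true, if_false] at h1 h2
      obtain ⟨l, rfl⟩ := ih h2
      refine ⟨(x, false) :: l, ?_⟩
      simp only [wpath]
      rw [← h1]
      simp
    · simp only [if_true] at h1 h2
      obtain ⟨l, rfl⟩ := ih h2
      refine ⟨(x, true) :: l, ?_⟩
      simp only [wpath]
      rw [← h1]

theorem wpath_ne_nil {g : G} {l : List (X × Bool)} (h : l ≠ []) : wpath gen g l ≠ [] := by
  rcases l with _ | ⟨⟨x, b⟩, l⟩
  · exact absurd rfl h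
  · cases b <;> simp [wpath]

end Words

section PresCx

variable {G : Type} [Group G] {X R : Type} [Finite X] [Finite R] (gen : X → G)
  (rel : R → List (X × Bool))

instance leftProd (Y : Type) : MulAction G (G × Y) where
  smul g p := (g * p.1, p.2)
  one_smul p := by ext <;> simp [HSMul.hSMul]
  mul_smul g h p := by ext <;> simp [HSMul.hSMul, mul_assoc]

theorem leftProd_smul (Y : Type) (g : G) (p : G × Y) : (leftProd Y).smul g p = (g * p.1, p.2) := rfl

/-- The Cayley complex of a presentation: the universal cover of the presentation complex. -/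
@[reducible] def presCx (hrel : ∀ r, ev gen (rel r) = 1) (hne : ∀ r, rel r ≠ []) : Cx G where
  V := G
  E := G × X
  F := G × R
  actV := Monoid.toMulAction G
  actE := leftProd X
  actF := leftProd R
  src e := e.1
  tgt e := e.1 * gen e.2
  att f := wpath gen f.1 (rel f.2)
  src_smul _ _ := rfl
  tgt_smul g e := mul_assoc g e.1 (gen e.2)
  att_smul g f := (wpath_smul gen g f.1 (rel f.2)).symm
  att_ne f := wpath_ne_nil gen (hne f.2)
  att_path f := ⟨f.1, by
    have := isPath_wpath gen f.1 (rel f.2)
    rwa [hrel, mul_one] at this⟩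
  free g v h := by
    have : g * v = v := h
    simpa using this
  finV := ⟨{1}, fun v => ⟨1, by simp, v, mul_one v⟩⟩
  finE := by
    classical
    have := Fintype.ofFinite X
    refine ⟨Finset.univ.image fun x : X => ((1 : G), x), fun v => ⟨(1, v.2), by simp, v.1, ?_⟩⟩
    show (v.1 * 1, v.2) = v
    simp
  finF := by
    classical
    have := Fintype.ofFinite R
    refine ⟨Finset.univ.image fun x : R => ((1 : G), x), fun v => ⟨(1, v.2), by simp, v.1, ?_⟩⟩
    show (v.1 * 1, v.2) = v
    simp

variable {gen rel} (hrel : ∀ r, ev gen (rel r) = 1) (hne : ∀ r, rel r ≠ [])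

/-- Two words are equivalent if their paths are homotopic in the Cayley complex. -/
def Eqv (l l' : List (X × Bool)) : Prop :=
  ∀ g : G, ∃ k, (presCx gen rel hrel hne).Htp g (g * ev gen l) (wpath gen g l) (wpath gen g l') k

theorem Eqv.ev_eq {l l' : List (X × Bool)} (h : Eqv hrel hne l l') : ev gen l = ev gen l' := by
  obtain ⟨k, hk⟩ := h 1
  have h1 := hk.isPath.2
  have h2 : IsPath (fun e : G × X => e.1) (fun e : G × X => e.1 * gen e.2) 1 (wpath gen 1 l')
      (1 * ev gen l') := isPath_wpath gen 1 l'
  have := IsPath.unique h1 h2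
  simpa using this

theorem Eqv.refl (l : List (X × Bool)) : Eqv hrel hne l l :=
  fun g => ⟨0, Cx.Htp.refl _ (isPath_wpath gen g l)⟩

theorem Eqv.symm {l l' : List (X × Bool)} (h : Eqv hrel hne l l') : Eqv hrel hne l' l := by
  intro g
  obtain ⟨k, hk⟩ := h g
  rw [h.ev_eq] at hk
  exact ⟨k, Cx.Htp.symm _ _ _ hk⟩

theorem Eqv.trans {l l' l'' : List (X × Bool)} (h : Eqv hrel hne l l') (h' : Eqv hrel hne l' l'') :
    Eqv hrel hne l l'' := by
  intro g
  obtain ⟨k, hk⟩ := h g
  obtain ⟨k', hk'⟩ := h' g
  rw [← h.ev_eq] at hk'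
  exact ⟨k + k', Cx.Htp.trans _ _ _ _ _ hk hk'⟩

theorem Eqv.context {l l' : List (X × Bool)} (p q : List (X × Bool)) (h : Eqv hrel hne l l') :
    Eqv hrel hne (p ++ l ++ q) (p ++ l' ++ q) := by
  intro g
  obtain ⟨k, hk⟩ := h (g * ev gen p)
  refine ⟨k, ?_⟩
  have e := h.ev_eq
  rw [wpath_append, wpath_append, wpath_append, wpath_append]
  rw [ev_append, ev_append, ev_append, ← e]
  have h1 : IsPath (fun e : G × X => e.1) (fun e : G × X => e.1 * gen e.2)
      g (wpath gen g p) (g * ev gen p) := isPath_wpath gen g p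
  have h2 : IsPath (fun e : G × X => e.1) (fun e : G × X => e.1 * gen e.2)
      (g * ev gen p * ev gen l) (wpath gen (g * ev gen p * ev gen l) q)
      (g * ev gen p * ev gen l * ev gen q) := isPath_wpath gen _ q
  have := hk.context (p := wpath gen g p) (v' := g) h1 h2
  simpa only [mul_assoc] using this

theorem Eqv.spur (x : X) (b : Bool) : Eqv hrel hne [(x, b), (x, !b)] [] := by
  intro g
  have h0 : ev gen [(x, b), (x, !b)] = 1 := by
    cases b <;> simp [ev]
  cases b
  · have h : IsPath (fun e : G × X => e.1) (fun e : G × X => e.1 * gen e.2) g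
        (wpath gen g [(x, false), (x, true)]) (g * ev gen [(x, false), (x, true)]) :=
      isPath_wpath gen g _
    exact ⟨0, Cx.Htp.spur (K := presCx gen rel hrel hne) [] [] (g * (gen x)⁻¹, x) false h⟩
  · have h : IsPath (fun e : G × X => e.1) (fun e : G × X => e.1 * gen e.2) g
        (wpath gen g [(x, true), (x, false)]) (g * ev gen [(x, true), (x, false)]) :=
      isPath_wpath gen g _
    have e1 : wpath gen g [(x, true), (x, false)] = [((g, x), true), ((g, x), false)] := by
      simp [wpath]
    rw [e1] at h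
    show ∃ k, (presCx gen rel hrel hne).Htp g (g * ev gen [(x, true), (x, false)])
      (wpath gen g [(x, true), (x, false)]) (wpath gen g []) k
    rw [e1]
    exact ⟨0, Cx.Htp.spur (K := presCx gen rel hrel hne) [] [] (g, x) true h⟩

theorem Eqv.of_rel (r : R) : Eqv hrel hne (rel r) [] := by
  intro g
  have h : IsPath (fun e : G × X => e.1) (fun e : G × X => e.1 * gen e.2) g
      (wpath gen g (rel r)) (g * ev gen (rel r)) := isPath_wpath gen g _
  have := Cx.Htp.face (K := presCx gen rel hrel hne) (v := g) (w := g * ev gen (rel r)) [] [] (g, r)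
    (by simpa using h)
  simp only [List.nil_append, List.append_nil] at this
  exact ⟨1, this⟩

theorem Eqv.of_step {l l' : List (X × Bool)} (h : FreeGroup.Red.Step l l') :
    Eqv hrel hne l l' := by
  obtain ⟨⟩ := h
  rename_i L₁ L₂ x b
  have := (Eqv.spur hrel hne x b).context hrel hne L₁ L₂
  simpa using this

theorem Eqv.of_red {l l' : List (X × Bool)} (h : FreeGroup.Red l l') : Eqv hrel hne l l' := by
  induction h with
  | refl => exact Eqv.refl hrel hne l
  | tail _ h2 ih => exact ih.trans hrel hne (Eqv.of_step hrel hne h2)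

theorem Eqv.of_mk {l l' : List (X × Bool)} (h : FreeGroup.mk l = FreeGroup.mk l') :
    Eqv hrel hne l l' := by
  obtain ⟨c, h1, h2⟩ := FreeGroup.Red.exact.1 h
  exact (Eqv.of_red hrel hne h1).trans hrel hne ((Eqv.of_red hrel hne h2).symm hrel hne)

/-- The subgroup of words which are null-homotopic in the Cayley complex. -/
def nullSub : Subgroup (FreeGroup X) where
  carrier := {u | ∃ l, FreeGroup.mk l = u ∧ Eqv hrel hne l []}
  one_mem' := ⟨[], rfl, Eqv.refl hrel hne []⟩
  mul_mem' := by
    rintro _ _ ⟨l, rfl, hl⟩ ⟨l', rfl, hl'⟩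
    refine ⟨l ++ l', FreeGroup.mul_mk.symm, ?_⟩
    have h1 := hl.context hrel hne [] l'
    simp only [List.nil_append] at h1
    exact h1.trans hrel hne hl'
  inv_mem' := by
    rintro _ ⟨l, rfl, hl⟩
    refine ⟨FreeGroup.invRev l, FreeGroup.inv_mk.symm, ?_⟩
    have h1 := (hl.symm hrel hne).context hrel hne (FreeGroup.invRev l) []
    simp only [List.append_nil] at h1
    refine h1.trans hrel hne (Eqv.of_mk hrel hne ?_)
    rw [← FreeGroup.mul_mk, ← FreeGroup.inv_mk, inv_mul_cancel]
    rfl

instance : (nullSub hrel hne).Normal where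
  conj_mem := by
    rintro _ ⟨l, rfl, hl⟩ g
    obtain ⟨c, rfl⟩ : ∃ c, FreeGroup.mk c = g := Quot.exists_rep g
    refine ⟨c ++ l ++ FreeGroup.invRev c, ?_, ?_⟩
    · rw [FreeGroup.inv_mk, FreeGroup.mul_mk, FreeGroup.mul_mk]
    · have h1 := hl.context hrel hne c (FreeGroup.invRev c)
      simp only [List.append_nil] at h1
      refine h1.trans hrel hne (Eqv.of_mk hrel hne ?_)
      rw [← FreeGroup.mul_mk, ← FreeGroup.inv_mk, mul_inv_cancel]
      rfl

/-- The Cayley complex of a presentation of `G` is simply connected. -/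
theorem presCx_SC (hsurj : Function.Surjective (FreeGroup.lift gen))
    (hker : (FreeGroup.lift gen).ker ≤
      Subgroup.normalClosure (Set.range fun r => FreeGroup.mk (rel r))) :
    (presCx gen rel hrel hne).SC := by
  refine ⟨⟨(1 : G)⟩, ?_, ?_⟩
  · intro v w
    obtain ⟨u, hu⟩ := hsurj (v⁻¹ * w : G)
    obtain ⟨l, rfl⟩ : ∃ l, FreeGroup.mk l = u := Quot.exists_rep u
    refine ⟨wpath gen v l, ?_⟩
    have := isPath_wpath gen v l
    have e : v * ev gen l = w := by
      unfold ev
      rw [hu, mul_inv_cancel_left]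
    rwa [e] at this
  · intro v p hp
    obtain ⟨l, rfl⟩ := exists_wpath gen hp
    have h1 : v * ev gen l = v := (isPath_wpath gen v l).unique hp
    have h2 : ev gen l = 1 := by simpa using h1
    have h3 : FreeGroup.mk l ∈ Subgroup.normalClosure (Set.range fun r => FreeGroup.mk (rel r)) :=
      hker h2
    have h4 : Subgroup.normalClosure (Set.range fun r => FreeGroup.mk (rel r)) ≤
        nullSub hrel hne := by
      apply Subgroup.normalClosure_le_normal
      rintro _ ⟨r, rfl⟩
      exact ⟨rel r, rfl, Eqv.of_rel hrel hne r⟩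
    obtain ⟨l', h5, h6⟩ := h4 h3
    have h7 := (Eqv.of_mk hrel hne h5.symm).trans hrel hne h6
    obtain ⟨k, hk⟩ := h7 v
    rw [h1] at hk
    exact ⟨k, hk⟩

end PresCx

end Pool.Agent.H4.RD
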