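import Mathlib

/-!
# Trilinear forms and rapid decay

For nonnegative functions `a b c` on a group put
`tri a b c = ∑ a(k) b(h) c(kh)` (a sum over all pairs `(k, h)`).  Rapid decay with respect to a
function `L` is the inequality `tri a b c ≤ C ‖a (1+L)^s‖₂ ‖b‖₂ ‖c‖₂`.
-/

namespace Pool.Agent.H4.RD

open scoped ENNReal

/-! ### The `ℓ²` norm of a nonnegative function -/

/-- The `ℓ²` norm, with values in `[0, ∞]`. -/
noncomputable def nrm {α : Type*} (a : α → ℝ≥0∞) : ℝ≥0∞ := (∑' x, a x ^ 2) ^ (1 / 2 : ℝ)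

theorem rt_sq (x : ℝ≥0∞) : (x ^ (1 / 2 : ℝ)) ^ 2 = x := by
  rw [← ENNReal.rpow_natCast, ← ENNReal.rpow_mul]
  norm_num

theorem sq_rt (x : ℝ≥0∞) : (x ^ 2) ^ (1 / 2 : ℝ) = x := by
  rw [← ENNReal.rpow_natCast, ← ENNReal.rpow_mul]
  norm_num

theorem rt_mono {x y : ℝ≥0∞} (h : x ≤ y) : x ^ (1 / 2 : ℝ) ≤ y ^ (1 / 2 : ℝ) :=
  ENNReal.rpow_le_rpow h (by norm_num)

theorem rt_mul (x y : ℝ≥0∞) : (x * y) ^ (1 / 2 : ℝ) = x ^ (1 / 2 : ℝ) * y ^ (1 / 2 : ℝ) :=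
  ENNReal.mul_rpow_of_nonneg _ _ (by norm_num)

theorem nrm_sq {α : Type*} (a : α → ℝ≥0∞) : nrm a ^ 2 = ∑' x, a x ^ 2 := rt_sq _

theorem le_rt_of_sq_le {x y : ℝ≥0∞} (h : x ^ 2 ≤ y) : x ≤ y ^ (1 / 2 : ℝ) := by
  have := rt_mono h
  rwa [sq_rt] at this

theorem nrm_mono {α : Type*} {a b : α → ℝ≥0∞} (h : ∀ x, a x ≤ b x) : nrm a ≤ nrm b :=
  rt_mono (ENNReal.tsum_le_tsum fun x => pow_le_pow_left' (h x) 2)

theorem nrm_const_mul {α : Type*} (t : ℝ≥0∞) (a : α → ℝ≥0∞) :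
    nrm (fun x => t * a x) = t * nrm a := by
  unfold nrm
  simp only [mul_pow]
  rw [ENNReal.tsum_mul_left, rt_mul, sq_rt]

theorem cauchy_schwarz {α : Type*} (a b : α → ℝ≥0∞) : ∑' x, a x * b x ≤ nrm a * nrm b := by
  rw [ENNReal.tsum_eq_iSup_sum]
  apply iSup_le
  intro s
  have h := ENNReal.inner_le_Lp_mul_Lq s a b (p := 2) (q := 2) Real.HolderConjugate.two_two
  refine h.trans ?_
  unfold nrm
  have e : ∀ f : α → ℝ≥0∞, (∑ i ∈ s, f i ^ (2 : ℝ)) ^ (1 / 2 : ℝ) ≤ (∑' x, f x ^ 2) ^ (1 / 2 : ℝ) := by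
    intro f
    apply rt_mono
    have : ∀ i, f i ^ (2 : ℝ) = f i ^ 2 := fun i => by
      rw [← ENNReal.rpow_natCast]; norm_num
    simp only [this]
    exact ENNReal.sum_le_tsum s
  exact mul_le_mul' (e a) (e b)

theorem cauchy_schwarz_sq {α : Type*} (a b : α → ℝ≥0∞) :
    (∑' x, a x * b x) ^ 2 ≤ (∑' x, a x ^ 2) * ∑' x, b x ^ 2 := by
  have h := pow_le_pow_left' (cauchy_schwarz a b) 2
  rwa [mul_pow, nrm_sq, nrm_sq] at h

/-- The norm of a function of two variables by slices. -/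
theorem nrm_slices {α β : Type*} (a : α × β → ℝ≥0∞) :
    nrm (fun q : β => nrm (fun n : α => a (n, q))) = nrm a := by
  unfold nrm
  congr 1
  simp only [rt_sq]
  rw [ENNReal.tsum_comm, ← ENNReal.tsum_prod (f := fun x y => a (x, y) ^ 2)]

/-- A form of the Cauchy-Schwarz inequality for three functions of two variables. -/
theorem three_le {α β γ : Type*} (A : α → β → ℝ≥0∞) (B : β → γ → ℝ≥0∞) (C : α → γ → ℝ≥0∞) :
    ∑' p, ∑' u, ∑' s, A p u * B u s * C p s ≤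
      nrm (fun x : α × β => A x.1 x.2) * nrm (fun x : β × γ => B x.1 x.2) *
        nrm (fun x : α × γ => C x.1 x.2) := by
  have h1 : ∑' p, ∑' u, ∑' s, A p u * B u s * C p s =
      ∑' x : α × γ, (∑' u, A x.1 u * B u x.2) * C x.1 x.2 := by
    rw [ENNReal.tsum_prod (f := fun p s => (∑' u, A p u * B u s) * C p s)]
    congr 1
    funext p
    rw [ENNReal.tsum_comm]
    congr 1
    funext s
    rw [ENNReal.tsum_mul_right]
  rw [h1]
  refine (cauchy_schwarz _ _).trans ?_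
  gcongr
  unfold nrm
  rw [← rt_mul]
  apply rt_mono
  calc ∑' x : α × γ, (∑' u, A x.1 u * B u x.2) ^ 2
      ≤ ∑' x : α × γ, (∑' u, A x.1 u ^ 2) * ∑' u, B u x.2 ^ 2 :=
        ENNReal.tsum_le_tsum fun x => cauchy_schwarz_sq _ _
    _ = (∑' p, ∑' u, A p u ^ 2) * ∑' s, ∑' u, B u s ^ 2 := by
        rw [ENNReal.tsum_prod (f := fun p s => (∑' u, A p u ^ 2) * ∑' u, B u s ^ 2)]
        simp only [ENNReal.tsum_mul_left, ENNReal.tsum_mul_right]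
    _ = (∑' x : α × β, A x.1 x.2 ^ 2) * ∑' x : β × γ, B x.1 x.2 ^ 2 := by
        rw [ENNReal.tsum_prod (f := fun p u => A p u ^ 2),
          ENNReal.tsum_prod (f := fun u s => B u s ^ 2)]
        congr 1
        exact ENNReal.tsum_comm

/-! ### Trilinear forms on groups -/

section Group

variable {G : Type*} [Group G]

/-- The trilinear form `∑ a(k) b(h) c(kh)`. -/
noncomputable def tri (a b c : G → ℝ≥0∞) : ℝ≥0∞ := ∑' k, ∑' h, a k * b h * c (k * h)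

/-- The weighted `ℓ²` norm. -/
noncomputable def wnrm (L : G → ℕ) (s : ℕ) (a : G → ℝ≥0∞) : ℝ≥0∞ :=
  nrm (fun g => a g * ((1 + L g : ℕ) : ℝ≥0∞) ^ s)

/-- Rapid decay with respect to `L`. -/
def RDw (L : G → ℕ) : Prop :=
  ∃ C : ℝ≥0∞, C ≠ ∞ ∧ ∃ s : ℕ, ∀ a b c : G → ℝ≥0∞, tri a b c ≤ C * wnrm L s a * nrm b * nrm c

theorem RDw.mono {L L' : G → ℕ} (h : RDw L) (K : ℕ) (hL : ∀ g, L g ≤ K * L' g) : RDw L' := by
  obtain ⟨C, hC, s, h⟩ := h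
  refine ⟨C * ((1 + K : ℕ) : ℝ≥0∞) ^ s, ENNReal.mul_ne_top hC (ENNReal.pow_ne_top
    (ENNReal.natCast_ne_top _)), s, fun a b c => (h a b c).trans ?_⟩
  have key : wnrm L s a ≤ ((1 + K : ℕ) : ℝ≥0∞) ^ s * wnrm L' s a := by
    unfold wnrm
    rw [← nrm_const_mul]
    apply nrm_mono
    intro g
    have h1 : ((1 + L g : ℕ) : ℝ≥0∞) ^ s ≤
        ((1 + K : ℕ) : ℝ≥0∞) ^ s * ((1 + L' g : ℕ) : ℝ≥0∞) ^ s := by
      rw [← mul_pow]
      apply pow_le_pow_left'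
      have : 1 + L g ≤ (1 + K) * (1 + L' g) := by
        have := hL g
        nlinarith
      exact_mod_cast this
    calc a g * ((1 + L g : ℕ) : ℝ≥0∞) ^ s
        ≤ a g * (((1 + K : ℕ) : ℝ≥0∞) ^ s * ((1 + L' g : ℕ) : ℝ≥0∞) ^ s) := by gcongr
      _ = _ := by ring
  calc C * wnrm L s a * nrm b * nrm c
      ≤ C * (((1 + K : ℕ) : ℝ≥0∞) ^ s * wnrm L' s a) * nrm b * nrm c := by gcongr
    _ = C * ((1 + K : ℕ) : ℝ≥0∞) ^ s * wnrm L' s a * nrm b * nrm c := by ring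

end Group

/-! ### Semidirect products -/

section Semidirect

variable {N Q : Type*} [Group N] [Group Q] {φ : Q →* MulAut N}

theorem nrm_comp_equiv {α β : Type*} (e : α ≃ β) (a : β → ℝ≥0∞) :
    nrm (fun x => a (e x)) = nrm a := by
  unfold nrm
  congr 1
  exact e.tsum_eq (fun x => a x ^ 2)

theorem nrm_semidirect (a : N ⋊[φ] Q → ℝ≥0∞) :
    nrm (fun q : Q => nrm (fun n : N => a ⟨n, q⟩)) = nrm a := by
  have h := nrm_slices (fun x : N × Q => a ⟨x.1, x.2⟩)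
  rw [h]
  exact nrm_comp_equiv SemidirectProduct.equivProd.symm a

theorem tsum_semidirect (a : N ⋊[φ] Q → ℝ≥0∞) : ∑' g, a g = ∑' q, ∑' n, a ⟨n, q⟩ := by
  rw [← (SemidirectProduct.equivProd (φ := φ)).symm.tsum_eq]
  rw [← ENNReal.tsum_comm]
  rw [← ENNReal.tsum_prod (f := fun n q => a ⟨n, q⟩)]
  rfl

/-- Rapid decay passes to semidirect products. -/
theorem RDw.semidirect {l : N → ℕ} {L : Q → ℕ} (hN : RDw l) (hQ : RDw L) :
    RDw (fun g : N ⋊[φ] Q => l g.left + L g.right) := by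
  obtain ⟨C₁, hC₁, s₁, h₁⟩ := hN
  obtain ⟨C₂, hC₂, s₂, h₂⟩ := hQ
  refine ⟨C₁ * C₂, ENNReal.mul_ne_top hC₁ hC₂, s₁ + s₂, fun a b c => ?_⟩
  -- slices
  let f : Q → ℝ≥0∞ := fun q => wnrm l s₁ (fun n => a ⟨n, q⟩)
  let g : Q → ℝ≥0∞ := fun q => nrm (fun n => b ⟨n, q⟩)
  let k : Q → ℝ≥0∞ := fun q => nrm (fun n => c ⟨n, q⟩)
  have e1 : tri a b c = ∑' q, ∑' r, ∑' n, ∑' m, a ⟨n, q⟩ * b ⟨m, r⟩ * c ⟨n * φ q m, q * r⟩ := by
    unfold tri
    rw [tsum_semidirect]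
    congr 1
    funext q
    rw [ENNReal.tsum_comm]
    have : ∀ n : N, ∑' h : N ⋊[φ] Q, a ⟨n, q⟩ * b h * c (⟨n, q⟩ * h) =
        ∑' r, ∑' m, a ⟨n, q⟩ * b ⟨m, r⟩ * c ⟨n * φ q m, q * r⟩ := by
      intro n
      rw [tsum_semidirect]
      rfl
    rw [ENNReal.tsum_comm]
    simp only [this]
    rw [ENNReal.tsum_comm]
  have e2 : ∀ q r, ∑' n, ∑' m, a ⟨n, q⟩ * b ⟨m, r⟩ * c ⟨n * φ q m, q * r⟩ ≤
      C₁ * (f q * g r * k (q * r)) := by
    intro q r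
    have h3 := h₁ (fun n => a ⟨n, q⟩) (fun m => b ⟨(φ q).symm m, r⟩) (fun n => c ⟨n, q * r⟩)
    have h4 : nrm (fun m => b ⟨(φ q).symm m, r⟩) = g r :=
      nrm_comp_equiv (φ q).symm.toEquiv (fun m => b ⟨m, r⟩)
    rw [h4] at h3
    have h5 : tri (fun n => a ⟨n, q⟩) (fun m => b ⟨(φ q).symm m, r⟩) (fun n => c ⟨n, q * r⟩) =
        ∑' n, ∑' m, a ⟨n, q⟩ * b ⟨m, r⟩ * c ⟨n * φ q m, q * r⟩ := by
      unfold tri
      congr 1
      funext n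
      rw [← (φ q).toEquiv.tsum_eq]
      congr 1
      funext m
      simp
    rw [h5] at h3
    calc _ ≤ _ := h3
      _ = C₁ * (f q * g r * k (q * r)) := by
        show C₁ * f q * g r * k (q * r) = _
        ring
  calc tri a b c = ∑' q, ∑' r, ∑' n, ∑' m, a ⟨n, q⟩ * b ⟨m, r⟩ * c ⟨n * φ q m, q * r⟩ := e1
    _ ≤ ∑' q, ∑' r, C₁ * (f q * g r * k (q * r)) :=
        ENNReal.tsum_le_tsum fun q => ENNReal.tsum_le_tsum fun r => e2 q r
    _ = C₁ * tri f g k := by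
        unfold tri
        simp only [ENNReal.tsum_mul_left]
    _ ≤ C₁ * (C₂ * wnrm L s₂ f * nrm g * nrm k) := by
        gcongr
        exact h₂ f g k
    _ ≤ C₁ * (C₂ * wnrm (fun g : N ⋊[φ] Q => l g.left + L g.right) (s₁ + s₂) a * nrm b *
          nrm c) := by
        have hg : nrm g = nrm b := nrm_semidirect b
        have hk : nrm k = nrm c := nrm_semidirect c
        rw [hg, hk]
        gcongr
        unfold wnrm
        rw [← nrm_semidirect]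
        apply nrm_mono
        intro q
        show nrm (fun n => a ⟨n, q⟩ * ((1 + l n : ℕ) : ℝ≥0∞) ^ s₁) * ((1 + L q : ℕ) : ℝ≥0∞) ^ s₂ ≤ _
        rw [mul_comm, ← nrm_const_mul]
        apply nrm_mono
        intro n
        show ((1 + L q : ℕ) : ℝ≥0∞) ^ s₂ * (a ⟨n, q⟩ * ((1 + l n : ℕ) : ℝ≥0∞) ^ s₁) ≤
          a ⟨n, q⟩ * ((1 + (l n + L q) : ℕ) : ℝ≥0∞) ^ (s₁ + s₂)
        rw [pow_add]
        calc ((1 + L q : ℕ) : ℝ≥0∞) ^ s₂ * (a ⟨n, q⟩ * ((1 + l n : ℕ) : ℝ≥0∞) ^ s₁)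
            = a ⟨n, q⟩ * (((1 + l n : ℕ) : ℝ≥0∞) ^ s₁ * ((1 + L q : ℕ) : ℝ≥0∞) ^ s₂) := by ring
          _ ≤ _ := by
            gcongr <;> omega
    _ = C₁ * C₂ * wnrm (fun g : N ⋊[φ] Q => l g.left + L g.right) (s₁ + s₂) a * nrm b *
          nrm c := by ring

end Semidirect

end Pool.Agent.H4.RD
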